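import Pool.Agent.H48.MG.Cz
import Pool.Agent.H1.AR.Dua
import Pool.Agent.H1.AR.Knn

/-!
# [H48 MG SPN] the classes of the good places outside a finite set span, 70-110 lines. File Pool/Agent/H48/MG/Spn.lean

`spn0`: `κ · q v = 0` for all `v ∉ S` of prime norm outside `T` implies `κ = 0`: otherwise `z` from `dua` is not a `p`-th power, and `knn` with `E = D'.S ∪ T` gives `v` of prime norm with `lg p ζ v z ≠ 0`, but `lg p ζ v z = κ · q v`.
`spn`: the span `W` in `Fin r → ZMod p` of the `q v` (`v ∉ S`, prime norm, `v ∉ T`) is everything (otherwise a nonzero functional, i.e. `κ ≠ 0`, vanishes on `W`: `Submodule.exists_le_ker_of_lt_top` or `Module.Dual`, `Pi` basis; `dotProduct`). So every `Pi.single i 1` is a finite combination `∑ c_i(v) q v` (`Submodule.mem_span_range_iff_exists_finsupp` / `Finsupp.mem_span_image_iff_linearCombination`); put `x v k = ∑ i, y i k * c_i(v)`. (`[Fact p.Prime]` for the field structure of `ZMod p`.)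
-/

set_option autoImplicit false
set_option linter.dupNamespace false

open scoped NumberField
open IsDedekindDomain Filter Topology
open scoped Classical

noncomputable section

namespace H48.MG

open H63.MA H38.BB H38.BG H38.AS H57.PC H57.BRA H89.BRG H1.AR H48.MF

variable {p w : ℕ} {K : Type} [Field K] [NumberField K] {ζ : K}

theorem spn0 (hp : p.Prime) (hp2 : MOne p K) (hζ : IsPrimitiveRoot ζ p) (D' : RM K p ζ)
    (T : Finset (Pl K)) (κ : Fin D'.r → ZMod p)
    (h : ∀ v, v ∉ D'.S → (nm v).Prime → v ∉ T → ∑ i, κ i * D'.q v i = 0) : κ = 0 := by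
  by_contra hκ
  obtain ⟨z, -, hz, hzp⟩ := dua hp hp2 hζ D' κ
  obtain ⟨v, hvE, -, hvp, -, hv0⟩ := knn hp hp2 hζ (hzp hκ) (D'.S ∪ T)
  rw [Finset.mem_union, not_or] at hvE
  apply hv0
  rw [← hz v hvE.1 hvp]
  exact h v hvE.1 hvp hvE.2

theorem spn (hp : p.Prime) (hp2 : MOne p K) (hζ : IsPrimitiveRoot ζ p) (D' : RM K p ζ)
    (T : Finset (Pl K)) (y : Fin D'.r → Fin w → ZMod p) :
    ∃ x : Pl K → Fin w → ZMod p, {v | x v ≠ 0}.Finite ∧
      (∀ v, x v ≠ 0 → v ∉ D'.S ∧ (nm v).Prime ∧ v ∉ T) ∧ tx D'.q x = y := by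
  have : Fact p.Prime := ⟨hp⟩
  obtain ⟨q, hq⟩ : ∃ q : {v : Pl K // v ∉ D'.S ∧ (nm v).Prime ∧ v ∉ T} → Fin D'.r → ZMod p,
      q = fun v => D'.q v.1 := ⟨_, rfl⟩
  have htop : Submodule.span (ZMod p) (Set.range q) = ⊤ := by
    by_contra hne
    obtain ⟨f, hf0, hf⟩ := Submodule.exists_le_ker_of_lt_top _ (lt_top_iff_ne_top.2 hne)
    have hfx : ∀ x : Fin D'.r → ZMod p, f x = ∑ i, f (Pi.single i 1) * x i := by
      intro x
      conv_lhs => rw [pi_eq_sum_univ' x, map_sum]
      refine Finset.sum_congr rfl fun i _ => ?_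
      rw [map_smul, smul_eq_mul, mul_comm]
    have hκ := spn0 hp hp2 hζ D' T (fun i => f (Pi.single i 1)) (fun v h1 h2 h3 => by
      rw [← hfx]
      have h4 : q ⟨v, h1, h2, h3⟩ ∈ LinearMap.ker f := hf (Submodule.subset_span ⟨_, rfl⟩)
      rw [LinearMap.mem_ker, hq] at h4
      exact h4)
    apply hf0
    ext i
    have h5 := congrFun hκ i
    simpa using h5
  have hc : ∀ k : Fin w, ∃ c : {v : Pl K // v ∉ D'.S ∧ (nm v).Prime ∧ v ∉ T} →₀ ZMod p,
      (c.sum fun v a => a • q v) = fun i => y i k := by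
    intro k
    have h1 : (fun i => y i k) ∈ Submodule.span (ZMod p) (Set.range q) := by
      rw [htop]
      exact Submodule.mem_top
    exact Finsupp.mem_span_range_iff_exists_finsupp.1 h1
  choose c hc using hc
  obtain ⟨x, hx⟩ : ∃ x : Pl K → Fin w → ZMod p, x = fun v k =>
      if h : v ∉ D'.S ∧ (nm v).Prime ∧ v ∉ T then c k ⟨v, h⟩ else 0 := ⟨_, rfl⟩
  have hxG : ∀ v k (h : v ∉ D'.S ∧ (nm v).Prime ∧ v ∉ T), x v k = c k ⟨v, h⟩ := by
    intro v k h
    rw [hx]
    exact dif_pos h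
  have hxN : ∀ v, ¬ (v ∉ D'.S ∧ (nm v).Prime ∧ v ∉ T) → x v = 0 := by
    intro v h
    rw [hx]
    funext k
    exact dif_neg h
  refine ⟨x, ?_, ?_, ?_⟩
  · refine Set.Finite.subset (Set.finite_iUnion fun k : Fin w =>
      ((c k).support.finite_toSet.image Subtype.val)) ?_
    intro v hv
    have h1 : v ∉ D'.S ∧ (nm v).Prime ∧ v ∉ T := by
      by_contra h
      exact hv (hxN v h)
    obtain ⟨k, hk⟩ := Function.ne_iff.1 hv
    refine Set.mem_iUnion.2 ⟨k, ⟨v, h1⟩, ?_, rfl⟩
    rw [Finset.mem_coe, Finsupp.mem_support_iff, ← hxG v k h1]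
    exact hk
  · intro v hv
    by_contra h
    exact hv (hxN v h)
  · funext i k
    unfold tx
    rw [finsum_eq_sum_of_support_subset (s := (c k).support.map
      (Function.Embedding.subtype fun v : Pl K => v ∉ D'.S ∧ (nm v).Prime ∧ v ∉ T)) _ (by
      intro v hv
      rw [Function.mem_support] at hv
      have h1 : v ∉ D'.S ∧ (nm v).Prime ∧ v ∉ T := by
        by_contra h
        rw [hxN v h, Pi.zero_apply, mul_zero] at hv
        exact hv rfl
      rw [Finset.mem_coe, Finset.mem_map]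
      refine ⟨⟨v, h1⟩, ?_, rfl⟩
      rw [Finsupp.mem_support_iff, ← hxG v k h1]
      intro h0
      rw [h0, mul_zero] at hv
      exact hv rfl), Finset.sum_map]
    have h2 := congrFun (hc k) i
    rw [Finsupp.sum, Finset.sum_apply, hq] at h2
    rw [← h2]
    refine Finset.sum_congr rfl fun v _ => ?_
    show D'.q v.1 i * x v.1 k = c k v * D'.q v.1 i
    rw [hxG v.1 k v.2, mul_comm]

end H48.MG
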