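import Pool.Agent.H48.MG.Cnt
import Pool.Agent.H48.MG.Spn

/-!
# [H48 MG ADL] existence of adapted lifts, 120-180 lines. File Pool/Agent/H48/MG/Adl.lean

`z = (φ₀, δ)`. Let `x v = cvl δ v` for `v ∉ S0` not of prime norm, `0` otherwise (finite support: `cvl_fin`), `x'` from `spn` (`T = ∅`) with `tx x' = tx x`, supported on the good places. `cz` for `x - x'` gives `χ` with these values and trivial at `S0` (`tx_sub`). `δ' = δ * χ⁻¹`: `cvl δ' v = 0` for `v ∉ S0` not of prime norm, so `δ' = 1` on `inr X.L v` (`lab_in`, see Gav.lean `ls_twz` for its use). `φ = twz δ' φ₀`.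
* `cq`: `twz δ' φ₀ = twz χ⁻¹ (twz δ φ₀)` is conjugate to `twz δ φ₀` at `S0` (`cq_twz_teq` with `χ⁻¹ = 1` there, `twz_one`). `pw`: `gm_zpow`, `zcen`, last clause of `LS`. `un`: a place of non-prime norm is not under `g` (`ltb_nm`), so `φ₀ = 1` on `inr`.
* for `a ∈ g`: `φ₀ (X.t a) = z (dd a) * g a.1` with `dd a ∈ Del a.1` (`fib_conj`, `par_t`, as in Lst.lean), `δ' (X.t a) = δ' (X.L.t (un a))` (`lab_t`).
* `ε v = if ¬ X.D.Gd v then 0 else if h : ∃ a ∈ g, un a = v then cvl δ' v + dd h.choose else cvl δ' v` (`un` is injective on `g`).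
-/

set_option autoImplicit false
set_option linter.dupNamespace false

open scoped NumberField
open IsDedekindDomain Filter Topology
open scoped Classical

noncomputable section

namespace H48.MG

open H63.MA H38.BB H38.BG H38.AS H57.PC H57.BRA H89.BRG H1.AR H48.MF

variable {p u w N : ℕ} {G R Q : Type} [Group G] [Group R] [Group Q] [Finite G] [Finite R]
  [Fintype Q] (Gm : GM p u w N G R Q)
  {K : Type} [Field K] [NumberField K] {Ω : Type} [Field Ω] [Algebra K Ω] [IsAlgClosure K Ω]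
  {ζ : K} (X : AD Gm.M K Ω ζ) (φ₁ : Gal(Ω/K) →* G)

/-- the inertia generator is in the inertia group -/
private theorem adl_tin {D : RD0 K p ζ} (L : LDs D Ω) (v : Pl K) (hv : v ∉ D.S0) :
    L.t v ∈ inr L v := by
  unfold LDs.t inr
  rw [dif_pos hv, dif_pos hv]
  exact (L.ld v hv).ht

theorem adl [NeZero p] (hp : p.Prime) (hp2 : MOne p K) (hζ : IsPrimitiveRoot ζ p) (hz : Z2 p K)
    (D' : RM K p ζ) (hS : D'.S = X.D.S0) {c : Gal(Ω/K) →* R} (hc : X.IsC c)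
    {g : Finset X.Lb} (hg : X.Ok g) {z : (Gal(Ω/K) →* G) × (Gal(Ω/K) →* Wg p w)}
    (hzz : Dl Gm X φ₁ c g z) : ∃ φ ε, AL Gm X φ₁ c g φ ε := by
  obtain ⟨φ₀, δ⟩ := z
  obtain ⟨hφ₀, hδ, hCq⟩ := hzz
  change φ₀ ∈ LS Gm X (rh X c g) g at hφ₀
  change H38.ML.FT δ at hδ
  change Cq X.D.S0 X.P Gm.T (twz Gm δ φ₀) φ₁ at hCq
  obtain ⟨h1, h2, h3, h4, h5⟩ := hφ₀
  -- the places of non-prime norm
  obtain ⟨x, hx⟩ : ∃ x : Pl K → Fin w → ZMod p,
      x = fun v => if v ∉ X.D.S0 ∧ ¬ (nm v).Prime then cvl X.L δ v else 0 := ⟨_, rfl⟩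
  have hxf : {v | x v ≠ 0}.Finite := by
    refine (cvl_fin X.L hδ).subset fun v hv => ?_
    rw [Set.mem_setOf_eq] at hv ⊢
    intro h
    apply hv
    rw [hx]
    dsimp only
    split_ifs
    · exact h
    · rfl
  have hx0 : ∀ v ∈ X.D.S0, x v = 0 := by
    intro v hv
    rw [hx]
    dsimp only
    rw [if_neg fun h => h.1 hv]
  obtain ⟨x', hx'f, hx's, hx't⟩ := spn hp hp2 hζ D' ∅ (tx D'.q x)
  have hx'0 : ∀ v, ¬ (v ∉ X.D.S0 ∧ (nm v).Prime) → x' v = 0 := by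
    intro v hv
    by_contra h
    obtain ⟨h6, h7, -⟩ := hx's v h
    exact hv ⟨by rwa [hS] at h6, h7⟩
  have hdf : {v | (fun v => x v - x' v) v ≠ 0}.Finite := by
    refine (hxf.union hx'f).subset fun v hv => ?_
    rw [Set.mem_setOf_eq] at hv
    by_contra h
    rw [Set.mem_union, Set.mem_setOf_eq, Set.mem_setOf_eq, not_or, not_not, not_not] at h
    apply hv
    show x v - x' v = 0
    rw [h.1, h.2, sub_zero]
  obtain ⟨χ, hχ, hχv, hχS⟩ := cz (w := w) hp hp2 hζ X.L X.P D' hS (fun v => x v - x' v) hdf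
    (fun v hv => by
      show x v - x' v = 0
      rw [hx0 v hv, hx'0 v fun h => h.1 hv, sub_zero])
  have hχS' := hχS (by rw [tx_sub D'.q x x' hxf hx'f, hx't, sub_self])
  -- the corrected character
  obtain ⟨δ', hδ'⟩ : ∃ δ' : Gal(Ω/K) →* Wg p w, δ' = χ⁻¹ * δ := ⟨_, rfl⟩
  have hχi : H38.ML.FT χ⁻¹ := by
    obtain ⟨E, hE, hle⟩ := hχ
    refine ⟨E, hE, fun σ hσ => ?_⟩
    rw [MonoidHom.mem_ker, MonoidHom.inv_apply, MonoidHom.mem_ker.1 (hle hσ), inv_one]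
  have hδ'f : H38.ML.FT δ' := by
    obtain ⟨E, hE, hle⟩ := hχi
    obtain ⟨E', hE', hle'⟩ := hδ
    refine ⟨E ⊔ E', inferInstance, fun σ hσ => ?_⟩
    have h6 : σ ∈ E.fixingSubgroup := IntermediateField.fixingSubgroup_antitone le_sup_left hσ
    have h7 : σ ∈ E'.fixingSubgroup := IntermediateField.fixingSubgroup_antitone le_sup_right hσ
    rw [MonoidHom.mem_ker, hδ', MonoidHom.mul_apply, MonoidHom.mem_ker.1 (hle h6),
      MonoidHom.mem_ker.1 (hle' h7), one_mul]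
  have hδ'v : ∀ v, v ∉ X.D.S0 → ¬ (nm v).Prime → δ' (X.L.t v) = 1 := by
    intro v hv hn
    have h6 := hχv v hv
    have h7 : cvl X.L χ v = cvl X.L δ v := by
      rw [h6]
      show x v - x' v = _
      rw [hx'0 v fun h => hn h.2, sub_zero, hx]
      dsimp only
      rw [if_pos ⟨hv, hn⟩]
    unfold cvl at h7
    have h8 : χ (X.L.t v) = δ (X.L.t v) := Multiplicative.toAdd.injective h7
    rw [hδ', MonoidHom.mul_apply, MonoidHom.inv_apply, h8, inv_mul_cancel]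
  have hz0 : Gm.z (Multiplicative.toAdd (1 : Wg p w)) = 1 := by
    rw [toAdd_one]
    exact gm_z0 Gm
  -- the values at the labels
  have hdd : ∀ a : X.Lb, ∃ d : Fin w → ZMod p, a ∈ g → φ₀ (X.t a) = Gm.z d * Gm.g a.1 := by
    intro a
    by_cases ha : a ∈ g
    · have hpr : Gm.pr (φ₀ (X.t a)) = Gm.M.e (Gm.M.y a.1) := by
        rw [h2, par_t X hp hζ hc hg (rh_tw Gm X hp hζ hc g) ha]
      obtain ⟨d, -, hd⟩ := (fib_conj Gm hpr).1 (h3 a ha)
      exact ⟨d, fun _ => hd⟩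
    · exact ⟨0, fun h => absurd h ha⟩
  choose dd hdd using hdd
  obtain ⟨ε, hε⟩ : ∃ ε : Pl K → Fin w → ZMod p, ε = fun v => if ¬ X.D.Gd v then 0 else
      if h : ∃ a ∈ g, X.un a = v then cvl X.L δ' v + dd h.choose else cvl X.L δ' v := ⟨_, rfl⟩
  have hGu : ∀ a ∈ g, X.D.Gd (X.un a) := by
    intro a ha
    refine ⟨un_not X (hg.1 a ha).1, ?_⟩
    rw [← ltb_nm X (hg.1 a ha)]
    exact (hg.1 a ha).2
  refine ⟨twz Gm δ' φ₀, ε, ?_, ?_, ?_, ?_, ?_, ?_, ?_, ?_, ?_⟩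
  · exact twz_ft Gm δ' φ₀ hδ'f h1
  · intro σ
    rw [twz_pr, h2]
  · have hT : Teq X.D.S0 X.P χ⁻¹ (1 : Gal(Ω/K) →* Wg p w) := by
      intro v hv σ hσ
      rw [MonoidHom.inv_apply, hχS' v hv σ hσ, inv_one, MonoidHom.one_apply]
    have h6 := cq_twz_teq Gm Gm.T hT (twz Gm δ φ₀)
    rw [twz_one, ← twz_mul, ← hδ'] at h6
    exact cq_trans h6 hCq
  · intro v hv τ hτ
    have hcm : Commute (Gm.z (Multiplicative.toAdd (δ' τ))) (φ₀ τ) := Gm.zcen _ _
    rw [twz_apply, hcm.mul_pow, gm_zpow, h5 v hv τ hτ, mul_one]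
  · intro v hv hn τ hτ
    have h6 : δ' τ = 1 := (lab_in hp hζ X.L wg_pow δ' hδ'f v hv).2 (hδ'v v hv hn) τ hτ
    have h7 : ∀ a ∈ g, X.un a ≠ v := by
      rintro a ha rfl
      exact hn (hGu a ha).2
    rw [twz_apply, h6, hz0, one_mul]
    exact h4 v hv h7 τ hτ
  · refine ((cvl_fin X.L hδ'f).union (g.image X.un).finite_toSet).subset fun v hv => ?_
    rw [Set.mem_setOf_eq, hε] at hv
    dsimp only at hv
    by_contra h
    rw [Set.mem_union, not_or, Set.mem_setOf_eq, not_not, Finset.mem_coe, Finset.mem_image] at h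
    apply hv
    rw [dif_neg h.2, h.1]
    split_ifs <;> rfl
  · intro v hv
    rw [hε]
    dsimp only
    rw [if_pos hv]
  · intro v hv hn
    have h6 : ¬ ∃ a ∈ g, X.un a = v := by
      rintro ⟨a, ha, h⟩
      exact hn a ha h
    rw [hε]
    dsimp only
    rw [if_neg (not_not.2 hv), dif_neg h6, twz_apply, h4 v hv.1 hn _ (adl_tin X.L v hv.1), mul_one]
    rfl
  · intro a ha
    have h6 : ∃ b ∈ g, X.un b = X.un a := ⟨a, ha, rfl⟩
    have h7 : h6.choose = a := by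
      by_contra h
      exact hg.2 _ h6.choose_spec.1 a ha h h6.choose_spec.2
    rw [hε]
    dsimp only
    rw [if_neg (not_not.2 (hGu a ha)), dif_pos h6, h7, twz_apply, hdd a ha,
      lab_t X hp hζ (hg.1 a ha) wg_pow δ' hδ'f, ← mul_assoc, ← Gm.zadd]
    rfl

end H48.MG
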