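import Pool.Agent.H48.MG.Cnt
import Pool.Agent.H48.MF.Anx
import Pool.Agent.H48.MF.Tyf
import Pool.Agent.H1.AR.Sty

/-!
# [H48 MG ADM] the existence of adapted pairs depends only on the total class, 50-80 lines. File Pool/Agent/H48/MG/Adm.lean

* `adm`: `dl_ev` for `g₀`: `Cv .. (rh X c g₀) (pr ∘ φ₁)`. `sty` (H1/AR/Sty.lean) with `rh_tw` for `g₀`, `g` gives `Cv .. (rh X c g) (rh X c g₀)` (as in the proof of `tyf`, Pool/Agent/H48/MF/Tyf.lean), `cv_trans`, `dl_ex`.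
* `wz_ev`: definition of `wz`. `frm_qt`: `F.tot g = F.tot g'` implies `qt g j = qt g' j` (`frm_tot`), `F.Ok g ↔ X.Ok g` (`frm_ok`), `F.wt c g ≠ 0` implies that all `ev (rh X c g) a`, `a ∈ g`, vanish (`anx_wt`).
-/

set_option autoImplicit false
set_option linter.dupNamespace false

open scoped NumberField
open IsDedekindDomain Filter Topology
open scoped Classical

noncomputable section

namespace H48.MG

open H63.MA H38.BB H38.BG H38.AS H57.PC H57.BRA H89.BRG H1.AR H48.MF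

variable {p u w N : ℕ} {G R Q : Type} [Group G] [Group R] [Group Q] [Finite G] [Finite R]
  [Fintype Q] (Gm : GM p u w N G R Q)
  {K : Type} [Field K] [NumberField K] {Ω : Type} [Field Ω] [Algebra K Ω] [IsAlgClosure K Ω]
  {ζ : K} (X : AD Gm.M K Ω ζ) (φ₁ : Gal(Ω/K) →* G)

theorem adm [NeZero p] (hp : p.Prime) (hp2 : MOne p K) (hζ : IsPrimitiveRoot ζ p)
    (hz : Z2 p K) (hφ₁ : H38.ML.FT φ₁) {c : Gal(Ω/K) →* R} (hc : X.IsC c)
    {g g₀ : Finset X.Lb} (hg : X.Ok g) (hg₀ : X.Ok g₀) (hq : ∀ j, X.qt g j = X.qt g₀ j)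
    (hev : ∀ a ∈ g, X.ev (rh X c g) a = 0) (h : ∃ z, Dl Gm X φ₁ c g₀ z) :
    ∃ z, Dl Gm X φ₁ c g z := by
  obtain ⟨z, hzz⟩ := h
  have h1 := (dl_ev Gm X φ₁ hp hζ hc hg₀ hzz).2
  have h2 : Cv X.D.S0 X.P Gm.M (rh X c g) (rh X c g₀) := fun v hv =>
    sty X hp hp2 hζ hc hg hg₀ hq (rh_tw Gm X hp hζ hc g) (rh_tw Gm X hp hζ hc g₀) v hv
  exact dl_ex Gm X φ₁ hp hp2 hζ hz hφ₁ hc hg hev (cv_trans Gm h2 h1)

theorem frm_ev [Fintype (Co X)] {d : ℕ} {D qq : ℝ} (hI : FI X d D qq) (c : Co X)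
    {g : Finset X.Lb} (hg : X.Ok g) (h : (frm X hI).wt c g ≠ 0) :
    ∀ a ∈ g, X.ev (rh X c.1 g) a = 0 := by
  have h1 : (frm X hI).wt c g = wz Gm X c.1 g := anx_wt Gm X hI.hp hI.hζ c hg
  rw [h1] at h
  unfold wz at h
  by_contra h2
  rw [if_neg h2] at h
  exact h rfl

end H48.MG
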