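import Pool.Agent.H48.MG.Bbk

/-!
# [H48 MG AKA] the alternating form of aligned functionals, 60-100 lines. File Pool/Agent/H48/MG/Aka.lean

* `gnr_one`: `η (1 * 1) = η 1 + η 1`. `gnr_inv`.
* `rtk_sh`: `xg_pk`: `π (pr (xg (pk q k))) = q * s * h`, `s = π (pr (xg k))`, `h ∈ H j`, `j = (pt k).1` (`pk_cl`: same class, same `f`): `rtk (pk q k) = η q + η s + η h + f j` (`hη.mul`), and `dt (η h) d = 0` (`hη.del`). `dt` of sums: `dt_ladd` (H51/MT/Unb.lean).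
* `ak_self`: `om_self`. `ak_sw`: `yk k = act s (y i)`, `yk l = act s' (y j)` with `s = π (pr (xg k))`, `s' = π (pr (xg l))` (`yv_mk`, `xg_mk`); `om (yk k) (yk l) = om (y i) (act (s⁻¹ * s') (y j))` (`om_act`), `rtk k - rtk l = f i - f j - η (s⁻¹ * s')` (`hη.mul`, `gnr_inv`), so `dt (rtk k) (om (yk k) (yk l)) = dt (rtk l) (om (yk k) (yk l))` by `hf`, and `om x y = - om y x` (`om_neg`, `dt_neg'`).
* `ak_sh`: `om (yk (pk q k)) (yk (pk q l)) = om (yk k) (yk l)` (`yk_pk`, `om_act`), it is in `Del` (`om_del`); `rtk_sh`.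
* `ak_sum`: linearity of `om`, `dt_sum'`, `dt_smul'`, `vp_apply` (`yk k = yv (ix.symm k)` by definition).
* `hbk_sk`: `hbk_single_r`, `hbk_single_l`, `ak_sw`, `ak_self`: the sum over `k > l` of `m k * Ak k l` minus the sum over `k < l` of `m k * Ak l k` is `∑ k, m k * Ak k l = - ∑ k, m k * Ak l k`.
-/

set_option autoImplicit false
set_option linter.dupNamespace false

open scoped NumberField
open IsDedekindDomain Filter Topology
open scoped Classical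

noncomputable section

namespace H48.MG

open H63.MA H38.BB H38.BG H38.AS H57.PC H57.BRA H89.BRG H1.AR H48.MF

open H51.MT

variable {p u w N : ℕ} {G R Q : Type} [Group G] [Group R] [Group Q] [Fintype Q]
  (Gm : GM p u w N G R Q) {η : Q → Fin w → ZMod p} {f : Fin N → Fin w → ZMod p}

omit [Fintype Q] in
theorem gnr_one (hη : Gnr Gm η) : η 1 = 0 := by
  have h1 := hη.mul 1 1
  rw [mul_one] at h1
  exact left_eq_add.1 h1

omit [Fintype Q] in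
theorem gnr_inv (hη : Gnr Gm η) (q : Q) : η q⁻¹ = -η q := by
  have h1 := hη.mul q⁻¹ q
  rw [inv_mul_cancel, gnr_one Gm hη] at h1
  exact eq_neg_of_add_eq_zero_left h1.symm

theorem rtk_sh (hη : Gnr Gm η) (q : Q) (k : Fin (uE Gm.M)) {d : Fin w → ZMod p}
    (hd : d ∈ Gm.Del (pt Gm k).1) :
    dt (rtk Gm η f (pk Gm q k)) d = dt (rtk Gm η f k) d + dt (η q) d := by
  obtain ⟨h, hh, e⟩ := xg_pk Gm q k
  unfold rtk
  rw [e, hη.mul, hη.mul, pk_cl, H51.MT.dt_ladd, H51.MT.dt_ladd, H51.MT.dt_ladd, H51.MT.dt_ladd,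
    hη.del _ h hh d hd]
  ring

theorem ak_self (k : Fin (uE Gm.M)) : Ak Gm η f k k = 0 := by
  unfold Ak
  rw [H51.MT.om_self, H51.MT.dt_zero']

private theorem yk_eq (k : Fin (uE Gm.M)) :
    yk Gm k = Gm.M.act (Gm.M.π (Gm.pr (xg Gm k))) (Gm.M.y (pt Gm k).1) := by
  have h1 : pt Gm k = ⟨(pt Gm k).1,
      (QuotientGroup.mk (Gm.M.π (Gm.pr (xg Gm k))) : Q ⧸ Gm.M.H (pt Gm k).1)⟩ := by
    refine Sigma.ext rfl (heq_of_eq ?_)
    exact (xg_mk Gm k).symm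
  unfold yk
  conv_lhs => rw [h1]
  exact yv_mk Gm.M _ _

theorem ak_sw (hη : Gnr Gm η) (hf : Alf Gm η f) (k l : Fin (uE Gm.M)) :
    Ak Gm η f k l = -Ak Gm η f l k := by
  obtain ⟨s, hs⟩ : ∃ s, s = Gm.M.π (Gm.pr (xg Gm k)) := ⟨_, rfl⟩
  obtain ⟨s', hs'⟩ : ∃ s', s' = Gm.M.π (Gm.pr (xg Gm l)) := ⟨_, rfl⟩
  have h1 := hf (pt Gm k).1 (pt Gm l).1 (s⁻¹ * s')
  have h2 : Gm.M.om (yk Gm k) (yk Gm l) =
      Gm.M.om (Gm.M.y (pt Gm k).1) (Gm.M.act (s⁻¹ * s') (Gm.M.y (pt Gm l).1)) := by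
    rw [yk_eq, yk_eq, ← hs, ← hs', ← H1.AR.om_act Gm.M s (Gm.M.y (pt Gm k).1), ← Gm.M.act_mul,
      mul_inv_cancel_left]
  rw [← h2] at h1
  have h3 : f (pt Gm k).1 - f (pt Gm l).1 - η (s⁻¹ * s') = rtk Gm η f k - rtk Gm η f l := by
    unfold rtk
    rw [← hs, ← hs', hη.mul, gnr_inv Gm hη]
    abel
  rw [h3, H51.MT.dt_lsub, sub_eq_zero] at h1
  unfold Ak
  rw [h1, H51.MT.om_neg, H51.MT.dt_neg']

theorem ak_sh (hη : Gnr Gm η) (q : Q) (k l : Fin (uE Gm.M)) :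
    Ak Gm η f (pk Gm q k) (pk Gm q l) =
      Ak Gm η f k l + dt (η q) (Gm.M.om (yk Gm k) (yk Gm l)) := by
  unfold Ak
  rw [yk_pk, yk_pk, H1.AR.om_act, rtk_sh Gm hη q k (om_del Gm k _)]

theorem ak_sum (m : Fin (uE Gm.M) → ZMod p) (k : Fin (uE Gm.M)) :
    ∑ l, m l * Ak Gm η f k l = dt (rtk Gm η f k) (Gm.M.om (yk Gm k) (vp Gm.M m)) := by
  rw [vp_apply, map_sum, H51.MT.dt_sum']
  refine Finset.sum_congr rfl fun l _ => ?_
  rw [map_smul, H51.MT.dt_smul']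
  rfl

theorem hbk_sk (hη : Gnr Gm η) (hf : Alf Gm η f) (m : Fin (uE Gm.M) → ZMod p)
    (l : Fin (uE Gm.M)) : hbk Gm η f m (Pi.single l 1) - hbk Gm η f (Pi.single l 1) m =
      dt (rtk Gm η f l) (Gm.M.om (vp Gm.M m) (yk Gm l)) := by
  rw [hbk_single_r, hbk_single_l, H51.MT.om_neg, H51.MT.dt_neg', ← ak_sum, ← Finset.sum_sub_distrib,
    ← Finset.sum_neg_distrib]
  refine Finset.sum_congr rfl fun k _ => ?_
  rcases lt_trichotomy l k with h | h | h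
  · rw [if_pos h, if_neg h.not_gt, ak_sw Gm hη hf k l]
    ring
  · subst h
    rw [if_neg (lt_irrefl _), ak_self]
    ring
  · rw [if_neg h.not_gt, if_pos h]
    ring

end H48.MG
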