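import Pool.Agent.H48.MG.Xbv
import Pool.Agent.H48.MF.Gav
import Pool.Agent.H48.MF.Lst

/-!
# [H48 MG PHE] the phase does not depend on the choice of the lift, 90-140 lines. File Pool/Agent/H48/MG/Phe.lean

* `pp_add`, `pp_sub`: bilinearity (used below): put private lemmas.
* `phz_eq`: let `z' = (φ', δ')` be the chosen pair in `phz` (`dif_pos`) and `z = (φ₀, δ)`. `φ'` and `φ₀` are lifts of `rh X c g` of finite type, so `φ' = twz χ φ₀` with `χ` of finite type (`twz_ex`). For `v ∉ S0` not under `g`: both are `1` on `inr X.L v`, so `χ = 1` there (`zinj`), `cvl χ v = 0` (`X.L.t v ∈ inr`). For `a ∈ g`: `φ₀ (X.t a) = z d * g a.1` with `d ∈ Del` (`fib_conj`; `pr φ₀ (X.t a) = rh X c g (X.t a) = e (y a.1)`: `par_t`, see Lst.lean), `φ' (X.t a) = z (χ (X.t a)) z d g a.1` is conjugate to `g a.1`, so `toAdd χ (X.t a) + d ∈ Del`, `toAdd χ (X.t a) ∈ Del` (`del_add`, `del_neg`), and `χ (X.t a) = χ (X.L.t (un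 a))` (`lab_t`, H48/MF; see Lst.lean).
  So `pp κ (tx (cvl χ)) = ∑_{a ∈ g} pp κ (tn (q (un a)) (cvl χ (un a))) = 0` by `Kc` (a finite sum over `g`: `un` injective on `g`; terms with `v ∈ S0` have `q v = 0`).
  `twz δ' φ' = twz (δ' χ) φ₀ = twz (δ' χ δ⁻¹) (twz δ φ₀)` is conjugate to `twz (δ' χ δ⁻¹) φ₁` and to `φ₁`: `δ' χ δ⁻¹ ∈ XB`, so `pp κ (tx (cvl (δ' χ δ⁻¹))) = 0` (`κ ∈ TP`). Hence `pp κ (tx (cvl δ')) = pp κ (tx (cvl δ))` (`cvl_mul`, `cvl_inv`, `tx_add`, `cvl_fin`).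
* `phz_le`: `‖ep‖ = 1` (as in Fta.lean) or `0`.
-/

set_option autoImplicit false
set_option linter.dupNamespace false
set_option linter.unusedSectionVars false

open scoped NumberField
open IsDedekindDomain Filter Topology
open scoped Classical

noncomputable section

namespace H48.MG

open H63.MA H38.BB H38.BG H38.AS H57.PC H57.BRA H89.BRG H1.AR H48.MF

variable {p u w N : ℕ} {G R Q : Type} [Group G] [Group R] [Group Q] [Finite G] [Finite R]
  [Fintype Q] (Gm : GM p u w N G R Q)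
  {K : Type} [Field K] [NumberField K] {Ω : Type} [Field Ω] [Algebra K Ω] [IsAlgClosure K Ω]
  {ζ : K} (X : AD Gm.M K Ω ζ) (φ₁ : Gal(Ω/K) →* G)

private theorem pp_add {r w p : ℕ} (κ x y : Fin r → Fin w → ZMod p) :
    pp κ (x + y) = pp κ x + pp κ y := by
  unfold pp
  rw [← Finset.sum_add_distrib]
  refine Finset.sum_congr rfl fun i _ => ?_
  rw [← Finset.sum_add_distrib]
  exact Finset.sum_congr rfl fun k _ => mul_add _ _ _

private theorem pp_zero {r w p : ℕ} (κ : Fin r → Fin w → ZMod p) : pp κ 0 = 0 := by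
  have h := pp_add κ 0 0
  rw [add_zero] at h
  exact left_eq_add.1 h

private theorem pp_sub {r w p : ℕ} (κ x y : Fin r → Fin w → ZMod p) :
    pp κ (x - y) = pp κ x - pp κ y := by
  have h := pp_add κ (x - y) y
  rw [sub_add_cancel] at h
  rw [h, add_sub_cancel_right]

private theorem pp_sum {r w p : ℕ} {ι : Type} (κ : Fin r → Fin w → ZMod p) (s : Finset ι)
    (f : ι → Fin r → Fin w → ZMod p) : pp κ (∑ a ∈ s, f a) = ∑ a ∈ s, pp κ (f a) := by
  induction s using Finset.induction_on with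
  | empty => rw [Finset.sum_empty, Finset.sum_empty, pp_zero]
  | insert a s ha ih => rw [Finset.sum_insert ha, Finset.sum_insert ha, pp_add, ih]

/-- the difference of two lifts with the same labels -/
private theorem phe_dif [NeZero p] (hp : p.Prime) (hζ : IsPrimitiveRoot ζ p)
    {c : Gal(Ω/K) →* R} (hc : X.IsC c) {g : Finset X.Lb} (hg : X.Ok g)
    {φ : Gal(Ω/K) →* G} {χ : Gal(Ω/K) →* Wg p w} (hχ : H38.ML.FT χ)
    (h : φ ∈ LS Gm X (rh X c g) g) (h' : twz Gm χ φ ∈ LS Gm X (rh X c g) g) :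
    (∀ v, v ∉ X.D.S0 → (∀ a ∈ g, X.un a ≠ v) → cvl X.L χ v = 0) ∧
      ∀ a ∈ g, cvl X.L χ (X.un a) ∈ Gm.Del a.1 := by
  constructor
  · intro v hv hv'
    have h1 : ∀ τ ∈ inr X.L v, χ τ = 1 := by
      intro τ hτ
      have h2 := h'.2.2.2.1 v hv hv' τ hτ
      rw [twz_apply, h.2.2.2.1 v hv hv' τ hτ, mul_one, ← gm_z0 Gm] at h2
      exact Multiplicative.toAdd.injective (Gm.zinj h2)
    have h3 := (lab_in hp hζ X.L wg_pow χ hχ v hv).1 h1
    unfold cvl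
    rw [h3, toAdd_one]
  · intro a ha
    have hpr : Gm.pr (φ (X.t a)) = Gm.M.e (Gm.M.y a.1) := by
      rw [h.2.1, par_t X hp hζ hc hg (rh_tw Gm X hp hζ hc g) ha]
    have hpr' : Gm.pr (twz Gm χ φ (X.t a)) = Gm.M.e (Gm.M.y a.1) := by
      rw [twz_pr, hpr]
    obtain ⟨d, hd, hd'⟩ := (fib_conj Gm hpr).1 (h.2.2.1 a ha)
    obtain ⟨e, he, he'⟩ := (fib_conj Gm hpr').1 (h'.2.2.1 a ha)
    rw [twz_apply, hd', ← mul_assoc, ← Gm.zadd] at he'
    have h1 := Gm.zinj (mul_right_cancel he')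
    unfold cvl
    rw [← lab_t X hp hζ (hg.1 a ha) wg_pow χ hχ]
    have h2 : Multiplicative.toAdd (χ (X.t a)) = e + -d := by
      rw [← h1, add_neg_cancel_right]
    rw [h2]
    exact del_add Gm _ he (del_neg Gm _ hd)

theorem phz_eq [NeZero p] (hp : p.Prime) (hζ : IsPrimitiveRoot ζ p) (D' : RM K p ζ)
    (hS : D'.S = X.D.S0) {κ : Fin D'.r → Fin w → ZMod p} (hκ : κ ∈ TP Gm X D' φ₁)
    {c : Gal(Ω/K) →* R} (hc : X.IsC c) {g : Finset X.Lb} (hg : X.Ok g)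
    (hk : Kc Gm X D' κ g) {z : (Gal(Ω/K) →* G) × (Gal(Ω/K) →* Wg p w)}
    (hz : Dl Gm X φ₁ c g z) :
    phz Gm X D' φ₁ κ c g = ep p (-(pp κ (tx D'.q (cvl X.L z.2)))) := by
  have hex : κ ∈ TP Gm X D' φ₁ ∧ Kc Gm X D' κ g ∧ ∃ z, Dl Gm X φ₁ c g z := ⟨hκ, hk, z, hz⟩
  unfold phz
  rw [dif_pos hex]
  have hz' := hex.2.2.choose_spec
  generalize hex.2.2.choose = z' at hz'
  obtain ⟨φ₀, δ⟩ := z
  obtain ⟨φ', δ'⟩ := z'
  obtain ⟨h1, h2, h3⟩ := hz
  obtain ⟨h1', h2', h3'⟩ := hz'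
  dsimp only at h1 h2 h3 h1' h2' h3' ⊢
  obtain ⟨χ, hχ, rfl⟩ := twz_ex Gm φ' φ₀ h1'.1 h1.1 fun σ => by rw [h1'.2.1, h1.2.1]
  obtain ⟨h4, h5⟩ := phe_dif Gm X hp hζ hc hg hχ h1 h1'
  -- the total class of the difference
  have h6 : tx D'.q (cvl X.L χ) = ∑ a ∈ g, tn (D'.q (X.un a)) (cvl X.L χ (X.un a)) := by
    funext i k
    rw [Finset.sum_apply, Finset.sum_apply]
    change ∑ᶠ v, D'.q v i * cvl X.L χ v k = ∑ a ∈ g, D'.q (X.un a) i * cvl X.L χ (X.un a) k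
    rw [finsum_eq_sum_of_support_subset (s := g.image X.un) _ (fun v hv => ?_),
      Finset.sum_image (fun a ha b hb hab => by
        by_contra hne
        exact hg.2 a ha b hb hne hab)]
    rw [Function.mem_support] at hv
    rw [Finset.mem_coe, Finset.mem_image]
    by_contra hcon
    apply hv
    by_cases hvS : v ∈ X.D.S0
    · rw [D'.q_zero v (by rw [hS]; exact hvS), Pi.zero_apply, zero_mul]
    · rw [h4 v hvS (fun a ha hav => hcon ⟨a, ha, hav⟩), Pi.zero_apply, mul_zero]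
  have h7 : pp κ (tx D'.q (cvl X.L χ)) = 0 := by
    rw [h6, pp_sum]
    exact Finset.sum_eq_zero fun a ha => hk a ha _ (h5 a ha)
  -- the quotient of the corrections
  have h8 : δ' * χ * δ⁻¹ ∈ XB Gm X φ₁ := by
    refine ⟨chb_ft_mul (chb_ft_mul h2' hχ) (chb_ft_inv h2), ?_⟩
    have h9 : twz Gm (δ' * χ * δ⁻¹) (twz Gm δ φ₀) = twz Gm δ' (twz Gm χ φ₀) := by
      rw [← twz_mul, ← twz_mul, inv_mul_cancel_right]
    have h10 := cq_twz Gm Gm.T h3 (δ' * χ * δ⁻¹)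
    rw [h9] at h10
    exact cq_trans (cq_symm h10) h3'
  have h11 : pp κ (tx D'.q (cvl X.L (δ' * χ * δ⁻¹))) = 0 := hκ _ ⟨_, h8, rfl⟩
  have h12 : cvl X.L (δ' * χ * δ⁻¹) = fun v => cvl X.L (δ' * χ) v - cvl X.L δ v := by
    funext v
    rw [cvl_mul, cvl_inv, sub_eq_add_neg]
  have h13 : cvl X.L (δ' * χ) = fun v => cvl X.L δ' v + cvl X.L χ v := by
    funext v
    rw [cvl_mul]
  rw [h12, tx_sub D'.q _ _ (cvl_fin X.L (chb_ft_mul h2' hχ)) (cvl_fin X.L h2), pp_sub, h13,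
    tx_add D'.q _ _ (cvl_fin X.L h2') (cvl_fin X.L hχ), pp_add, h7, add_zero] at h11
  rw [sub_eq_zero.1 h11]

theorem phz_le [NeZero p] (D' : RM K p ζ) (κ : Fin D'.r → Fin w → ZMod p)
    (c : Gal(Ω/K) →* R) (g : Finset X.Lb) : ‖phz Gm X D' φ₁ κ c g‖ ≤ 1 := by
  unfold phz
  split_ifs
  · exact (ep_norm p _).le
  · rw [norm_zero]
    exact zero_le_one

end H48.MG
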