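import Pool.Agent.H48.MG.Cnt
import Pool.Agent.H48.MG.Phe

/-!
# [H48 MG AOE] the phase in terms of an adapted lift, 90-140 lines. File Pool/Agent/H48/MG/Aoe.lean

* `aoe0`: `z = (φ₀, δ)`. `φ` and `φ₀` lift `rh X c g`, so `φ = twz χ φ₀`, `χ` of finite type (`twz_ex`). Good `v` not under `g`: `φ₀ (t v) = 1`, `φ (t v) = z (ε v)`, so `cvl χ v = ε v` (`zinj`). `v ∉ S0` not of prime norm: both are `1` on `inr`, `cvl χ v = 0 = ε v`. `a ∈ g`, `v = un a`: `φ₀ (X.t a) = z d * g a.1` with `d ∈ Del a.1` (`fib_conj`, `par_t`), `φ (X.t a) = z (ε v) * g a.1`, so `cvl χ v + d = ε v` (`lab_t`). So `tx ε = tx (cvl χ) + ∑_{a ∈ g} tn (q (un a)) (d a)` (on `S0` `q = 0`) and `pp κ` of the last sum is `0` (`Kc`). `χ δ⁻¹ ∈ XB`: `twz χ φ₀ = twz (χ δ⁻¹) (twz δ φ₀) ~ twz (χ δ⁻¹) φ₁`, and it is `~ φ₁` (`AL.cq`); so `pp κ (tx (cvl χ)) = pp κ (tx (cvl δ))`.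
* `aoe1`: `Oe X η ε = ∑ᶠ v, dt (η (φQ (F v))) (ε v)`; for good `v` the value of `η` is `∑ i, κ i k * q v i`, for the others `ε v = 0`: `= ∑ i k, κ i k * ∑ᶠ v, q v i * ε v k = pp κ (tx ε)` (finite support).
* `aoe`: `Gnk` for all `j` gives `Kc` (labels of `g` are good); `phz_eq`.
-/

set_option autoImplicit false
set_option linter.dupNamespace false

open scoped NumberField
open IsDedekindDomain Filter Topology
open scoped Classical

noncomputable section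

namespace H48.MG

open H63.MA H38.BB H38.BG H38.AS H57.PC H57.BRA H89.BRG H1.AR H48.MF

variable {p u w N : ℕ} {G R Q : Type} [Group G] [Group R] [Group Q] [Finite G] [Finite R]
  [Fintype Q] (Gm : GM p u w N G R Q)
  {K : Type} [Field K] [NumberField K] {Ω : Type} [Field Ω] [Algebra K Ω] [IsAlgClosure K Ω]
  {ζ : K} (X : AD Gm.M K Ω ζ) (φ₁ : Gal(Ω/K) →* G)

private theorem aoe_add {r w p : ℕ} (κ x y : Fin r → Fin w → ZMod p) :
    pp κ (x + y) = pp κ x + pp κ y := by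
  unfold pp
  rw [← Finset.sum_add_distrib]
  refine Finset.sum_congr rfl fun i _ => ?_
  rw [← Finset.sum_add_distrib]
  exact Finset.sum_congr rfl fun k _ => mul_add _ _ _

private theorem aoe_sub {r w p : ℕ} (κ x y : Fin r → Fin w → ZMod p) :
    pp κ (x - y) = pp κ x - pp κ y := by
  have h := aoe_add κ (x - y) y
  rw [sub_add_cancel] at h
  rw [h, add_sub_cancel_right]

private theorem aoe_sum {r w p : ℕ} {ι : Type} (κ : Fin r → Fin w → ZMod p) (s : Finset ι)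
    (f : ι → Fin r → Fin w → ZMod p) : pp κ (∑ a ∈ s, f a) = ∑ a ∈ s, pp κ (f a) := by
  induction s using Finset.induction_on with
  | empty =>
    rw [Finset.sum_empty, Finset.sum_empty]
    have h := aoe_add κ 0 0
    rw [add_zero] at h
    exact left_eq_add.1 h
  | insert a s ha ih => rw [Finset.sum_insert ha, Finset.sum_insert ha, aoe_add, ih]

private theorem aoe_t {D : RD0 K p ζ} (L : LDs D Ω) (v : Pl K) (hv : v ∉ D.S0) :
    L.t v ∈ inr L v := by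
  unfold LDs.t inr
  rw [dif_pos hv, dif_pos hv]
  exact (L.ld v hv).ht

/-- the total class of a family which vanishes outside `S0` and the places under `g` -/
private theorem aoe_tx (D' : RM K p ζ) (hS : D'.S = X.D.S0) {g : Finset X.Lb} (hg : X.Ok g)
    (x : Pl K → Fin w → ZMod p)
    (hx : ∀ v, v ∉ X.D.S0 → (∀ a ∈ g, X.un a ≠ v) → x v = 0) :
    tx D'.q x = ∑ a ∈ g, tn (D'.q (X.un a)) (x (X.un a)) := by
  funext i k
  rw [Finset.sum_apply, Finset.sum_apply]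
  change ∑ᶠ v, D'.q v i * x v k = ∑ a ∈ g, D'.q (X.un a) i * x (X.un a) k
  rw [finsum_eq_sum_of_support_subset (s := g.image X.un) _ (fun v hv => ?_),
    Finset.sum_image (fun a ha b hb hab => by
      by_contra hne
      exact hg.2 a ha b hb hne hab)]
  rw [Function.mem_support] at hv
  rw [Finset.mem_coe, Finset.mem_image]
  by_contra hcon
  apply hv
  by_cases hvS : v ∈ X.D.S0
  · rw [D'.q_zero v (by rw [hS]; exact hvS), Pi.zero_apply, zero_mul]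
  · rw [hx v hvS (fun a ha hav => hcon ⟨a, ha, hav⟩), Pi.zero_apply, mul_zero]

theorem aoe0 [NeZero p] (hp : p.Prime) (hζ : IsPrimitiveRoot ζ p) (D' : RM K p ζ)
    (hS : D'.S = X.D.S0) {κ : Fin D'.r → Fin w → ZMod p} (hκ : κ ∈ TP Gm X D' φ₁)
    {c : Gal(Ω/K) →* R} (hc : X.IsC c) {g : Finset X.Lb} (hg : X.Ok g)
    (hk : Kc Gm X D' κ g) {z : (Gal(Ω/K) →* G) × (Gal(Ω/K) →* Wg p w)}
    (hz : Dl Gm X φ₁ c g z) {φ : Gal(Ω/K) →* G} {ε : Pl K → Fin w → ZMod p}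
    (hA : AL Gm X φ₁ c g φ ε) : pp κ (tx D'.q ε) = pp κ (tx D'.q (cvl X.L z.2)) := by
  obtain ⟨φ₀, δ⟩ := z
  obtain ⟨h1, h2, h3⟩ := hz
  dsimp only at h1 h2 h3 ⊢
  obtain ⟨χ, hχ, rfl⟩ := twz_ex Gm φ φ₀ hA.ft h1.1 fun σ => by rw [hA.pr, h1.2.1]
  have hy := cvl_fin X.L hχ
  -- outside the places under `g`
  have h4 : ∀ v, v ∉ X.D.S0 → (∀ a ∈ g, X.un a ≠ v) → ε v - cvl X.L χ v = 0 := by
    intro v hv hv'
    have ht := aoe_t X.L v hv
    have h5 : φ₀ (X.L.t v) = 1 := h1.2.2.2.1 v hv hv' _ ht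
    by_cases hGd : X.D.Gd v
    · have h6 := hA.e1 v hGd hv'
      rw [twz_apply, h5, mul_one] at h6
      have h7 := Gm.zinj h6
      unfold cvl
      rw [h7, sub_self]
    · have hnp : ¬ (nm v).Prime := fun h => hGd ⟨hv, h⟩
      have h6 := hA.un v hv hnp _ ht
      rw [twz_apply, h5, mul_one, ← gm_z0 Gm] at h6
      have h7 := Gm.zinj h6
      unfold cvl
      rw [h7, hA.e0 v hGd, sub_self]
  have h5 : ∀ a ∈ g, ε (X.un a) - cvl X.L χ (X.un a) ∈ Gm.Del a.1 := by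
    intro a ha
    have hpr : Gm.pr (φ₀ (X.t a)) = Gm.M.e (Gm.M.y a.1) := by
      rw [h1.2.1, par_t X hp hζ hc hg (rh_tw Gm X hp hζ hc g) ha]
    obtain ⟨d, hd, hd'⟩ := (fib_conj Gm hpr).1 (h1.2.2.1 a ha)
    have h6 := hA.e2 a ha
    rw [twz_apply, hd', ← mul_assoc, ← Gm.zadd] at h6
    have h7 := Gm.zinj (mul_right_cancel h6)
    unfold cvl
    rw [← lab_t X hp hζ (hg.1 a ha) wg_pow χ hχ, ← h7, add_sub_cancel_left]
    exact hd
  have h6 : pp κ (tx D'.q fun v => ε v - cvl X.L χ v) = 0 := by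
    rw [aoe_tx Gm X D' hS hg _ h4, aoe_sum]
    exact Finset.sum_eq_zero fun a ha => hk a ha _ (h5 a ha)
  rw [tx_sub D'.q _ _ hA.fi hy, aoe_sub, sub_eq_zero] at h6
  rw [h6]
  -- the correction at `S0`
  have h8 : χ * δ⁻¹ ∈ XB Gm X φ₁ := by
    refine ⟨chb_ft_mul hχ (chb_ft_inv h2), ?_⟩
    have h9 : twz Gm (χ * δ⁻¹) (twz Gm δ φ₀) = twz Gm χ φ₀ := by
      rw [← twz_mul, inv_mul_cancel_right]
    have h10 := cq_twz Gm Gm.T h3 (χ * δ⁻¹)
    rw [h9] at h10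
    exact cq_trans (cq_symm h10) hA.cq
  have h11 : pp κ (tx D'.q (cvl X.L (χ * δ⁻¹))) = 0 := hκ _ ⟨_, h8, rfl⟩
  have h12 : cvl X.L (χ * δ⁻¹) = fun v => cvl X.L χ v - cvl X.L δ v := by
    funext v
    rw [cvl_mul, cvl_inv, sub_eq_add_neg]
  rw [h12, tx_sub D'.q _ _ hy (cvl_fin X.L h2), aoe_sub] at h11
  exact sub_eq_zero.1 h11

omit [Finite G] [Finite R] [IsAlgClosure K Ω] in
theorem aoe1 (D' : RM K p ζ) {κ : Fin D'.r → Fin w → ZMod p} {η : Q → Fin w → ZMod p}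
    (hη : ∀ v, X.D.Gd v → ∀ k, η (X.φQ (X.Fr.F v)) k = ∑ i, κ i k * D'.q v i)
    {ε : Pl K → Fin w → ZMod p} (hf : {v | ε v ≠ 0}.Finite) (h0 : ∀ v, ¬ X.D.Gd v → ε v = 0) :
    Oe X η ε = pp κ (tx D'.q ε) := by
  obtain ⟨T, hT⟩ : ∃ T : Finset (Pl K), ∀ v, v ∈ T ↔ ε v ≠ 0 :=
    ⟨hf.toFinset, fun v => hf.mem_toFinset⟩
  have h1 : Oe X η ε = ∑ v ∈ T, ∑ k, (∑ i, κ i k * D'.q v i) * ε v k := by
    unfold Oe
    rw [finsum_eq_sum_of_support_subset (s := T) _ (fun v hv => ?_)]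
    · refine Finset.sum_congr rfl fun v hv => ?_
      have hGd : X.D.Gd v := by
        by_contra h
        exact (hT v).1 hv (h0 v h)
      unfold dt
      exact Finset.sum_congr rfl fun k _ => by rw [hη v hGd k]
    · rw [Function.mem_support] at hv
      rw [Finset.mem_coe, hT]
      intro h
      apply hv
      rw [h]
      unfold dt
      exact Finset.sum_eq_zero fun k _ => by rw [Pi.zero_apply, mul_zero]
  have h2 : ∀ i k, tx D'.q ε i k = ∑ v ∈ T, D'.q v i * ε v k := by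
    intro i k
    change ∑ᶠ v, D'.q v i * ε v k = _
    rw [finsum_eq_sum_of_support_subset (s := T) _ (fun v hv => ?_)]
    rw [Function.mem_support] at hv
    rw [Finset.mem_coe, hT]
    intro h
    apply hv
    rw [h, Pi.zero_apply, mul_zero]
  rw [h1]
  unfold pp
  simp only [h2, Finset.mul_sum, Finset.sum_mul]
  rw [Finset.sum_comm]
  have h3 : ∀ k, ∑ v ∈ T, ∑ i, κ i k * D'.q v i * ε v k =
      ∑ i, ∑ v ∈ T, κ i k * (D'.q v i * ε v k) := by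
    intro k
    rw [Finset.sum_comm]
    exact Finset.sum_congr rfl fun i _ => Finset.sum_congr rfl fun v _ => mul_assoc _ _ _
  rw [Finset.sum_congr rfl fun k _ => h3 k, Finset.sum_comm]

theorem aoe [NeZero p] (hp : p.Prime) (hζ : IsPrimitiveRoot ζ p) (D' : RM K p ζ)
    (hS : D'.S = X.D.S0) {κ : Fin D'.r → Fin w → ZMod p} (hκ : κ ∈ TP Gm X D' φ₁)
    (hG : ∀ j, Gnk Gm X D' κ j) {η : Q → Fin w → ZMod p}
    (hη : ∀ v, X.D.Gd v → ∀ k, η (X.φQ (X.Fr.F v)) k = ∑ i, κ i k * D'.q v i)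
    {c : Gal(Ω/K) →* R} (hc : X.IsC c) {g : Finset X.Lb} (hg : X.Ok g)
    {z : (Gal(Ω/K) →* G) × (Gal(Ω/K) →* Wg p w)}
    (hz : Dl Gm X φ₁ c g z) {φ : Gal(Ω/K) →* G} {ε : Pl K → Fin w → ZMod p}
    (hA : AL Gm X φ₁ c g φ ε) : phz Gm X D' φ₁ κ c g = ep p (-(Oe X η ε)) := by
  have hk : Kc Gm X D' κ g := by
    rintro ⟨j, y⟩ ha d hd
    exact hG j y (hg.1 _ ha) d hd
  rw [phz_eq Gm X φ₁ hp hζ D' hS hκ hc hg hk hz, aoe1 Gm X D' hη hA.fi hA.e0,
    aoe0 Gm X φ₁ hp hζ D' hS hκ hc hg hk hz hA]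

end H48.MG
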