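import Pool.Agent.H48.MG.Omg

/-!
# [H48 MG OMS] the cochains of conjugate lifts, 80-120 lines. File Pool/Agent/H48/MG/Oms.lean

`m' σ = m σ + μ - σ μ`, `φ' σ = N(μ) φ σ N(μ)⁻¹` on `U` (write `σ μ` for `pe (q σ) μ`, `bb`, `hb`, `θ`, `θ^` for `bbk`, `hbk`, `thk`, `tht`).
* `fz_s`: `N(μ) N(m) s(c) N(μ)⁻¹`, `N(μ)⁻¹ = z (bb(μ,μ)) N(-μ)` (`nn_inv`), `s(c) N(-μ) = z (θ_c(-μ)) N(-σμ) s(c)`, so the product is `z (bb(μ,μ) + θ_c(-μ) + bb(μ,m) + bb(μ+m,-σμ)) N(μ+m-σμ) s(c)`; `θ_c(-μ) = -θ_c(μ) + bb(σμ,σμ) - bb(μ,μ)` (`th_neg`); `fz_uni`.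
* `oms`: let `a = m σ`, `b = m τ`, `l σ = hb(μ,a) - θ^_{cσ}(μ) + hb(σμ,σμ) - hb(μ+a,σμ)` (`lsk`). Left side (`h.mc`, `tht_mul` for `c (σ τ) = c σ * c τ`, linearity): `l(στ) - lσ - lτ = hb(μ,σb) - hb(μ,b) - θ^_{cσ}(τμ) + θ^_{cσ}(μ) - ησ θ_{cτ}(μ) + hb(στμ,στμ) - hb(σμ,σμ) - hb(τμ,τμ) - hb(μ+a+σb,στμ) + hb(μ+a,σμ) + hb(μ+b,τμ)`.
  Right side: `Om' - Om = ησ(-θ_{cτ}(μ) + bb(τμ,τμ) + bb(μ,b) - bb(μ+b,τμ)) + [θ^_{cσ}(b+μ-τμ) - θ^_{cσ}(b)] + hb(a+μ-σμ, σb+σμ-στμ) - hb(a,σb)` (`fz_s`), and by `tht_pol`, `tht_neg` with `P(x,y) = hb(σx,σy) - hb(x,y) - ησ bb(x,y)`: `θ^(b+μ-τμ) - θ^(b) = θ^(μ) + P(μ,b) - θ^(τμ) + P(τμ,τμ) - P(b+μ,τμ)` (use `b + μ = μ + b` for the first). Expand everything with `hbk_add_l` .. `hbk_neg_r`, `bbk_..`, `dt_add'`, `dt_sub'`, `map_add`, `map_sub`, `pe_mul`, then `ring` (both sides are equal: checked on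 paper).
-/

set_option autoImplicit false
set_option linter.dupNamespace false

open scoped NumberField
open IsDedekindDomain Filter Topology
open scoped Classical

noncomputable section

namespace H48.MG

open H63.MA H38.BB H38.BG H38.AS H57.PC H57.BRA H89.BRG H1.AR H48.MF

open H51.MT

variable {p u w N : ℕ} {G R Q : Type} [Group G] [Group R] [Group Q] [Fintype Q]
  (Gm : GM p u w N G R Q) {η : Q → Fin w → ZMod p} {f : Fin N → Fin w → ZMod p}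
  {Γ : Type} [Group Γ] {q : Γ →* Q} {c : Γ →* R} {m m' : Γ → Fin (uE Gm.M) → ZMod p}
  {φ φ' : Γ →* G}

theorem fz_s (hp : p.Prime) (h : Nd Gm q c m φ) {σ : Γ} {μ : Fin (uE Gm.M) → ZMod p}
    (hm : m' σ = m σ + μ - pe Gm.M (q σ) μ) (hφ : φ' σ = NN Gm μ * φ σ * (NN Gm μ)⁻¹) :
    fz Gm c m' φ' σ = fz Gm c m φ σ - thk Gm (c σ) μ +
      bbk Gm (pe Gm.M (q σ) μ) (pe Gm.M (q σ) μ) + bbk Gm μ (m σ) -
      bbk Gm (μ + m σ) (pe Gm.M (q σ) μ) := by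
  refine fz_uni Gm ?_
  have z1 := Gm.zcen
  have e1 := fz_spec Gm hp h σ
  have e2 := nn_inv Gm hp μ
  have e3 := th_conj Gm hp (Gm.sec (c σ)) (-μ)
  rw [Gm.sec_pr, h.pi, map_neg] at e3
  have e4 : Gm.sec (c σ) * NN Gm (-μ) =
      Gm.z (thk Gm (c σ) (-μ)) * NN Gm (-pe Gm.M (q σ) μ) * Gm.sec (c σ) := by
    rw [← e3]
    group
  have e5 := nn_mul Gm hp μ (m σ)
  have e6 := nn_mul Gm hp (μ + m σ) (-pe Gm.M (q σ) μ)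
  have e7 := th_neg Gm hp (c σ) μ
  rw [h.pi] at e7
  have e8 : μ + m σ + -pe Gm.M (q σ) μ = m' σ := by
    rw [hm]
    abel
  rw [e8, bbk_neg_r] at e6
  have e9 : fz Gm c m φ σ - thk Gm (c σ) μ + bbk Gm (pe Gm.M (q σ) μ) (pe Gm.M (q σ) μ) +
      bbk Gm μ (m σ) - bbk Gm (μ + m σ) (pe Gm.M (q σ) μ) =
      fz Gm c m φ σ + bbk Gm μ μ + thk Gm (c σ) (-μ) + bbk Gm μ (m σ) +
        -bbk Gm (μ + m σ) (pe Gm.M (q σ) μ) := by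
    rw [e7]
    abel
  rw [e9, Gm.zadd, Gm.zadd, Gm.zadd, Gm.zadd, hφ]
  set Nμ := NN Gm μ
  set Nσ := NN Gm (m σ)
  set s := Gm.sec (c σ)
  set zf := Gm.z (fz Gm c m φ σ)
  set zb := Gm.z (bbk Gm μ μ)
  set zt := Gm.z (thk Gm (c σ) (-μ))
  calc Nμ * φ σ * Nμ⁻¹ = Nμ * (zf * (Nσ * s)) * (zb * NN Gm (-μ)) := by rw [← e1, ← e2]
    _ = zf * zb * (Nμ * Nσ * (s * NN Gm (-μ))) := by
      have h1 : Nμ * (zf * (Nσ * s)) = zf * (Nμ * (Nσ * s)) := by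
        rw [← mul_assoc, ← z1, mul_assoc]
      have h2 : Nμ * (Nσ * s) * (zb * NN Gm (-μ)) = zb * (Nμ * (Nσ * s) * NN Gm (-μ)) := by
        rw [← mul_assoc, ← z1, mul_assoc]
      rw [h1, mul_assoc, h2]
      group
    _ = zf * zb * zt * (Nμ * Nσ * NN Gm (-pe Gm.M (q σ) μ) * s) := by
      rw [e4]
      have h1 : Nμ * Nσ * (zt * NN Gm (-pe Gm.M (q σ) μ) * s) =
          zt * (Nμ * Nσ * NN Gm (-pe Gm.M (q σ) μ) * s) := by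
        have hz : zt * (Nμ * Nσ) = Nμ * Nσ * zt := z1 _ _
        calc Nμ * Nσ * (zt * NN Gm (-pe Gm.M (q σ) μ) * s) =
            (Nμ * Nσ * zt) * NN Gm (-pe Gm.M (q σ) μ) * s := by group
          _ = zt * (Nμ * Nσ) * NN Gm (-pe Gm.M (q σ) μ) * s := by rw [← hz]
          _ = _ := by group
      rw [h1]
      group
    _ = zf * zb * zt * (Gm.z (bbk Gm μ (m σ)) * Gm.z (-bbk Gm (μ + m σ) (pe Gm.M (q σ) μ)) *
        (NN Gm (m' σ) * s)) := by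
      rw [e5, mul_assoc (Gm.z (bbk Gm μ (m σ))), e6]
      group
    _ = _ := by group

theorem oms (hp : p.Prime) (hη : Gnr Gm η) (hf : Alf Gm η f) (h : Nd Gm q c m φ)
    {μ : Fin (uE Gm.M) → ZMod p} {σ τ : Γ} (hσ : m' σ = m σ + μ - pe Gm.M (q σ) μ)
    (hτ : m' τ = m τ + μ - pe Gm.M (q τ) μ) (hφ : φ' τ = NN Gm μ * φ τ * (NN Gm μ)⁻¹) :
    lsk Gm η f q c m μ (σ * τ) = lsk Gm η f q c m μ σ + lsk Gm η f q c m μ τ +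
      (Om Gm η f q c m' φ' σ τ - Om Gm η f q c m φ σ τ) := by
  have e1 := fz_s Gm hp h hτ hφ
  unfold Om lsk
  rw [e1, hσ, hτ, h.mc, map_mul c, map_mul q, tht_mul Gm hp hη hf (c σ) (c τ) μ, h.pi, h.pi, pe_mul]
  have e2 : m τ + μ - pe Gm.M (q τ) μ = (m τ + μ) + -pe Gm.M (q τ) μ := sub_eq_add_neg _ _
  have e3 : m τ + μ = μ + m τ := add_comm _ _
  have p1 := tht_pol Gm hη hf (c σ) (μ + m τ) (-pe Gm.M (q τ) μ)
  have p2 := tht_pol Gm hη hf (c σ) μ (m τ)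
  have p3 := tht_neg Gm hη hf (c σ) (pe Gm.M (q τ) μ)
  rw [h.pi] at p1 p2 p3
  rw [e2, e3, p1, p2, p3]
  simp only [map_add, map_neg, sub_eq_add_neg, hbk_add_l, hbk_add_r, hbk_neg_l, hbk_neg_r,
    bbk_add_l, bbk_neg_r, dt_add', dt_neg']
  ring

end H48.MG
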