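import Pool.Agent.H48.MG.Oml
import Pool.Agent.H48.MG.Oms
import Pool.Agent.H48.MG.Aoe
import Pool.Agent.H51.MT.Lfs
import Pool.Agent.H51.MT.Brg
import Pool.Agent.H1.AR.Sty

/-!
# [H48 MG ALX] aligned phases depend only on the total class, 130-200 lines. File Pool/Agent/H48/MG/Alx.lean

(1) `alx0`: two adapted lifts of the same `(c, g)` have the same phase: `aoe1`, `aoe0` for a pair `z` with `Dl` (exists by `dl_ex`, Cnt.lean: `al_ev`, and `Cv` from `cq_cv` of `hA.cq` with `pr ∘ φ = rh X c g`; `Kc` from `Gnk`: the labels of `g` are good).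
(2) `alx1`: `φ`, `φ''` adapted lifts for `(c, g)`, `(c, g'')` with for every `v ∈ S0` a `μ` such that `mg g'' σ = mg g σ + μ - pe (φQ σ) μ`, `φ'' σ = NN μ * φ σ * (NN μ)⁻¹` for `σ ∈ dec (P v)`. Then the phases are equal. `E σ τ = Om_{g''} σ τ - Om_g σ τ`: `h1`, `h2` of `brg` (Pool/Agent/H51/MT/Brg.lean) from `om_one`, `hco` from `om_co` twice, `hE` from `om_fin` with `ρ σ = (φ σ, φ'' σ, ρ_g σ, ρ_{g''} σ, c σ) ∈ G × G × UR × UR × R` (`mg_hom`; products of homomorphisms: `MonoidHom.prod`; finite type: levels by `⊔`, see `ft`-lemmas in H38/ML). `hS`: `Kl`: `l = lsk .. μ` (`oms`), of finite level (a function of `mg g σ`, `c σ`, `φQ σ`; `Lev` from the finite type of `ρ`). `htm`: `hA.pw`, `mg_p`, `c τ = 1`. `T` = the `v ∉ S0` with `ρ ≠ 1` on `inr X.L v` (finite: `uinr_fin`-type lemma, as in `cvl_fin` (Xbv.lean) / `esp`), `hur` by definition. `lam`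 from `exists_rec_one` (H63/MA/NormZ.lean): `lam v = 1` for `v ∤ p` of prime norm. `oml` for both: `E (F v) (t v) - E (t v) (F v) = dt (η (φQ (F v))) (ε'' v - ε v)`, zero if `v` is not good (`e0`). So `0 = ∑_{v ∈ T} dt (η ..) (ε'' v - ε v)`. For good `v ∉ T`: `φ (t v) = φ'' (t v) = 1` and `v` is not under `g`, `g''` (`mg_1`: `mg (t v) ≠ 0`), so `ε v = ε'' v = 0` (`e1`, `zinj`). So `Oe ε'' - Oe ε = 0` (`finsum` over the finite support, `finsum_eq_sum_of_support_subset`).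
(3) `alx`: for `v ∈ S0`: `μ v` from `sty_bet` for `UX X` (`X.qt g = X.qt g'`; the `qt` of `UX X` is the same by definition), `P = X.P.P v`. `lft` (Pool/Agent/H51/MT/Lft.lean) for `(c, g')` with `φ' v = NN (μ v) * φ * (NN (μ v))⁻¹` (`MulAut.conj`, finite type): `hev` for `g'`: `al_ev`; `hpr`: `pr (NN μ) = e (vp μ)` (`nn_pr`), `pr φ σ = e (vp (mg g σ)) * c σ`: `e (vp μ) * e (vp m) * c σ * e (- vp μ) = e (vp (μ + m - σ μ)) * c σ` (`Gm.M.conj`, `vp_pe`), `= rh X c g' σ` (`rh_tw`, `mg_vp`); `hcq`: `hA.cq` and `NN μ ∈ T` (`gm_T`, `nn_pr`). This gives `φ''`, `ε''`; (2) for `φ`, `φ''` and (1) for `φ''`, `φ'`.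
-/

set_option autoImplicit false
set_option linter.dupNamespace false

open scoped NumberField
open IsDedekindDomain Filter Topology
open scoped Classical

noncomputable section

namespace H48.MG

open H63.MA H38.BB H38.BG H38.AS H57.PC H57.BRA H89.BRG H1.AR H48.MF

open H51.MT

variable {p u w N : ℕ} {G R Q : Type} [Group G] [Group R] [Group Q] [Finite G] [Finite R]
  [Fintype Q] (Gm : GM p u w N G R Q)
  {K : Type} [Field K] [NumberField K] {Ω : Type} [Field Ω] [Algebra K Ω] [IsAlgClosure K Ω]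
  {ζ : K} (X : AD Gm.M K Ω ζ) (φ₁ : Gal(Ω/K) →* G)

theorem alx0 [NeZero p] (hp : p.Prime) (hp2 : MOne p K) (hζ : IsPrimitiveRoot ζ p)
    (hz : Z2 p K) (hφ₁ : H38.ML.FT φ₁) (D' : RM K p ζ) (hS : D'.S = X.D.S0)
    {κ : Fin D'.r → Fin w → ZMod p} (hκ : κ ∈ TP Gm X D' φ₁) (hG : ∀ j, Gnk Gm X D' κ j)
    {η : Q → Fin w → ZMod p}
    (hη : ∀ v, X.D.Gd v → ∀ k, η (X.φQ (X.Fr.F v)) k = ∑ i, κ i k * D'.q v i)
    {c : Gal(Ω/K) →* R} (hc : X.IsC c) {g : Finset X.Lb} (hg : X.Ok g)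
    {φ φ' : Gal(Ω/K) →* G} {ε ε' : Pl K → Fin w → ZMod p}
    (hA : AL Gm X φ₁ c g φ ε) (hA' : AL Gm X φ₁ c g φ' ε') : Oe X η ε = Oe X η ε' := by
  have h1 : Gm.pr.comp φ = rh X c g := by
    ext σ
    exact hA.pr σ
  have hcv : Cv X.D.S0 X.P Gm.M (rh X c g) (Gm.pr.comp φ₁) := by
    rw [← h1]
    exact cq_cv Gm hA.cq
  obtain ⟨z, hz'⟩ := dl_ex Gm X φ₁ hp hp2 hζ hz hφ₁ hc hg (al_ev Gm X hp hζ hc hg hA) hcv
  have hk : Kc Gm X D' κ g := fun a ha d hd => hG a.1 a.2 (hg.1 a ha) d hd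
  rw [aoe1 Gm X D' hη hA.fi hA.e0, aoe1 Gm X D' hη hA'.fi hA'.e0,
    aoe0 Gm X φ₁ hp hζ D' hS hκ hc hg hk hz' hA, aoe0 Gm X φ₁ hp hζ D' hS hκ hc hg hk hz' hA']

omit [Finite G] [Finite R] [Fintype Q] [IsAlgClosure K Ω] in
private theorem alx_t {D : RD0 K p ζ} (L : LDs D Ω) {v : Pl K} (hv : v ∉ D.S0) :
    L.t v ∈ inr L v := by
  unfold LDs.t inr
  rw [dif_pos hv, dif_pos hv]
  exact (L.ld v hv).ht

omit [Finite G] [Finite R] [Fintype Q] [IsAlgClosure K Ω] in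
private theorem alx_prod {A B : Type} [Group A] [Group B] {α : Gal(Ω/K) →* A}
    {β : Gal(Ω/K) →* B} (hα : H38.ML.FT α) (hβ : H38.ML.FT β) : H38.ML.FT (α.prod β) := by
  obtain ⟨E, hE, hE2⟩ := hα
  obtain ⟨E', hE', hE2'⟩ := hβ
  refine ⟨E ⊔ E', IntermediateField.finiteDimensional_sup _ _, fun u hu => ?_⟩
  have h1 : α u = 1 := MonoidHom.mem_ker.1
    (hE2 (IntermediateField.fixingSubgroup_antitone le_sup_left hu))
  have h2 : β u = 1 := MonoidHom.mem_ker.1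
    (hE2' (IntermediateField.fixingSubgroup_antitone le_sup_right hu))
  rw [MonoidHom.mem_ker, MonoidHom.prod_apply, h1, h2]
  rfl

/-- `ε v = 0` outside a set which contains the ramified places -/
private theorem alx_0 (hp : p.Prime) (hζ : IsPrimitiveRoot ζ p) {c : Gal(Ω/K) →* R}
    {g : Finset X.Lb} (hg : X.Ok g) {φ : Gal(Ω/K) →* G}
    {ε : Pl K → Fin w → ZMod p} (hA : AL Gm X φ₁ c g φ ε) {v : Pl K}
    (h : v ∉ X.D.S0 → φ (X.L.t v) = 1 ∧ mg X g (X.L.t v) = 0) : ε v = 0 := by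
  by_cases hG : X.D.Gd v
  · obtain ⟨h1, h2⟩ := h hG.1
    have hn : ∀ a ∈ g, X.un a ≠ v := by
      intro a ha hav
      obtain ⟨γ, hγ⟩ := lbl_ex X (hg.1 a ha) hG.1 hav
      rw [mg_1 Gm X hp hζ hg ha hG.1 hav hγ] at h2
      have h3 := congrFun h2 (pk Gm (X.φQ γ)⁻¹ (ok Gm a.1))
      rw [Pi.single_eq_same, Pi.zero_apply] at h3
      have : Fact p.Prime := ⟨hp⟩
      exact one_ne_zero h3
    have h3 := hA.e1 v hG hn
    rw [h1, ← gm_z0 Gm] at h3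
    exact (Gm.zinj h3).symm
  · exact hA.e0 v hG

theorem alx1 (hp : p.Prime) (hp2 : MOne p K) (hζ : IsPrimitiveRoot ζ p)
    (hz : Z2 p K) {η : Q → Fin w → ZMod p} {f : Fin N → Fin w → ZMod p} (hη : Gnr Gm η)
    (hf : Alf Gm η f) {c : Gal(Ω/K) →* R} (hc : X.IsC c) {g g' : Finset X.Lb} (hg : X.Ok g)
    (hg' : X.Ok g') {φ φ' : Gal(Ω/K) →* G} {ε ε' : Pl K → Fin w → ZMod p}
    (hA : AL Gm X φ₁ c g φ ε) (hA' : AL Gm X φ₁ c g' φ' ε')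
    (hS : ∀ v ∈ X.D.S0, ∃ μ : Fin (uE Gm.M) → ZMod p, ∀ σ ∈ dec (K := K) (X.P.P v),
      mg X g' σ = mg X g σ + μ - pe Gm.M (X.φQ σ) μ ∧
        φ' σ = NN Gm μ * φ σ * (NN Gm μ)⁻¹) : Oe X η ε = Oe X η ε' := by
  have : NeZero p := ⟨hp.ne_zero⟩
  have hN := al_nd Gm X hp hζ hc hA
  have hN' := al_nd Gm X hp hζ hc hA'
  obtain ⟨ρ₁, f₁, r₁⟩ := mg_hom Gm X hp hζ g
  obtain ⟨ρ₂, f₂, r₂⟩ := mg_hom Gm X hp hζ g'
  obtain ⟨ρ, hρ⟩ : ∃ ρ : Gal(Ω/K) →* G × G × UR Gm.M × UR Gm.M × R,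
      ρ = φ.prod (φ'.prod (ρ₁.prod (ρ₂.prod c))) := ⟨_, rfl⟩
  have hρs : ∀ σ, ρ σ = (φ σ, φ' σ, ρ₁ σ, ρ₂ σ, c σ) := fun σ => by rw [hρ]; rfl
  have hft : H38.ML.FT ρ := by
    rw [hρ]
    exact alx_prod hA.ft (alx_prod hA'.ft (alx_prod f₁ (alx_prod f₂ hc.ft)))
  have hsp : ∀ σ σ', ρ σ = ρ σ' → φ σ = φ σ' ∧ φ' σ = φ' σ' ∧ mg X g σ = mg X g σ' ∧
      mg X g' σ = mg X g' σ' ∧ c σ = c σ' ∧ X.φQ σ = X.φQ σ' := by
    intro σ σ' h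
    rw [hρs, hρs, Prod.mk.injEq, Prod.mk.injEq, Prod.mk.injEq, Prod.mk.injEq, r₁, r₁, r₂, r₂,
      UR.mk.injEq, UR.mk.injEq] at h
    exact ⟨h.1, h.2.1, h.2.2.1.1, h.2.2.2.1.1, h.2.2.2.2, h.2.2.1.2⟩
  obtain ⟨E, hE⟩ : ∃ E : Gal(Ω/K) → Gal(Ω/K) → ZMod p, ∀ σ τ, E σ τ =
      Om Gm η f X.φQ c (mg X g') φ' σ τ - Om Gm η f X.φQ c (mg X g) φ σ τ :=
    ⟨_, fun _ _ => rfl⟩
  obtain ⟨lam, hlam, hlam1⟩ := exists_rec_one K hp hp2 hζ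
  obtain ⟨T, hT⟩ : ∃ T : Finset (Pl K), ∀ v, v ∈ T ↔ v ∉ X.D.S0 ∧ ρ (X.L.t v) ≠ 1 :=
    ⟨(ram_finite hp X.D X.L ρ hft).toFinset, fun v => Set.Finite.mem_toFinset _⟩
  have h1 : ∀ v, v ∉ X.D.S0 → v ∉ T → ρ (X.L.t v) = 1 := by
    intro v hv hvT
    by_contra h
    exact hvT ((hT v).2 ⟨hv, h⟩)
  have hb := brg hp hp2 hζ hz X.P X.Fr ρ hft E
    (fun σ => by
      rw [hE, (om_one Gm hp hη hN σ).1, (om_one Gm hp hη hN' σ).1, sub_zero])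
    (fun σ => by
      rw [hE, (om_one Gm hp hη hN σ).2, (om_one Gm hp hη hN' σ).2, sub_zero])
    (fun σ τ υ => by
      rw [hE, hE, hE, hE]
      linear_combination om_co Gm hp hη hf hN' σ τ υ - om_co Gm hp hη hf hN σ τ υ)
    (fun σ σ' τ τ' h h' => by
      obtain ⟨a1, a2, a3, a4, a5, a6⟩ := hsp σ σ' h
      obtain ⟨b1, b2, b3, b4, b5, b6⟩ := hsp τ τ' h'
      rw [hE, hE, om_fin Gm b1 a5 b5 a3 b3 a6, om_fin Gm b2 a5 b5 a4 b4 a6])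
    (fun v hv => by
      obtain ⟨μ, hμ⟩ := hS v hv
      refine ⟨lsk Gm η f X.φQ c (mg X g) μ, ?_, fun σ hσ τ hτ => ?_⟩
      · obtain ⟨E', hE', h⟩ := hft
        refine ⟨E', hE', fun σ u hu => ?_⟩
        have h2 : ρ (σ * u) = ρ σ := by
          rw [map_mul, MonoidHom.mem_ker.1 (h hu), mul_one]
        obtain ⟨-, -, a3, -, a5, a6⟩ := hsp _ _ h2
        unfold lsk
        rw [a3, a5, a6]
      · rw [hE]
        exact oms Gm hp hη hf hN (hμ σ hσ).1 (hμ τ hτ).1 (hμ τ hτ).2)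
    (fun v hv τ hτ => by
      rw [hρs, r₁, r₂, Prod.pow_mk, Prod.pow_mk, Prod.pow_mk, Prod.pow_mk, hA.pw v hv τ hτ,
        hA'.pw v hv τ hτ, mg_p Gm X hp hζ g hv hτ, mg_p Gm X hp hζ g' hv hτ, hc.ur v hv τ hτ,
        one_pow]
      rfl) T (fun v hv => ((hT v).1 hv).1) h1 hlam
  have h2 : ∀ v ∈ T, lam v * (E (X.Fr.F v) (X.L.t v) - E (X.L.t v) (X.Fr.F v)) =
      dt (η (X.φQ (X.Fr.F v))) (ε' v) - dt (η (X.φQ (X.Fr.F v))) (ε v) := by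
    intro v hv
    have hv0 := ((hT v).1 hv).1
    have h3 := oml Gm X hp hζ hz hη hf hc hg hA hv0
    have h4 := oml Gm X hp hζ hz hη hf hc hg' hA' hv0
    have h5 : E (X.Fr.F v) (X.L.t v) - E (X.L.t v) (X.Fr.F v) =
        dt (η (X.φQ (X.Fr.F v))) (ε' v) - dt (η (X.φQ (X.Fr.F v))) (ε v) := by
      rw [hE, hE, ← h3, ← h4]
      ring
    rw [h5]
    by_cases hG : X.D.Gd v
    · rw [hlam1 v (fun h => hv0 (X.D.above v h)) hG.2, one_mul]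
    · rw [hA.e0 v hG, hA'.e0 v hG, sub_self, mul_zero]
  rw [Finset.sum_congr rfl h2, Finset.sum_sub_distrib, sub_eq_zero] at hb
  have h6 : ∀ v, v ∉ T → v ∉ X.D.S0 → φ (X.L.t v) = 1 ∧ φ' (X.L.t v) = 1 ∧
      mg X g (X.L.t v) = 0 ∧ mg X g' (X.L.t v) = 0 := by
    intro v hvT hv0
    have h7 := h1 v hv0 hvT
    rw [hρs, r₁, r₂] at h7
    have h8 := congrArg Prod.fst h7
    have h9 := congrArg (fun x : G × G × UR Gm.M × UR Gm.M × R => x.2.1) h7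
    have h10 := congrArg (fun x : G × G × UR Gm.M × UR Gm.M × R => x.2.2.1.v) h7
    have h11 := congrArg (fun x : G × G × UR Gm.M × UR Gm.M × R => x.2.2.2.1.v) h7
    exact ⟨h8, h9, h10, h11⟩
  have h7 : ∀ v, v ∉ T → ε v = 0 := fun v hv =>
    alx_0 Gm X φ₁ hp hζ hg hA fun hv0 => ⟨(h6 v hv hv0).1, (h6 v hv hv0).2.2.1⟩
  have h8 : ∀ v, v ∉ T → ε' v = 0 := fun v hv =>
    alx_0 Gm X φ₁ hp hζ hg' hA' fun hv0 => ⟨(h6 v hv hv0).2.1, (h6 v hv hv0).2.2.2⟩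
  have h9 : ∀ e : Pl K → Fin w → ZMod p, (∀ v, v ∉ T → e v = 0) →
      Oe X η e = ∑ v ∈ T, dt (η (X.φQ (X.Fr.F v))) (e v) := by
    intro e he
    unfold Oe
    refine finsum_eq_sum_of_support_subset _ fun v hv => ?_
    by_contra hvT
    refine hv ?_
    show dt (η (X.φQ (X.Fr.F v))) (e v) = 0
    rw [he v hvT, dt_zero']
  rw [h9 ε h7, h9 ε' h8, hb]

theorem alx [NeZero p] (hp : p.Prime) (hp2 : MOne p K) (hζ : IsPrimitiveRoot ζ p)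
    (hz : Z2 p K) (hφ₁ : H38.ML.FT φ₁) (D' : RM K p ζ) (hS : D'.S = X.D.S0)
    {κ : Fin D'.r → Fin w → ZMod p} (hκ : κ ∈ TP Gm X D' φ₁) (hG : ∀ j, Gnk Gm X D' κ j)
    {η : Q → Fin w → ZMod p} (hη : Gnr Gm η)
    (hηq : ∀ v, X.D.Gd v → ∀ k, η (X.φQ (X.Fr.F v)) k = ∑ i, κ i k * D'.q v i)
    (hal : Algd Gm η) {c : Gal(Ω/K) →* R} (hc : X.IsC c) {g g' : Finset X.Lb} (hg : X.Ok g)
    (hg' : X.Ok g') (hq : ∀ j, X.qt g j = X.qt g' j) {φ φ' : Gal(Ω/K) →* G}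
    {ε ε' : Pl K → Fin w → ZMod p} (hA : AL Gm X φ₁ c g φ ε)
    (hA' : AL Gm X φ₁ c g' φ' ε') : Oe X η ε = Oe X η ε' := by
  obtain ⟨f, hf⟩ := hal
  have hμ : ∀ v : Pl K, ∃ μ : Fin (uE Gm.M) → ZMod p, v ∈ X.D.S0 →
      ∀ σ ∈ dec (K := K) (X.P.P v), mg X g' σ = mg X g σ + μ - pe Gm.M (X.φQ σ) μ := by
    intro v
    by_cases hv : v ∈ X.D.S0
    · obtain ⟨μ, h⟩ := sty_bet (UX X) hp hp2 hζ (g := g) (g' := g') hg hg' hq hv
        (X.P.prime v) (X.P.under v)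
      exact ⟨μ, fun _ σ hσ => h σ hσ⟩
    · exact ⟨0, fun h => absurd h hv⟩
  choose μ hμ using hμ
  have hnp : ∀ m : Fin (uE Gm.M) → ZMod p, (Gm.M.e (vp Gm.M m))⁻¹ = Gm.M.e (vp Gm.M (-m)) := by
    intro m
    rw [inv_eq_iff_mul_eq_one, ← Gm.M.eadd, ← map_add, add_neg_cancel, map_zero, gm_e0 Gm]
  have hpr : ∀ v ∈ X.D.S0, ∀ σ ∈ dec (K := K) (X.P.P v),
      Gm.pr (((MulAut.conj (NN Gm (μ v))).toMonoidHom.comp φ) σ) = rh X c g' σ := by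
    intro v hv σ hσ
    have h1 : ((MulAut.conj (NN Gm (μ v))).toMonoidHom.comp φ) σ =
        NN Gm (μ v) * φ σ * (NN Gm (μ v))⁻¹ := rfl
    have h2 := Gm.M.conj (c σ) (vp Gm.M (-μ v))
    have h3 : c σ * Gm.M.e (vp Gm.M (-μ v)) =
        Gm.M.e (Gm.M.act (X.φQ σ) (vp Gm.M (-μ v))) * c σ := by
      rw [← hc.pi σ, ← h2]
      group
    rw [h1, map_mul, map_mul, map_inv, nn_pr Gm hp, hA.pr σ, rh_tw Gm X hp hζ hc g σ,
      rh_tw Gm X hp hζ hc g' σ, ← mg_vp Gm X g σ, ← mg_vp Gm X g' σ, hμ v hv σ hσ, hnp,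
      mul_assoc, mul_assoc, h3, ← mul_assoc, ← mul_assoc, ← Gm.M.eadd, ← Gm.M.eadd, ← vp_pe,
      ← map_add, ← map_add]
    congr 3
    rw [map_neg]
    abel
  obtain ⟨φ'', ε'', hA'', hloc⟩ := lft Gm X hp hp2 hζ hz hc hg'
    (al_ev Gm X hp hζ hc hg' hA') hφ₁
    (fun v => (MulAut.conj (NN Gm (μ v))).toMonoidHom.comp φ)
    (fun v _ => by
      obtain ⟨E, hE, h⟩ := hA.ft
      refine ⟨E, hE, fun u hu => ?_⟩
      have h1 : φ u = 1 := MonoidHom.mem_ker.1 (h hu)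
      rw [MonoidHom.mem_ker, MonoidHom.comp_apply, h1, map_one])
    hpr
    (fun v hv => by
      obtain ⟨r, hr, h⟩ := hA.cq v hv
      have hNT : NN Gm (μ v) ∈ Gm.T := (gm_T Gm _).2 ⟨_, nn_pr Gm hp (μ v)⟩
      refine ⟨r * (NN Gm (μ v))⁻¹, Gm.T.mul_mem hr (Gm.T.inv_mem hNT), fun σ hσ => ?_⟩
      rw [h σ hσ]
      show r * φ σ * r⁻¹ = r * (NN Gm (μ v))⁻¹ * (NN Gm (μ v) * φ σ * (NN Gm (μ v))⁻¹) *
        (r * (NN Gm (μ v))⁻¹)⁻¹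
      group)
  have h1 : Oe X η ε = Oe X η ε'' := alx1 Gm X φ₁ hp hp2 hζ hz hη hf hc hg hg' hA hA''
    fun v hv => ⟨μ v, fun σ hσ => ⟨hμ v hv σ hσ, hloc v hv σ hσ⟩⟩
  rw [h1]
  exact alx0 Gm X φ₁ hp hp2 hζ hz hφ₁ D' hS hκ hG hηq hc hg' hA'' hA'

end H48.MG
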