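import Pool.Agent.H48.MG.Gel

/-!
# [H48 MG BBK] bilinearity of the forms, 50-90 lines. File Pool/Agent/H48/MG/Bbk.lean

`bbk` and `hbk` are double sums, linear in each argument: `Finset.sum_add_distrib`, `ite_add_zero`-type case distinctions (`split_ifs`), `add_mul`, `mul_add`, `add_smul`. `neg`: from `add` and `zero` (or directly). `hbk_single_l/r`, `bbk_single`: `Finset.sum_eq_single`.
-/

set_option autoImplicit false
set_option linter.dupNamespace false

open scoped NumberField
open IsDedekindDomain Filter Topology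
open scoped Classical

noncomputable section

namespace H48.MG

open H63.MA H38.BB H38.BG H38.AS H57.PC H57.BRA H89.BRG H1.AR H48.MF

open H51.MT

variable {p u w N : ℕ} {G R Q : Type} [Group G] [Group R] [Group Q] [Fintype Q]
  (Gm : GM p u w N G R Q)

theorem bbk_add_l (a b m : Fin (uE Gm.M) → ZMod p) :
    bbk Gm (a + b) m = bbk Gm a m + bbk Gm b m := by
  unfold bbk
  rw [← Finset.sum_add_distrib]
  refine Finset.sum_congr rfl fun k _ => ?_
  rw [← Finset.sum_add_distrib]
  refine Finset.sum_congr rfl fun l _ => ?_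
  split_ifs
  · rw [Pi.add_apply, add_mul, add_smul]
  · rw [add_zero]

theorem bbk_add_r (m a b : Fin (uE Gm.M) → ZMod p) :
    bbk Gm m (a + b) = bbk Gm m a + bbk Gm m b := by
  unfold bbk
  rw [← Finset.sum_add_distrib]
  refine Finset.sum_congr rfl fun k _ => ?_
  rw [← Finset.sum_add_distrib]
  refine Finset.sum_congr rfl fun l _ => ?_
  split_ifs
  · rw [Pi.add_apply, mul_add, add_smul]
  · rw [add_zero]

private theorem bbk_zl (m : Fin (uE Gm.M) → ZMod p) : bbk Gm 0 m = 0 := by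
  unfold bbk
  refine Finset.sum_eq_zero fun k _ => Finset.sum_eq_zero fun l _ => ?_
  split_ifs
  · rw [Pi.zero_apply, zero_mul, zero_smul]
  · rfl

private theorem bbk_zr (m : Fin (uE Gm.M) → ZMod p) : bbk Gm m 0 = 0 := by
  unfold bbk
  refine Finset.sum_eq_zero fun k _ => Finset.sum_eq_zero fun l _ => ?_
  split_ifs
  · rw [Pi.zero_apply, mul_zero, zero_smul]
  · rfl

theorem bbk_neg_l (a m : Fin (uE Gm.M) → ZMod p) : bbk Gm (-a) m = -bbk Gm a m := by
  apply eq_neg_of_add_eq_zero_left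
  rw [← bbk_add_l, neg_add_cancel, bbk_zl]

theorem bbk_neg_r (m a : Fin (uE Gm.M) → ZMod p) : bbk Gm m (-a) = -bbk Gm m a := by
  apply eq_neg_of_add_eq_zero_left
  rw [← bbk_add_r, neg_add_cancel, bbk_zr]

theorem bbk_zero_l (m : Fin (uE Gm.M) → ZMod p) : bbk Gm 0 m = 0 := bbk_zl Gm m

theorem bbk_zero_r (m : Fin (uE Gm.M) → ZMod p) : bbk Gm m 0 = 0 := bbk_zr Gm m

variable (η : Q → Fin w → ZMod p) (f : Fin N → Fin w → ZMod p)

theorem hbk_add_l (a b m : Fin (uE Gm.M) → ZMod p) :
    hbk Gm η f (a + b) m = hbk Gm η f a m + hbk Gm η f b m := by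
  unfold hbk
  rw [← Finset.sum_add_distrib]
  refine Finset.sum_congr rfl fun k _ => ?_
  rw [← Finset.sum_add_distrib]
  refine Finset.sum_congr rfl fun l _ => ?_
  split_ifs
  · rw [Pi.add_apply, add_mul, add_mul]
  · rw [add_zero]

theorem hbk_add_r (m a b : Fin (uE Gm.M) → ZMod p) :
    hbk Gm η f m (a + b) = hbk Gm η f m a + hbk Gm η f m b := by
  unfold hbk
  rw [← Finset.sum_add_distrib]
  refine Finset.sum_congr rfl fun k _ => ?_
  rw [← Finset.sum_add_distrib]
  refine Finset.sum_congr rfl fun l _ => ?_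
  split_ifs
  · rw [Pi.add_apply, mul_add, add_mul]
  · rw [add_zero]

private theorem hbk_zl (m : Fin (uE Gm.M) → ZMod p) : hbk Gm η f 0 m = 0 := by
  unfold hbk
  refine Finset.sum_eq_zero fun k _ => Finset.sum_eq_zero fun l _ => ?_
  split_ifs
  · rw [Pi.zero_apply, zero_mul, zero_mul]
  · rfl

private theorem hbk_zr (m : Fin (uE Gm.M) → ZMod p) : hbk Gm η f m 0 = 0 := by
  unfold hbk
  refine Finset.sum_eq_zero fun k _ => Finset.sum_eq_zero fun l _ => ?_
  split_ifs
  · rw [Pi.zero_apply, mul_zero, zero_mul]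
  · rfl

theorem hbk_neg_l (a m : Fin (uE Gm.M) → ZMod p) : hbk Gm η f (-a) m = -hbk Gm η f a m := by
  apply eq_neg_of_add_eq_zero_left
  rw [← hbk_add_l, neg_add_cancel, hbk_zl]

theorem hbk_neg_r (m a : Fin (uE Gm.M) → ZMod p) : hbk Gm η f m (-a) = -hbk Gm η f m a := by
  apply eq_neg_of_add_eq_zero_left
  rw [← hbk_add_r, neg_add_cancel, hbk_zr]

theorem hbk_zero_l (m : Fin (uE Gm.M) → ZMod p) : hbk Gm η f 0 m = 0 := hbk_zl Gm η f m

theorem hbk_zero_r (m : Fin (uE Gm.M) → ZMod p) : hbk Gm η f m 0 = 0 := hbk_zr Gm η f m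

theorem hbk_single_r (m : Fin (uE Gm.M) → ZMod p) (l : Fin (uE Gm.M)) :
    hbk Gm η f m (Pi.single l 1) = ∑ k, if l < k then m k * Ak Gm η f k l else 0 := by
  unfold hbk
  refine Finset.sum_congr rfl fun k _ => ?_
  rw [Finset.sum_eq_single l]
  · rw [Pi.single_eq_same, mul_one]
  · intro l' _ hl'
    rw [Pi.single_eq_of_ne hl', mul_zero, zero_mul]
    split_ifs <;> rfl
  · intro h
    exact absurd (Finset.mem_univ _) h

theorem hbk_single_l (m : Fin (uE Gm.M) → ZMod p) (k : Fin (uE Gm.M)) :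
    hbk Gm η f (Pi.single k 1) m = ∑ l, if l < k then m l * Ak Gm η f k l else 0 := by
  unfold hbk
  rw [Finset.sum_eq_single k]
  · refine Finset.sum_congr rfl fun l _ => ?_
    rw [Pi.single_eq_same, one_mul]
  · intro k' _ hk'
    refine Finset.sum_eq_zero fun l _ => ?_
    rw [Pi.single_eq_of_ne hk', zero_mul, zero_mul]
    split_ifs <;> rfl
  · intro h
    exact absurd (Finset.mem_univ _) h

end H48.MG
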