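import Pool.Agent.H48.MG.Xbv
import Pool.Agent.H48.MF.Lst

/-!
# [H48 MG CNT] the number of lifts with given local type at S0, 130-200 lines. File Pool/Agent/H48/MG/Cnt.lean

Read Lst.lean (MF) first: `HF X.D X.L A f` with `A i` = the `ofAdd d`, `d ∈ Del i`; the proof of `lst` shows that `χ ↦ twz χ φ₀` is a bijection from the set `H` of the characters `χ` of finite type with `χ (X.L.t v) = 1` for `v ∉ S0` not under `g` and `toAdd χ (X.L.t (un a)) ∈ Del a.1` for `a ∈ g` onto `LS ρ g` (put this into a private lemma). So: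
* `LC = {twz χ φ₀ : χ ∈ H, χ * δ⁻¹ ∈ XB}`: `Cq (twz χ φ₀) φ₁` iff `Cq (twz (χ * δ⁻¹) φ₁) φ₁`: `twz χ φ₀ = twz (χ δ⁻¹) (twz δ φ₀) ~ twz (χ δ⁻¹) φ₁` (`cq_twz`, `twz_mul`).
* The map `χ ↦ (cvl χ (un a))_{a ∈ g}` sends this set onto the set of the `d` in the statement: the total class of `χ δ⁻¹` is `∑_a q (un a) ⊗ d a - tx (cvl δ)` (`un` injective on `g`: `X.Ok`; `finsum` over the finite set `g.image un`; `D'.q v = 0` for `v ∈ S0`), so it is in `TT`. Conversely `d` with this property: `x v = d a` for `v = un a`, `0` for the other `v`, minus `cvl δ v`, `0` on `S0`: `xb_val` gives `χ' ∈ XB` with these values, `χ = χ' * δ`.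
* The fibres: `χ, χ'` have the same `d` iff `χ' χ⁻¹ ∈ chbU`, and then it is in `XB` (both `χ δ⁻¹`, `χ' δ⁻¹` are; `xb_mul`, `xb_inv`): every fibre has `yb` elements (`Nat.card` of a fibre is `yb`: a bijection with the subtype in the definition of `yb`). Count: `Nat.card_sigma`-type or `Set.ncard` of a disjoint union; all sets are finite (`lst`, `hw_fin` as in Gav.lean).
`lc_emp`: if there is no `(φ₀, δ)` then `LC` is empty: for `φ ∈ LC` take `(φ, 1)` (`twz_one`).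
`dl_ex`: if all `ev` vanish and `Cv` holds at `S0`: `φ₀` from `lfe`, `δ` from `twz_loc`. `dl_cv`: `Cq` implies `Cv` (`cq_cv`, `twz_pr`); `dl_ev`: `ls_ev`.
-/

set_option autoImplicit false
set_option linter.dupNamespace false

open scoped NumberField
open IsDedekindDomain Filter Topology
open scoped Classical

noncomputable section

namespace H48.MG

open H63.MA H38.BB H38.BG H38.AS H57.PC H57.BRA H89.BRG H1.AR H48.MF

variable {p u w N : ℕ} {G R Q : Type} [Group G] [Group R] [Group Q] [Finite G] [Finite R]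
  [Fintype Q] (Gm : GM p u w N G R Q)
  {K : Type} [Field K] [NumberField K] {Ω : Type} [Field Ω] [Algebra K Ω] [IsAlgClosure K Ω]
  {ζ : K} (X : AD Gm.M K Ω ζ) (φ₁ : Gal(Ω/K) →* G)

/-- the extension by zero of a family of values at the labels -/
private def cntE {g : Finset X.Lb} (d : g → Fin w → ZMod p) (v : Pl K) : Fin w → ZMod p :=
  if h : ∃ a : g, X.un a.1 = v then d h.choose else 0

omit [Finite G] [Finite R] [Fintype Q] [IsAlgClosure K Ω] in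
private theorem cntE_un {g : Finset X.Lb} (hg : X.Ok g) (d : g → Fin w → ZMod p) (a : g) :
    cntE Gm X d (X.un a.1) = d a := by
  have h : ∃ b : g, X.un b.1 = X.un a.1 := ⟨a, rfl⟩
  unfold cntE
  rw [dif_pos h]
  have h1 : h.choose = a := by
    by_contra hne
    refine hg.2 _ h.choose.2 _ a.2 ?_ h.choose_spec
    intro h2
    exact hne (Subtype.ext h2)
  rw [h1]

omit [Finite G] [Finite R] [Fintype Q] [IsAlgClosure K Ω] in
private theorem cntE_not {g : Finset X.Lb} (d : g → Fin w → ZMod p) {v : Pl K}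
    (h : ∀ a ∈ g, X.un a ≠ v) : cntE Gm X d v = 0 := by
  unfold cntE
  rw [dif_neg]
  rintro ⟨a, ha⟩
  exact h a.1 a.2 ha

omit [Finite G] [Finite R] [Fintype Q] [IsAlgClosure K Ω] in
private theorem cntE_fin {g : Finset X.Lb} (d : g → Fin w → ZMod p) :
    {v | cntE Gm X d v ≠ 0}.Finite := by
  refine (g.image X.un).finite_toSet.subset ?_
  intro v hv
  by_contra h
  apply hv
  apply cntE_not
  intro a ha hav
  apply h
  rw [Finset.mem_coe, Finset.mem_image]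
  exact ⟨a, ha, hav⟩

omit [Finite G] [Finite R] [Fintype Q] [IsAlgClosure K Ω] in
private theorem cvl_S0 {D : RD0 K p ζ} (L : LDs D Ω) (χ : Gal(Ω/K) →* Wg p w) {v : Pl K}
    (hv : v ∈ D.S0) : cvl L χ v = 0 := by
  have h1 : L.t v = 1 := by
    unfold LDs.t
    rw [dif_neg (not_not.2 hv)]
  unfold cvl
  rw [h1, map_one, toAdd_one]

omit [Finite G] [Finite R] [Fintype Q] [IsAlgClosure K Ω] in
private theorem cvl_one {D : RD0 K p ζ} (L : LDs D Ω) (χ : Gal(Ω/K) →* Wg p w) (v : Pl K) :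
    χ (L.t v) = 1 ↔ cvl L χ v = 0 := by
  unfold cvl
  constructor
  · intro h
    rw [h, toAdd_one]
  · intro h
    exact Multiplicative.toAdd.injective (h.trans toAdd_one.symm)

omit [Finite G] [Finite R] [Fintype Q] [IsAlgClosure K Ω] in
private theorem cntE_tx {g : Finset X.Lb} (hg : X.Ok g) (d : g → Fin w → ZMod p)
    {r : ℕ} (q : Pl K → Fin r → ZMod p) {y : Pl K → Fin w → ZMod p}
    (hy : {v | y v ≠ 0}.Finite) :
    tx q (fun v => cntE Gm X d v - y v) =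
      fun i k => (∑ a : g, q (X.un a.1) i * d a k) - tx q y i k := by
  rw [tx_sub q _ _ (cntE_fin Gm X d) hy]
  funext i k
  change tx q (cntE Gm X d) i k - tx q y i k = _
  congr 1
  change ∑ᶠ v, q v i * cntE Gm X d v k = _
  rw [finsum_eq_sum_of_support_subset (s := (Finset.univ : Finset g).image fun a => X.un a.1)]
  · rw [Finset.sum_image]
    · refine Finset.sum_congr rfl fun a _ => ?_
      rw [cntE_un Gm X hg d a]
    · intro a _ b _ hab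
      by_contra hne
      refine hg.2 _ a.2 _ b.2 ?_ hab
      intro h2
      exact hne (Subtype.ext h2)
  · intro v hv
    rw [Function.mem_support] at hv
    by_contra h
    apply hv
    rw [cntE_not Gm X d, Pi.zero_apply, mul_zero]
    intro a ha hav
    apply h
    rw [Finset.mem_coe, Finset.mem_image]
    exact ⟨⟨a, ha⟩, Finset.mem_univ _, hav⟩

private theorem cnt_iff (hp : p.Prime) (hζ : IsPrimitiveRoot ζ p) {c ρ : Gal(Ω/K) →* R}
    (hc : X.IsC c) {g : Finset X.Lb} (hg : X.Ok g) (hρ : Gm.M.Tw c (X.bet g) ρ)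
    {φ : Gal(Ω/K) →* G} (h : φ ∈ LS Gm X ρ g) {χ : Gal(Ω/K) →* Wg p w} (hχ : H38.ML.FT χ) :
    twz Gm χ φ ∈ LS Gm X ρ g ↔ (∀ a ∈ g, cvl X.L χ (X.un a) ∈ Gm.Del a.1) ∧
      ∀ v, v ∉ X.D.S0 → (∀ a ∈ g, X.un a ≠ v) → χ (X.L.t v) = 1 := by
  haveI : NeZero p := ⟨hp.ne_zero⟩
  obtain ⟨h1, h2, h3, h4, h5⟩ := h
  have hconj : ∀ a ∈ g, (IsConj (twz Gm χ φ (X.t a)) (Gm.g a.1) ↔
      cvl X.L χ (X.un a) ∈ Gm.Del a.1) := by
    intro a ha
    have hpr : Gm.pr (φ (X.t a)) = Gm.M.e (Gm.M.y a.1) := by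
      rw [h2, par_t X hp hζ hc hg hρ ha]
    have hpr' : Gm.pr (twz Gm χ φ (X.t a)) = Gm.M.e (Gm.M.y a.1) := by
      rw [twz_pr, hpr]
    obtain ⟨d, hd, hd'⟩ := (fib_conj Gm hpr).1 (h3 a ha)
    unfold cvl
    rw [fib_conj Gm hpr', ← lab_t X hp hζ (hg.1 a ha) wg_pow χ hχ, twz_apply, hd',
      ← mul_assoc, ← Gm.zadd]
    constructor
    · rintro ⟨d', h6, h7⟩
      have h8 := Gm.zinj (mul_right_cancel h7)
      have h9 : Multiplicative.toAdd (χ (X.t a)) = d' + -d := by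
        rw [← h8, add_neg_cancel_right]
      rw [h9]
      exact del_add Gm _ h6 (del_neg Gm _ hd)
    · intro h6
      exact ⟨_, del_add Gm _ h6 hd, rfl⟩
  have hone : ∀ v, v ∉ X.D.S0 → (∀ a ∈ g, X.un a ≠ v) →
      ((∀ τ ∈ inr X.L v, twz Gm χ φ τ = 1) ↔ χ (X.L.t v) = 1) := by
    intro v hv hv'
    rw [← lab_in hp hζ X.L wg_pow χ hχ v hv]
    refine forall₂_congr fun τ hτ => ?_
    rw [twz_apply, h4 v hv hv' τ hτ, mul_one]
    constructor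
    · intro h6
      rw [← gm_z0 Gm] at h6
      exact Multiplicative.toAdd.injective (Gm.zinj h6)
    · intro h6
      rw [h6, toAdd_one, gm_z0]
  constructor
  · rintro ⟨-, -, h3', h4', -⟩
    exact ⟨fun a ha => (hconj a ha).1 (h3' a ha), fun v hv hn => (hone v hv hn).1 (h4' v hv hn)⟩
  · rintro ⟨h6, h7⟩
    refine ⟨twz_ft Gm χ φ hχ h1, fun σ => by rw [twz_pr, h2], ?_, ?_, ?_⟩
    · intro a ha
      exact (hconj a ha).2 (h6 a ha)
    · intro v hv hn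
      exact (hone v hv hn).2 (h7 v hv hn)
    · intro v hv τ hτ
      have hcm : Commute (Gm.z (Multiplicative.toAdd (χ τ))) (φ τ) := Gm.zcen _ _
      rw [twz_apply, hcm.mul_pow, gm_zpow, h5 v hv τ hτ, mul_one]

/-- the characters which give lifts of the right local type -/
private def cntP (g : Finset X.Lb) (δ : Gal(Ω/K) →* Wg p w) : Set (Gal(Ω/K) →* Wg p w) :=
  {χ | H38.ML.FT χ ∧ ((∀ a ∈ g, cvl X.L χ (X.un a) ∈ Gm.Del a.1) ∧
    ∀ v, v ∉ X.D.S0 → (∀ a ∈ g, X.un a ≠ v) → χ (X.L.t v) = 1) ∧ χ * δ⁻¹ ∈ XB Gm X φ₁}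

private theorem cnt_img (hp : p.Prime) (hζ : IsPrimitiveRoot ζ p) {c : Gal(Ω/K) →* R}
    (hc : X.IsC c) {g : Finset X.Lb} (hg : X.Ok g)
    {z : (Gal(Ω/K) →* G) × (Gal(Ω/K) →* Wg p w)} (hz : Dl Gm X φ₁ c g z) :
    LC Gm X φ₁ (rh X c g) g = (fun χ => twz Gm χ z.1) '' cntP Gm X φ₁ g z.2 := by
  obtain ⟨hz1, hz2, hz3⟩ := hz
  have hρ := rh_tw Gm X hp hζ hc g
  have key : ∀ χ : Gal(Ω/K) →* Wg p w, Cq X.D.S0 X.P Gm.T (twz Gm χ z.1)
      (twz Gm (χ * z.2⁻¹) φ₁) := by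
    intro χ
    have h1 := cq_twz Gm Gm.T hz3 (χ * z.2⁻¹)
    rw [← twz_mul, inv_mul_cancel_right] at h1
    exact h1
  ext φ
  constructor
  · rintro ⟨h1, h2⟩
    obtain ⟨χ, hχ, rfl⟩ := twz_ex Gm φ z.1 h1.1 hz1.1 fun σ => by rw [h1.2.1, hz1.2.1]
    refine ⟨χ, ⟨hχ, (cnt_iff Gm X hp hζ hc hg hρ hz1 hχ).1 h1,
      chb_ft_mul hχ (chb_ft_inv hz2), ?_⟩, rfl⟩
    exact cq_trans (cq_symm (key χ)) h2
  · rintro ⟨χ, ⟨h1, h2, h3⟩, rfl⟩
    exact ⟨(cnt_iff Gm X hp hζ hc hg hρ hz1 h1).2 h2, cq_trans (key χ) h3.2⟩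

theorem cnt [NeZero p] (hp : p.Prime) (hp2 : MOne p K) (hζ : IsPrimitiveRoot ζ p)
    (D' : RM K p ζ) (hS : D'.S = X.D.S0) {c : Gal(Ω/K) →* R} (hc : X.IsC c)
    {g : Finset X.Lb} (hg : X.Ok g) {z : (Gal(Ω/K) →* G) × (Gal(Ω/K) →* Wg p w)}
    (hz : Dl Gm X φ₁ c g z) :
    (LC Gm X φ₁ (rh X c g) g).ncard = yb Gm X φ₁ *
      Nat.card {d : g → Fin w → ZMod p // (∀ a : g, d a ∈ Gm.Del a.1.1) ∧
        (fun i k => (∑ a : g, D'.q (X.un a.1) i * d a k) - tx D'.q (cvl X.L z.2) i k) ∈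
          TT Gm X D' φ₁} := by
  have hz2 : H38.ML.FT z.2 := hz.2.1
  have hfin : {v | cvl X.L z.2 v ≠ 0}.Finite := cvl_fin X.L hz2
  have huS : ∀ a ∈ g, X.un a ∉ X.D.S0 := fun a ha => un_not X (hg.1 a ha).1
  -- the criterion for the total class
  have hcrit : ∀ d : g → Fin w → ZMod p,
      (∃ χ ∈ XB Gm X φ₁, ∀ v, v ∉ X.D.S0 →
        cvl X.L χ v = cntE Gm X d v - cvl X.L z.2 v) ↔
      (fun i k => (∑ a : g, D'.q (X.un a.1) i * d a k) - tx D'.q (cvl X.L z.2) i k) ∈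
          TT Gm X D' φ₁ := by
    intro d
    rw [← cntE_tx Gm X hg d D'.q hfin]
    refine xb_val Gm X φ₁ hp hp2 hζ D' hS (fun v => cntE Gm X d v - cvl X.L z.2 v) ?_ ?_
    · refine ((cntE_fin Gm X d).union hfin).subset ?_
      intro v hv
      by_contra h
      rw [Set.mem_union, not_or] at h
      have h1 : cntE Gm X d v = 0 := not_not.1 h.1
      have h2 : cvl X.L z.2 v = 0 := not_not.1 h.2
      apply hv
      change cntE Gm X d v - cvl X.L z.2 v = 0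
      rw [h1, h2, sub_zero]
    · intro v hv
      have h1 : cntE Gm X d v = 0 := by
        apply cntE_not
        intro a ha hav
        exact huS a ha (hav ▸ hv)
      change cntE Gm X d v - cvl X.L z.2 v = 0
      rw [h1, cvl_S0 X.L z.2 hv, sub_zero]
  set D := {d : g → Fin w → ZMod p // (∀ a : g, d a ∈ Gm.Del a.1.1) ∧
        (fun i k => (∑ a : g, D'.q (X.un a.1) i * d a k) - tx D'.q (cvl X.L z.2) i k) ∈
          TT Gm X D' φ₁} with hD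
  -- the values of an element of `cntP`
  have hval : ∀ χ ∈ cntP Gm X φ₁ g z.2, ∀ v, v ∉ X.D.S0 →
      cvl X.L χ v = cntE Gm X (fun a : g => cvl X.L χ (X.un a.1)) v := by
    intro χ hχ v hv
    by_cases h : ∃ a ∈ g, X.un a = v
    · obtain ⟨a, ha, rfl⟩ := h
      exact (cntE_un Gm X hg (fun a : g => cvl X.L χ (X.un a.1)) ⟨a, ha⟩).symm
    · push Not at h
      rw [cntE_not Gm X _ h]
      exact (cvl_one X.L χ v).1 (hχ.2.1.2 v hv h)
  have hmk : ∀ χ ∈ cntP Gm X φ₁ g z.2,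
      (∀ a : g, cvl X.L χ (X.un a.1) ∈ Gm.Del a.1.1) ∧
        (fun i k => (∑ a : g, D'.q (X.un a.1) i * cvl X.L χ (X.un a.1) k) -
          tx D'.q (cvl X.L z.2) i k) ∈ TT Gm X D' φ₁ := by
    intro χ hχ
    refine ⟨fun a => hχ.2.1.1 a.1 a.2, (hcrit fun a : g => cvl X.L χ (X.un a.1)).1
      ⟨χ * z.2⁻¹, hχ.2.2, fun v hv => ?_⟩⟩
    rw [cvl_mul, cvl_inv, ← hval χ hχ v hv, sub_eq_add_neg]
  have hrep : ∀ d : D, ∃ χ ∈ cntP Gm X φ₁ g z.2, ∀ a : g, cvl X.L χ (X.un a.1) = d.1 a := by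
    intro d
    obtain ⟨χ, hχ, h1⟩ := (hcrit d.1).2 d.2.2
    have h2 : ∀ v, v ∉ X.D.S0 → cvl X.L (χ * z.2) v = cntE Gm X d.1 v := by
      intro v hv
      rw [cvl_mul, h1 v hv, sub_add_cancel]
    have h3 : ∀ a : g, cvl X.L (χ * z.2) (X.un a.1) = d.1 a := by
      intro a
      rw [h2 _ (huS a.1 a.2), cntE_un Gm X hg]
    refine ⟨χ * z.2, ⟨chb_ft_mul hχ.1 hz2, ⟨fun a ha => ?_, fun v hv hn => ?_⟩, ?_⟩, h3⟩
    · rw [h3 ⟨a, ha⟩]
      exact d.2.1 ⟨a, ha⟩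
    · rw [cvl_one, h2 v hv, cntE_not Gm X _ hn]
    · rw [mul_inv_cancel_right]
      exact hχ
  choose rep hrep1 hrep2 using hrep
  have hinj : Set.InjOn (fun χ : Gal(Ω/K) →* Wg p w => twz Gm χ z.1) (cntP Gm X φ₁ g z.2) :=
    fun χ _ χ' _ h => twz_inj Gm h
  rw [cnt_img Gm X φ₁ hp hζ hc hg hz, hinj.ncard_image, yb, ← Nat.card_prod]
  change Nat.card (cntP Gm X φ₁ g z.2) = _
  apply Nat.card_congr
  have hdof : ∀ χ : cntP Gm X φ₁ g z.2, ∀ v, v ∉ X.D.S0 →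
      cvl X.L (rep ⟨fun a : g => cvl X.L χ.1 (X.un a.1), hmk χ.1 χ.2⟩) v = cvl X.L χ.1 v := by
    intro χ v hv
    rw [hval χ.1 χ.2 v hv, hval _ (hrep1 _) v hv]
    congr 1
    funext a
    exact hrep2 _ a
  refine ⟨fun χ => (⟨⟨(rep ⟨fun a : g => cvl X.L χ.1 (X.un a.1), hmk χ.1 χ.2⟩)⁻¹ * χ.1,
      chb_ft_mul (chb_ft_inv (hrep1 _).1) χ.2.1, fun v hv => ?_⟩, ?_⟩,
      ⟨fun a : g => cvl X.L χ.1 (X.un a.1), hmk χ.1 χ.2⟩),
    fun y => ⟨rep y.2 * y.1.1.1, chb_ft_mul (hrep1 _).1 y.1.1.2.1, ⟨fun a ha => ?_,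
      fun v hv hn => ?_⟩, ?_⟩, fun χ => ?_, fun y => ?_⟩
  · rw [cvl_one, cvl_mul, cvl_inv, hdof χ v hv, neg_add_cancel]
  · have h1 := xb_mul Gm X φ₁ (xb_inv Gm X φ₁
      (hrep1 ⟨fun a : g => cvl X.L χ.1 (X.un a.1), hmk χ.1 χ.2⟩).2.2) χ.2.2.2
    have h2 : (rep ⟨fun a : g => cvl X.L χ.1 (X.un a.1), hmk χ.1 χ.2⟩ * z.2⁻¹)⁻¹ *
        (χ.1 * z.2⁻¹) = (rep ⟨fun a : g => cvl X.L χ.1 (X.un a.1), hmk χ.1 χ.2⟩)⁻¹ * χ.1 := by
      rw [mul_inv_rev, inv_inv, mul_comm χ.1, mul_comm z.2, mul_assoc, mul_inv_cancel_left]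
    rw [h2] at h1
    exact h1
  · rw [cvl_mul, (cvl_one X.L _ _).1 (y.1.1.2.2 _ (huS a ha)), add_zero]
    exact (hrep1 y.2).2.1.1 a ha
  · rw [MonoidHom.mul_apply, (hrep1 y.2).2.1.2 v hv hn, y.1.1.2.2 v hv, mul_one]
  · have h1 := xb_mul Gm X φ₁ y.1.2 (hrep1 y.2).2.2
    have h2 : (y.1.1.1 : Gal(Ω/K) →* Wg p w) * (rep y.2 * z.2⁻¹) = rep y.2 * y.1.1.1 * z.2⁻¹ := by
      rw [← mul_assoc, mul_comm (y.1.1.1 : Gal(Ω/K) →* Wg p w)]
    rw [h2] at h1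
    exact h1
  · apply Subtype.ext
    exact mul_inv_cancel_left _ _
  · have h1 : (⟨fun a : g => cvl X.L (rep y.2 * y.1.1.1) (X.un a.1), hmk _
        ⟨chb_ft_mul (hrep1 _).1 y.1.1.2.1, ⟨fun a ha => by
          rw [cvl_mul, (cvl_one X.L _ _).1 (y.1.1.2.2 _ (huS a ha)), add_zero]
          exact (hrep1 y.2).2.1.1 a ha,
          fun v hv hn => by
            rw [MonoidHom.mul_apply, (hrep1 y.2).2.1.2 v hv hn, y.1.1.2.2 v hv, mul_one]⟩, by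
          have h1 := xb_mul Gm X φ₁ y.1.2 (hrep1 y.2).2.2
          have h2 : (y.1.1.1 : Gal(Ω/K) →* Wg p w) * (rep y.2 * z.2⁻¹) =
              rep y.2 * y.1.1.1 * z.2⁻¹ := by
            rw [← mul_assoc, mul_comm (y.1.1.1 : Gal(Ω/K) →* Wg p w)]
          rw [h2] at h1
          exact h1⟩⟩ : D) = y.2 := by
      apply Subtype.ext
      funext a
      change cvl X.L (rep y.2 * y.1.1.1) (X.un a.1) = y.2.1 a
      rw [cvl_mul, (cvl_one X.L _ _).1 (y.1.1.2.2 _ (huS a.1 a.2)), add_zero]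
      exact hrep2 y.2 a
    refine Prod.ext ?_ h1
    apply Subtype.ext
    apply Subtype.ext
    change (rep _)⁻¹ * (rep y.2 * y.1.1.1) = y.1.1.1
    rw [h1]
    exact inv_mul_cancel_left _ _

theorem lc_emp {c : Gal(Ω/K) →* R} {g : Finset X.Lb} (h : ¬ ∃ z, Dl Gm X φ₁ c g z) :
    LC Gm X φ₁ (rh X c g) g = ∅ := by
  rw [Set.eq_empty_iff_forall_notMem]
  rintro φ ⟨h1, h2⟩
  refine h ⟨(φ, 1), h1, chb_ft_one, ?_⟩
  change Cq X.D.S0 X.P Gm.T (twz Gm 1 φ) φ₁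
  rw [twz_one]
  exact h2

theorem dl_ex [NeZero p] (hp : p.Prime) (hp2 : MOne p K) (hζ : IsPrimitiveRoot ζ p)
    (hz : Z2 p K) (hφ₁ : H38.ML.FT φ₁) {c : Gal(Ω/K) →* R} (hc : X.IsC c)
    {g : Finset X.Lb} (hg : X.Ok g) (hev : ∀ a ∈ g, X.ev (rh X c g) a = 0)
    (hcv : Cv X.D.S0 X.P Gm.M (rh X c g) (Gm.pr.comp φ₁)) : ∃ z, Dl Gm X φ₁ c g z := by
  obtain ⟨φ₀, hφ₀⟩ := lfe Gm X hp hp2 hζ hz hc hg (rh_tw Gm X hp hζ hc g) hev hφ₁ hcv
  have h1 : Gm.pr.comp φ₀ = rh X c g := by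
    ext σ
    exact hφ₀.2.1 σ
  obtain ⟨δ, hδ, hδ1⟩ := twz_loc Gm hp hζ X.D X.P φ₀ φ₁ hφ₀.1 hφ₁ (by rw [h1]; exact hcv)
  exact ⟨(φ₀, δ), hφ₀, hδ, hδ1⟩

theorem dl_ev (hp : p.Prime) (hζ : IsPrimitiveRoot ζ p) {c : Gal(Ω/K) →* R} (hc : X.IsC c)
    {g : Finset X.Lb} (hg : X.Ok g) {z : (Gal(Ω/K) →* G) × (Gal(Ω/K) →* Wg p w)}
    (hz : Dl Gm X φ₁ c g z) : (∀ a ∈ g, X.ev (rh X c g) a = 0) ∧
      Cv X.D.S0 X.P Gm.M (rh X c g) (Gm.pr.comp φ₁) := by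
  obtain ⟨h1, h2, h3⟩ := hz
  refine ⟨fun a ha => ls_ev Gm X hp hζ hc hg (rh_tw Gm X hp hζ hc g) h1 ha, ?_⟩
  have h4 := cq_cv Gm h3
  have h5 : Gm.pr.comp (twz Gm z.2 z.1) = rh X c g := by
    ext σ
    rw [MonoidHom.comp_apply, twz_pr]
    exact h1.2.1 σ
  rw [h5] at h4
  exact h4

end H48.MG
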