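import Pool.Agent.H48.MG.Dfp
import Pool.Agent.H48.MF.Chx
import Pool.Agent.H1.AR.Sta
import Pool.Agent.H63.MC.CHb

/-!
# [H48 MG CZ] characters to Z with given values at the inertia generators, 110-160 lines. File Pool/Agent/H48/MG/Cz.lean

`tx_add`, `tx_sub`: for functions with finite support (`finsum_add_distrib`, `mul_add`; the support of `q v i * x v k` is in the support of `x`).
`cz`: for `k < w` let `m k : Pl K →₀ ℤ`, `m k v = ((x v k).val : ℤ)` (finite support; `Finsupp.ofSupportFinite`), `y k = (m k).prod fun v n => D'.pi v ^ n`, `χ σ = ofAdd (fun k => kk p ζ (y k) σ)` (a homomorphism of finite type: exactly as `chx`, see Pool/Agent/H48/MF/Chx.lean: `kk_mul`, `H38.ML.FT`; `kc` is of finite type).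
* values: for `v ∉ D.S0`: `kk p ζ (y k) (L.t v) = ord v (y k)` in `ZMod p` (`ld_kk_t` with `(L.ld v hv)`, `D.pi_self`; see `esc_ty` in MF/Esc.lean for its use), and `ord v (y k) = ∑ n * ord v (D'.pi v')` `= (x v k).val` modulo `p` (`D'.pi_self`, `D'.pi_ne`: `v, v' ∉ D'.S`; `h0`).
* at `S0`: `y k` is `PS p ζ D'.S` by `D'.prim_of` (`m k = 0` on `S`; `(m k).sum fun v n => (n : ZMod p) • D'.q v = 0` from `tx D'.q x = 0`: `finsum_eq_sum_of_support_subset`, `ZMod.natCast_zmod_val`), so `kk p ζ (y k) σ = 0` for `σ ∈ dec (P.P v)`, `v ∈ S0 = D'.S` by `ps_dec` (H1/AR/Sta.lean, with `F = K`; see how `chx_ps` in MF/Chx.lean uses it).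
-/

set_option autoImplicit false
set_option linter.dupNamespace false

open scoped NumberField
open IsDedekindDomain Filter Topology
open scoped Classical

noncomputable section

namespace H48.MG

open H63.MA H38.BB H38.BG H38.AS H57.PC H57.BRA H89.BRG H1.AR H48.MF

variable {p r w : ℕ} {K : Type} [Field K] [NumberField K] {Ω : Type} [Field Ω] [Algebra K Ω]
  {ζ : K}

private theorem tx_sup (q : Pl K → Fin r → ZMod p) (x : Pl K → Fin w → ZMod p)
    (hx : {v | x v ≠ 0}.Finite) (i : Fin r) (k : Fin w) :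
    (Function.support fun v => q v i * x v k).Finite := by
  refine hx.subset fun v hv => ?_
  intro h
  apply hv
  change q v i * x v k = 0
  rw [h, Pi.zero_apply, mul_zero]

theorem tx_add (q : Pl K → Fin r → ZMod p) (x y : Pl K → Fin w → ZMod p)
    (hx : {v | x v ≠ 0}.Finite) (hy : {v | y v ≠ 0}.Finite) :
    tx q (fun v => x v + y v) = tx q x + tx q y := by
  funext i k
  refine Eq.trans (finsum_congr fun v => ?_)
    (finsum_add_distrib (tx_sup q x hx i k) (tx_sup q y hy i k))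
  exact mul_add _ _ _

theorem tx_sub (q : Pl K → Fin r → ZMod p) (x y : Pl K → Fin w → ZMod p)
    (hx : {v | x v ≠ 0}.Finite) (hy : {v | y v ≠ 0}.Finite) :
    tx q (fun v => x v - y v) = tx q x - tx q y := by
  funext i k
  refine Eq.trans (finsum_congr fun v => ?_)
    (finsum_sub_distrib (tx_sup q x hx i k) (tx_sup q y hy i k))
  exact mul_sub _ _ _

/-- only the places with `q v ≠ 0` count -/
theorem tx_congr (q : Pl K → Fin r → ZMod p) (x y : Pl K → Fin w → ZMod p)
    (h : ∀ v, q v ≠ 0 → x v = y v) : tx q x = tx q y := by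
  funext i k
  refine finsum_congr fun v => ?_
  by_cases h0 : q v = 0
  · rw [h0, Pi.zero_apply, zero_mul, zero_mul]
  · rw [h v h0]

/-- the exponents -/
private theorem cz_m [NeZero p] (D' : RM K p ζ) (x : Pl K → Fin w → ZMod p)
    (hx : {v | x v ≠ 0}.Finite) (h0 : ∀ v ∈ D'.S, x v = 0) (k : Fin w) :
    ∃ y : Kˣ, (∀ v, v ∉ D'.S → ((ord v y : ℤ) : ZMod p) = x v k) ∧
      (tx D'.q x = 0 → PS p ζ D'.S y) := by
  have hf : (Function.support fun v => ((x v k).val : ℤ)).Finite := by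
    refine hx.subset fun v hv h => hv ?_
    change ((x v k).val : ℤ) = 0
    rw [h, Pi.zero_apply, ZMod.val_zero, Nat.cast_zero]
  obtain ⟨m, hm⟩ : ∃ m : Pl K →₀ ℤ, ∀ v, m v = ((x v k).val : ℤ) :=
    ⟨Finsupp.ofSupportFinite _ hf, fun v => rfl⟩
  have hmz : ∀ v, ((m v : ℤ) : ZMod p) = x v k := fun v => by
    rw [hm, Int.cast_natCast, ZMod.natCast_zmod_val]
  have hmS : ∀ v ∈ D'.S, m v = 0 := fun v hv => by
    rw [hm, h0 v hv, Pi.zero_apply, ZMod.val_zero, Nat.cast_zero]
  refine ⟨m.prod fun v n => D'.pi v ^ n, fun v hv => ?_, fun ht => ?_⟩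
  · rw [Finsupp.prod, ord_prod, Int.cast_sum, Finset.sum_eq_single v]
    · rw [ord_zpow, D'.pi_self v hv, mul_one, hmz]
    · intro v' hv' hne
      have h1 : v' ∉ D'.S := fun h => (Finsupp.mem_support_iff.1 hv') (hmS v' h)
      rw [ord_zpow, Int.cast_mul, D'.pi_ne v' v h1 hv (Ne.symm hne), mul_zero]
    · intro h
      rw [Finsupp.notMem_support_iff.1 h, zpow_zero, ord_one, Int.cast_zero]
  · refine D'.prim_of m hmS ?_
    funext i
    have h2 := congrFun (congrFun ht i) k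
    change ∑ᶠ v, D'.q v i * x v k = 0 at h2
    rw [finsum_eq_sum_of_support_subset _ (s := m.support) ?_] at h2
    · rw [Finsupp.sum, Finset.sum_apply, Pi.zero_apply, ← h2]
      refine Finset.sum_congr rfl fun v _ => ?_
      rw [Pi.smul_apply, smul_eq_mul, hmz, mul_comm]
    · intro v hv
      rw [Finset.mem_coe, Finsupp.mem_support_iff]
      intro h3
      apply hv
      change D'.q v i * x v k = 0
      rw [← hmz v, h3, Int.cast_zero, mul_zero]

theorem cz [IsAlgClosure K Ω] (hp : p.Prime) (hp2 : MOne p K) (hζ : IsPrimitiveRoot ζ p)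
    {D : RD0 K p ζ} (L : LDs D Ω) (P : DP K Ω) (D' : RM K p ζ) (hS : D'.S = D.S0)
    (x : Pl K → Fin w → ZMod p) (hx : {v | x v ≠ 0}.Finite) (h0 : ∀ v ∈ D.S0, x v = 0) :
    ∃ χ : Gal(Ω/K) →* Wg p w, H38.ML.FT χ ∧ (∀ v, v ∉ D.S0 → cvl L χ v = x v) ∧
      (tx D'.q x = 0 → ∀ v ∈ D.S0, ∀ σ ∈ dec (K := K) (P.P v), χ σ = 1) := by
  have : NeZero p := ⟨hp.ne_zero⟩
  choose y hy1 hy2 using cz_m D' x hx (fun v hv => h0 v (hS ▸ hv))
  obtain ⟨χ, hχ⟩ : ∃ χ : Gal(Ω/K) →* Wg p w, ∀ σ, Multiplicative.toAdd (χ σ) =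
      fun k => kk p ζ (y k) σ := by
    refine ⟨MonoidHom.mk' (fun σ => Multiplicative.ofAdd fun k => kk p ζ (y k) σ) ?_,
      fun σ => rfl⟩
    intro σ τ
    rw [← ofAdd_add]
    congr 1
    funext k
    rw [Pi.add_apply, kk_mul]
  have h1 : ∀ σ, (∀ k, kk p ζ (y k) σ = 0) → χ σ = 1 := fun σ h => by
    apply Multiplicative.toAdd.injective
    rw [hχ, toAdd_one]
    exact funext h
  refine ⟨χ, ?_, fun v hv => ?_, fun ht v hv σ hσ => ?_⟩
  · choose E hE hEk using fun k => (kc_is (Ω := Ω) hp hζ (y k)).1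
    refine ⟨⨆ k, E k, IntermediateField.finiteDimensional_iSup_of_finite, ?_⟩
    intro τ hτ
    rw [MonoidHom.mem_ker]
    refine h1 τ fun k => ?_
    have h2 : τ ∈ (E k).fixingSubgroup :=
      IntermediateField.fixingSubgroup_antitone (le_iSup E k) hτ
    have h3 := MonoidHom.mem_ker.1 (hEk k h2)
    unfold kk
    rw [h3, toAdd_one]
  · unfold cvl
    rw [hχ]
    funext k
    have h2 : L.t v = (L.ld v hv).t := by
      unfold LDs.t
      rw [dif_pos hv]
    rw [h2, ld_kk_t hp hζ (fun h => hv (D.above v h)) (D.pi_self v hv) (L.ld v hv),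
      hy1 k v (hS ▸ hv)]
  · refine h1 σ fun k => ?_
    exact ps_dec hp hp2 hζ (hy2 k ht) (hS ▸ hv) (P.prime v) (P.under v) hσ

end H48.MG
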