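import Pool.Agent.H48.MF.Ifc

/-!
# H48-MG: stage 2 of theorem (M) (MP_b39724_nt): no central element of least index; definitions shared by P2 / 2a / (ST) (text: think 1447)

* `Sz Gm`: `Z` is generated by the commutators of `V`.
* `Gnr Gm η`: `η : Q → Z^*` is additive and `η (H j)` vanishes on `Del j` (generic).
* `Algd Gm η`: aligned: there are functionals `f i` with `(f i - f j - η q) (om (y i) (q y j)) = 0`.
* `AL Gm X φ₁ c g φ ε`: `φ` is a lift of `rh X c g` to `G` of finite type, conjugate to `φ₁` on the decomposition groups of `S0`, of exponent `p` on the inertia groups outside `S0`, unramified at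
  the places outside `S0` of non-prime norm; `φ (t v) = z (ε v)` for the good places `v` not under `g`, `φ (t a) = z (ε (un a)) * g a.1` for `a ∈ g`.
* `Oe X η ε = ∑ v, η (φQ (F v)) (ε v)`, the phase.
-/

set_option autoImplicit false
set_option linter.dupNamespace false

open scoped NumberField
open IsDedekindDomain
open scoped Classical

noncomputable section

namespace H48.MG

open H63.MA H38.BB H38.BG H38.AS H57.PC H57.BRA H89.BRG H1.AR H48.MF

section group

variable {p u w N : ℕ} {G R Q : Type} [Group G] [Group R] [Group Q]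

/-- `Z` is generated by the commutators of `V` -/
def Sz (Gm : GM p u w N G R Q) : Prop :=
  ∀ θ : Fin w → ZMod p, (∀ x y, dt θ (Gm.M.om x y) = 0) → θ = 0

/-- generic functionals -/
structure Gnr (Gm : GM p u w N G R Q) (η : Q → Fin w → ZMod p) : Prop where
  mul : ∀ q q', η (q * q') = η q + η q'
  del : ∀ j, ∀ h ∈ Gm.M.H j, ∀ d ∈ Gm.Del j, dt (η h) d = 0

/-- aligned functionals -/
def Algd (Gm : GM p u w N G R Q) (η : Q → Fin w → ZMod p) : Prop :=
  ∃ f : Fin N → Fin w → ZMod p, ∀ i j q,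
    dt (f i - f j - η q) (Gm.M.om (Gm.M.y i) (Gm.M.act q (Gm.M.y j))) = 0

end group

variable {p u w N : ℕ} {G R Q : Type} [Group G] [Group R] [Group Q]
  {K : Type} [Field K] [NumberField K] {Ω : Type} [Field Ω] [Algebra K Ω] {ζ : K}

/-- lifts adapted to a family -/
structure AL [Fintype Q] (Gm : GM p u w N G R Q) (X : AD Gm.M K Ω ζ) (φ₁ : Gal(Ω/K) →* G)
    (c : Gal(Ω/K) →* R) (g : Finset X.Lb) (φ : Gal(Ω/K) →* G) (ε : Pl K → Fin w → ZMod p) :
    Prop where
  ft : H38.ML.FT φ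
  pr : ∀ σ, Gm.pr (φ σ) = rh X c g σ
  cq : Cq X.D.S0 X.P Gm.T φ φ₁
  pw : ∀ v, v ∉ X.D.S0 → ∀ τ ∈ inr X.L v, φ τ ^ p = 1
  un : ∀ v, v ∉ X.D.S0 → ¬ (nm v).Prime → ∀ τ ∈ inr X.L v, φ τ = 1
  fi : {v | ε v ≠ 0}.Finite
  e0 : ∀ v, ¬ X.D.Gd v → ε v = 0
  e1 : ∀ v, X.D.Gd v → (∀ a ∈ g, X.un a ≠ v) → φ (X.L.t v) = Gm.z (ε v)
  e2 : ∀ a ∈ g, φ (X.t a) = Gm.z (ε (X.un a)) * Gm.g a.1

/-- the phase -/
def Oe {Dg : MG p u w N R Q} (X : AD Dg K Ω ζ) (η : Q → Fin w → ZMod p)
    (ε : Pl K → Fin w → ZMod p) : ZMod p := ∑ᶠ v, dt (η (X.φQ (X.Fr.F v))) (ε v)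

end H48.MG
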