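import Pool.Agent.H48.MG.Defs
import Pool.Agent.H51.MT.Unb
import Pool.Agent.H48.MF.Grf

/-!
# H48-MG: the aligned case (2a of think 1447), definitions (complete)

Coordinates `k : Fin (uE Gm.M)` number the points of `E = Ei Gm.M`, the disjoint union of the `Q / H j` (H51/MT/Una, Unb: `ix`, `em`, `pe`, `yv`, `vp`).
* `pt k` the point with number `k`, `yk k = yv (pt k)` its vector, `pk q k` the number of `q` times the point `k`, `ok j` the number of the base point of class `j`.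
* `xg k ∈ G`: `π (pr (xg k))` is in the coset `(pt k).2`, `xg (ok j) = 1`. `gk k = xg k * g (pt k).1 * (xg k)⁻¹`. `dlk r k ∈ Z`: `sec r * gk k * (sec r)⁻¹ = z (dlk r k) * gk (pk (π r) k)`.
* `bbk m m' = ∑_{l < k} m_k m'_l om (yk k) (yk l)`. `NN m = ∏_k (gk k)^(m_k)` (in increasing order): `NN 0 = 1`, `NN (1_k) = gk k`, `NN m * NN m' = z (bbk m m') * NN (m + m')`.
* `thk r m ∈ Z`: `sec r * NN m * (sec r)⁻¹ = z (thk r m) * NN (pe (π r) m)`.
* For `η`, `f`: `rtk k = η (π (pr (xg k))) + f (pt k).1`, `Ak k l = rtk k (om (yk k) (yk l))`, `hbk m m' = ∑_{l < k} m_k m'_l Ak k l`,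
  `tht r m = ∑_k m_k rtk (r k) (dlk r k) + ∑_{k < l, r l < r k} m_k m_l Ak (r k) (r l)`.
* `Nd q c m φ`: `m` is a cocycle with values in the permutation module, `c` is over `q`, `pr φ = e (vp m) c`. `fz σ ∈ Z`: `φ σ = z (fz σ) * (NN (m σ) * sec (c σ))`.
* `Om σ τ = η (q σ) (fz τ) + tht (c σ) (m τ) + hbk (m σ) (pe (q σ) (m τ))`.
* `mg X g σ = ∑ a ∈ g, mm X a σ`.
-/

set_option autoImplicit false
set_option linter.dupNamespace false

open scoped NumberField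
open IsDedekindDomain
open scoped Classical

noncomputable section

namespace H48.MG

open H63.MA H38.BB H38.BG H38.AS H57.PC H57.BRA H89.BRG H1.AR H48.MF H51.MT

section group

variable {p u w N : ℕ} {G R Q : Type} [Group G] [Group R] [Group Q] [Fintype Q]
  (Gm : GM p u w N G R Q)

/-- the point with number `k` -/
def pt (k : Fin (uE Gm.M)) : Ei Gm.M := (ix Gm.M).symm k

/-- its vector -/
def yk (k : Fin (uE Gm.M)) : Fin u → ZMod p := yv Gm.M (pt Gm k)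

/-- the action on the numbers -/
def pk (q : Q) (k : Fin (uE Gm.M)) : Fin (uE Gm.M) := ix Gm.M (em Gm.M q (pt Gm k))

/-- the number of the base point of class `j` -/
def ok (j : Fin N) : Fin (uE Gm.M) := ix Gm.M ⟨j, QuotientGroup.mk 1⟩

/-- coset representatives in `G` -/
def xg (k : Fin (uE Gm.M)) : G := if (pt Gm k).2 = QuotientGroup.mk 1 then 1 else
  (Gm.prs (Gm.M.πs (Quotient.out (pt Gm k).2)).choose).choose

/-- the element of a point -/
def gk (k : Fin (uE Gm.M)) : G := xg Gm k * Gm.g (pt Gm k).1 * (xg Gm k)⁻¹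

/-- the shift of a point -/
def dlk (r : R) (k : Fin (uE Gm.M)) : Fin w → ZMod p :=
  if h : ∃ d, Gm.sec r * gk Gm k * (Gm.sec r)⁻¹ = Gm.z d * gk Gm (pk Gm (Gm.M.π r) k) then
    h.choose else 0

/-- the cocycle of the normal form -/
def bbk (m m' : Fin (uE Gm.M) → ZMod p) : Fin w → ZMod p :=
  ∑ k, ∑ l, if l < k then (m k * m' l) • Gm.M.om (yk Gm k) (yk Gm l) else 0

/-- the normal form -/
def NN : (Fin (uE Gm.M) → ZMod p) → G :=
  if h : ∃ n : (Fin (uE Gm.M) → ZMod p) → G, n 0 = 1 ∧ (∀ k, n (Pi.single k 1) = gk Gm k) ∧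
    ∀ m m', n m * n m' = Gm.z (bbk Gm m m') * n (m + m') then h.choose else fun _ => 1

/-- the shift of the normal form -/
def thk (r : R) (m : Fin (uE Gm.M) → ZMod p) : Fin w → ZMod p :=
  if h : ∃ d, Gm.sec r * NN Gm m * (Gm.sec r)⁻¹ = Gm.z d * NN Gm (pe Gm.M (Gm.M.π r) m) then
    h.choose else 0

variable (η : Q → Fin w → ZMod p) (f : Fin N → Fin w → ZMod p)

/-- the functional of a point -/
def rtk (k : Fin (uE Gm.M)) : Fin w → ZMod p := η (Gm.M.π (Gm.pr (xg Gm k))) + f (pt Gm k).1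

/-- the alternating form -/
def Ak (k l : Fin (uE Gm.M)) : ZMod p := dt (rtk Gm η f k) (Gm.M.om (yk Gm k) (yk Gm l))

/-- the form -/
def hbk (m m' : Fin (uE Gm.M) → ZMod p) : ZMod p :=
  ∑ k, ∑ l, if l < k then m k * m' l * Ak Gm η f k l else 0

/-- the quadratic function -/
def tht (r : R) (m : Fin (uE Gm.M) → ZMod p) : ZMod p :=
  ∑ k, m k * dt (rtk Gm η f (pk Gm (Gm.M.π r) k)) (dlk Gm r k) +
    ∑ k, ∑ l, if k < l ∧ pk Gm (Gm.M.π r) l < pk Gm (Gm.M.π r) k then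
      m k * m l * Ak Gm η f (pk Gm (Gm.M.π r) k) (pk Gm (Gm.M.π r) l) else 0

/-- the functionals `f` align `η` -/
def Alf : Prop := ∀ i j q, dt (f i - f j - η q) (Gm.M.om (Gm.M.y i) (Gm.M.act q (Gm.M.y j))) = 0

variable {Γ : Type} [Group Γ]

/-- normal form data -/
structure Nd (q : Γ →* Q) (c : Γ →* R) (m : Γ → Fin (uE Gm.M) → ZMod p) (φ : Γ →* G) : Prop where
  mc : ∀ σ τ, m (σ * τ) = m σ + pe Gm.M (q σ) (m τ)
  pi : ∀ σ, Gm.M.π (c σ) = q σ
  pr : ∀ σ, Gm.pr (φ σ) = Gm.M.e (vp Gm.M (m σ)) * c σ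

/-- the coordinate in `Z` -/
def fz (c : Γ →* R) (m : Γ → Fin (uE Gm.M) → ZMod p) (φ : Γ →* G) (σ : Γ) : Fin w → ZMod p :=
  if h : ∃ a, φ σ = Gm.z a * (NN Gm (m σ) * Gm.sec (c σ)) then h.choose else 0

/-- the cochain -/
def Om (q : Γ →* Q) (c : Γ →* R) (m : Γ → Fin (uE Gm.M) → ZMod p) (φ : Γ →* G) (σ τ : Γ) :
    ZMod p :=
  dt (η (q σ)) (fz Gm c m φ τ) + tht Gm η f (c σ) (m τ) + hbk Gm η f (m σ) (pe Gm.M (q σ) (m τ))

/-- the local function at `S0` -/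
def lsk (q : Γ →* Q) (c : Γ →* R) (m : Γ → Fin (uE Gm.M) → ZMod p) (μ : Fin (uE Gm.M) → ZMod p)
    (σ : Γ) : ZMod p :=
  hbk Gm η f μ (m σ) - tht Gm η f (c σ) μ + hbk Gm η f (pe Gm.M (q σ) μ) (pe Gm.M (q σ) μ) -
    hbk Gm η f (μ + m σ) (pe Gm.M (q σ) μ)

end group

/-- the cocycle of a family in the permutation module -/
def mg {p u w N : ℕ} {R Q : Type} [Group R] [Group Q] [Fintype Q] {Dg : MG p u w N R Q}
    {K : Type} [Field K] [NumberField K] {Ω : Type} [Field Ω] [Algebra K Ω] {ζ : K}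
    (X : AD Dg K Ω ζ) (g : Finset X.Lb) (σ : Gal(Ω/K)) : Fin (uE Dg) → ZMod p :=
  ∑ a ∈ g, mm X a σ

end H48.MG
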