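import Pool.Agent.H48.MG.Defs
import Pool.Agent.H48.MF.Grf

/-!
# H48-MG: the Fourier expansion of the number of lifts (P2), definitions (complete)

`D' : RM K p ζ` with `D'.S = X.D.S0`: classes `D'.q v` of the places of `K`.
* `tx q x`: the total class `∑ v, q v ⊗ x v` of `x : Pl K → Z`. `cvl L χ`: the values `χ (t v)` of a character. `pp κ x` the pairing. `tn q d = q ⊗ d`.
* `XB φ₁`: the characters `χ : Γ → Z` of finite type with `twz χ φ₁` conjugate to `φ₁` at `S0`. `TT` their total classes, `TP` the annihilator of `TT`. `yb` the number of elements of `XB` unramified outside `S0`.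
* `Dl φ₁ c g (φ₀, δ)`: `φ₀` is a lift of `rh X c g` with labels `g`, `twz δ φ₀` is conjugate to `φ₁` at `S0`.
* `Kc κ g`: `κ (q (un a) ⊗ Del a) = 0` for all `a ∈ g`. `phz κ c g`: the phase `e (- κ (total class of δ))`, `0` if `κ` is not in `TP` or not `Kc` or there is no `(φ₀, δ)`.
* `Gnk κ j`: `κ (q (un a) ⊗ Del j) = 0` for all good labels of class `j`.
-/

set_option autoImplicit false
set_option linter.dupNamespace false

open scoped NumberField
open IsDedekindDomain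
open scoped Classical

noncomputable section

namespace H48.MG

open H63.MA H38.BB H38.BG H38.AS H57.PC H57.BRA H89.BRG H1.AR H48.MF

section basic

variable {r w p : ℕ}

/-- the total class -/
def tx {K : Type} [Field K] [NumberField K] (q : Pl K → Fin r → ZMod p)
    (x : Pl K → Fin w → ZMod p) : Fin r → Fin w → ZMod p := fun i k => ∑ᶠ v, q v i * x v k

/-- the pairing -/
def pp (κ x : Fin r → Fin w → ZMod p) : ZMod p := ∑ i, ∑ k, κ i k * x i k

/-- the tensor product -/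
def tn (q : Fin r → ZMod p) (d : Fin w → ZMod p) : Fin r → Fin w → ZMod p := fun i k => q i * d k

/-- the values of a character at the inertia generators -/
def cvl {K : Type} [Field K] [NumberField K] {Ω : Type} [Field Ω] [Algebra K Ω] {ζ : K}
    {D : RD0 K p ζ} (L : LDs D Ω) (χ : Gal(Ω/K) →* Wg p w) (v : Pl K) : Fin w → ZMod p :=
  Multiplicative.toAdd (χ (L.t v))

end basic

variable {p u w N : ℕ} {G R Q : Type} [Group G] [Group R] [Group Q]
  {K : Type} [Field K] [NumberField K] {Ω : Type} [Field Ω] [Algebra K Ω] {ζ : K}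

/-- the characters which do not change the type of `φ₁` at `S0` -/
def XB (Gm : GM p u w N G R Q) (X : AD Gm.M K Ω ζ) (φ₁ : Gal(Ω/K) →* G) :
    Set (Gal(Ω/K) →* Wg p w) := {χ | H38.ML.FT χ ∧ Cq X.D.S0 X.P Gm.T (twz Gm χ φ₁) φ₁}

/-- their total classes -/
def TT (Gm : GM p u w N G R Q) (X : AD Gm.M K Ω ζ) (D' : RM K p ζ) (φ₁ : Gal(Ω/K) →* G) :
    Set (Fin D'.r → Fin w → ZMod p) := (fun χ => tx D'.q (cvl X.L χ)) '' XB Gm X φ₁

/-- the annihilator -/
def TP (Gm : GM p u w N G R Q) (X : AD Gm.M K Ω ζ) (D' : RM K p ζ) (φ₁ : Gal(Ω/K) →* G) :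
    Set (Fin D'.r → Fin w → ZMod p) := {κ | ∀ x ∈ TT Gm X D' φ₁, pp κ x = 0}

/-- the number of unramified elements of `XB` -/
def yb (Gm : GM p u w N G R Q) (X : AD Gm.M K Ω ζ) (φ₁ : Gal(Ω/K) →* G) : ℕ :=
  Nat.card {χ : chbU X.D X.L (Wg p w) // (χ : Gal(Ω/K) →* Wg p w) ∈ XB Gm X φ₁}

/-- a lift with a correction at `S0` -/
def Dl [Fintype Q] (Gm : GM p u w N G R Q) (X : AD Gm.M K Ω ζ) (φ₁ : Gal(Ω/K) →* G)
    (c : Gal(Ω/K) →* R) (g : Finset X.Lb) (z : (Gal(Ω/K) →* G) × (Gal(Ω/K) →* Wg p w)) : Prop :=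
  z.1 ∈ LS Gm X (rh X c g) g ∧ H38.ML.FT z.2 ∧ Cq X.D.S0 X.P Gm.T (twz Gm z.2 z.1) φ₁

/-- the condition on `κ` at the labels -/
def Kc (Gm : GM p u w N G R Q) (X : AD Gm.M K Ω ζ) (D' : RM K p ζ)
    (κ : Fin D'.r → Fin w → ZMod p) (g : Finset X.Lb) : Prop :=
  ∀ a ∈ g, ∀ d ∈ Gm.Del a.1, pp κ (tn (D'.q (X.un a)) d) = 0

/-- the phase -/
def phz [Fintype Q] (Gm : GM p u w N G R Q) (X : AD Gm.M K Ω ζ) (D' : RM K p ζ)
    (φ₁ : Gal(Ω/K) →* G) (κ : Fin D'.r → Fin w → ZMod p) (c : Gal(Ω/K) →* R)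
    (g : Finset X.Lb) : ℂ :=
  if h : κ ∈ TP Gm X D' φ₁ ∧ Kc Gm X D' κ g ∧ ∃ z, Dl Gm X φ₁ c g z then
    ep p (-(pp κ (tx D'.q (cvl X.L h.2.2.choose.2)))) else 0

/-- `κ` is generic at class `j` -/
def Gnk (Gm : GM p u w N G R Q) (X : AD Gm.M K Ω ζ) (D' : RM K p ζ)
    (κ : Fin D'.r → Fin w → ZMod p) (j : Fin N) : Prop :=
  ∀ z : Pl (X.F j), X.Gd ⟨j, z⟩ → ∀ d ∈ Gm.Del j, pp κ (tn (D'.q (X.un ⟨j, z⟩)) d) = 0

end H48.MG
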