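import Pool.Agent.H48.MG.Dfp
import Pool.Agent.H1.AR.RMc
import Pool.Agent.H1.AR.Axs

/-!
# [H48 MG RMK] reciprocity data modulo p over K itself, 20-40 lines. File Pool/Agent/H48/MG/Rmk.lean

`ClP p D.S0` holds: for `v ∉ D.S0` take `x = D.pi v` (`pi_self`, `pi_ne`: the other orders outside `S0` are `0`). `exists_RM` (H1/AR/RMc.lean) with `F = K`, `S = D.S0` (`D.above`).
-/

set_option autoImplicit false
set_option linter.dupNamespace false

open scoped NumberField
open IsDedekindDomain Filter Topology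
open scoped Classical

noncomputable section

namespace H48.MG

open H63.MA H38.BB H38.BG H38.AS H57.PC H57.BRA H89.BRG H1.AR H48.MF

theorem rmk {p : ℕ} {K : Type} [Field K] [NumberField K] {ζ : K} (hp : p.Prime) (hp2 : MOne p K)
    (hζ : IsPrimitiveRoot ζ p) (D : RD0 K p ζ) : ∃ D' : RM K p ζ, D'.S = D.S0 := by
  exact exists_RM hp hp2 hζ D.S0 D.above
    (fun v hv => ⟨D.pi v, D.pi_self v hv, fun w hw hne => by
      rw [D.pi_ne v w hv hw hne]; simp⟩)

end H48.MG
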