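import Pool.Agent.H48.MG.Dfp
import Pool.Agent.H48.MG.Rmk
import Pool.Agent.H1.AR.Dua
import Pool.Agent.H1.AR.Knn
import Pool.Agent.H1.AR.Lbl
import Pool.Agent.H48.MF.Grf

/-!
# [H48 MG ETA] the character of Q of a generic kappa, 150-220 lines. File Pool/Agent/H48/MG/Eta.lean

For `k < w` let `z k ∈ Kˣ` be from `dua` (over `K`, `D'`) for `i ↦ κ i k`: orders `0` outside `S0`, `lg p ζ v (z k) = ∑ i, κ i k * D'.q v i` for `v ∉ S0` of prime norm. `η₀ σ k = kk p ζ (z k) σ`, additive in `σ` (`kk_mul`). `kk p ζ (z k) (X.Fr.F v) = X.D.LL v (z k) = lg p ζ v (z k)` for `v ∉ S0` (`FR.kf`, `RD0.LL`, the order is `0`).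
(1) `eta1`: for `d ∈ Del j` and `σ` with `φQ σ ∈ H j`: `dt (η₀ σ) d = 0`. `σ = rsK σ'` (`X.fix`, `fld_range`). Let `y = ∏ k, z k ^ (d k).val`, `kk p ζ y = ∑ k, d k * kk p ζ (z k)` (`kk` of a product: `kk_mul_arg`-type lemmas, see Pool/Agent/H48/MF/Chx.lean, `kx_arg`). `kk (inc y) σ' = kk y (rsK σ')` (`bca_kk`). `inc K (X.F j) y` is a `p`-th power in `X.F j` (so `kk (inc y) σ' = 0`): otherwise `knn` over `F j` with `E = (X.A j).D.S` (`fld_mone`, `fld_zeta`) gives `w ∉ E` of prime norm with `lg w (inc y) ≠ 0` and order `0`; `a = ⟨j, w⟩` is good; `kk (inc y) ((X.A j).Fr w) = lgv w (pi w) (inc y) = lg w (inc y)` (`chb_fr`, H1/AR/ChE.lean). But it is `kk y (X.fb a)`, and by `lbl_f` (with `H = Multiplicative (ZMod p)`, the Kummer character `kc p ζ Ω (z k)` as `ρ`; values commute) `kk (z k) (X.fb a) = kk (z k) (F v) + n * kk (z k) (X.t a)`, `v = un a`, `kk (z k) (X.t a) = ord v (z k) = 0` (`ltb_pik`). So the value is `∑ k,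 d k * ∑ i, κ i k * D'.q v i = pp κ (tn (D'.q v) d) = 0` by `Gnk`. Contradiction.
(2) `σ ∈ ker φQ`: `η₀ σ = 0`: by `Sz` it is enough that `dt (η₀ σ) (om x y) = 0` for all `x, y`. The submodule `{x : ∀ y, dt (η₀ σ) (om x y) = 0}` contains the `y j` (`om (y j) y ∈ Zj ⊆ Del`: `zj_sub`, (1) with `φQ σ = 1 ∈ H j`) and is stable under `act q` (`om (act q x) y = om x (act q⁻¹ y)`: `om_act`, Pool/Agent/H1/AR, used in `van_symm'` in Cdg.lean), so it is `⊤` (`Gm.M.gen`).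
(3) `η q := η₀ σ` for a `σ` with `φQ σ = q` (`X.sur`, choice); independent of `σ` by (2) and additivity; `Gnr.mul`, `Gnr.del` (from (1)), values at `F v`.
-/

set_option autoImplicit false
set_option linter.dupNamespace false

open scoped NumberField
open IsDedekindDomain Filter Topology
open scoped Classical

noncomputable section

namespace H48.MG

open H63.MA H38.BB H38.BG H38.AS H57.PC H57.BRA H89.BRG H1.AR H48.MF

variable {p u w N : ℕ} {G R Q : Type} [Group G] [Group R] [Group Q] [Finite G] [Finite R]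
  [Fintype Q] (Gm : GM p u w N G R Q)
  {K : Type} [Field K] [NumberField K] {Ω : Type} [Field Ω] [Algebra K Ω] [IsAlgClosure K Ω]
  {ζ : K} (X : AD Gm.M K Ω ζ)

private theorem eta_dta (θ x y : Fin w → ZMod p) : dt θ (x + y) = dt θ x + dt θ y := by
  unfold dt
  rw [← Finset.sum_add_distrib]
  exact Finset.sum_congr rfl fun k _ => mul_add _ _ _

private theorem eta_dts (c : ZMod p) (θ x : Fin w → ZMod p) : dt θ (c • x) = c * dt θ x := by
  unfold dt
  rw [Finset.mul_sum]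
  refine Finset.sum_congr rfl fun k _ => ?_
  rw [Pi.smul_apply, smul_eq_mul]
  ring

omit [IsAlgClosure K Ω] in
private theorem eta_ll (D : RD0 K p ζ) {v : Pl K} {x : Kˣ} (h : ord v x = 0) :
    D.LL v x = lg p ζ v x := by
  unfold RD0.LL
  rw [h, neg_zero, zpow_zero, mul_one]

private theorem eta_kk (hp : p.Prime) (hζ : IsPrimitiveRoot ζ p) (z : Fin w → Kˣ)
    (d : Fin w → ZMod p) (σ : Gal(Ω/K)) :
    kk p ζ (∏ k, z k ^ ((d k).val : ℤ)) σ = dt (fun k => kk p ζ (z k) σ) d := by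
  have : NeZero p := ⟨hp.ne_zero⟩
  rw [kk_prod_arg hp hζ]
  unfold dt
  refine Finset.sum_congr rfl fun k _ => ?_
  rw [kk_zpow_arg hp hζ, Int.cast_natCast, ZMod.natCast_zmod_val, mul_comm]

omit [Finite G] [Finite R] in
/-- the value at a label -/
private theorem eta_fb (hp : p.Prime) (hζ : IsPrimitiveRoot ζ p) (hz : Z2 p K) {a : X.Lb}
    (ha : X.Gd a) {x : Kˣ} (hx : ord (X.un a) x = 0) :
    kk p ζ x (X.fb a) = lg p ζ (X.un a) x := by
  have hv : X.un a ∉ X.D.S0 := un_not X ha.1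
  obtain ⟨g, hg⟩ := lbl_ex X ha hv rfl
  have hpw : ∀ y : Multiplicative (ZMod p), y ^ p = 1 := by
    intro y
    apply Multiplicative.toAdd.injective
    rw [toAdd_pow, nsmul_eq_mul, CharP.cast_eq_zero, zero_mul, toAdd_one]
  have : NeZero p := ⟨hp.ne_zero⟩
  obtain ⟨n, hn⟩ := lbl_f X hp hζ hz ha hv rfl hg (kc p ζ Ω x) (kc_is hp hζ x).1
    (fun τ _ => hpw _)
  have ht : kc p ζ Ω x (X.t a) = 1 := by
    apply Multiplicative.toAdd.injective
    rw [toAdd_one]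
    have h1 := ltb_pik X hp hζ ha x
    rw [hx, Int.cast_zero] at h1
    exact h1
  rw [ht, one_pow, mul_one, mul_comm (kc p ζ Ω x g), mul_inv_cancel_right] at hn
  have h2 : kk p ζ x (X.fb a) = kk p ζ x (X.Fr.F (X.un a)) := by
    unfold kk
    rw [hn]
  rw [h2, X.Fr.kf _ hv x, eta_ll X.D hx]

theorem eta_ex (hp : p.Prime) (hp2 : MOne p K) (hζ : IsPrimitiveRoot ζ p) (hz : Z2 p K)
    (hSz : Sz Gm) (D' : RM K p ζ) (hS : D'.S = X.D.S0) (κ : Fin D'.r → Fin w → ZMod p)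
    (h : ∀ j, Gnk Gm X D' κ j) : ∃ η : Q → Fin w → ZMod p, Gnr Gm η ∧
      ∀ v, X.D.Gd v → ∀ k, η (X.φQ (X.Fr.F v)) k = ∑ i, κ i k * D'.q v i := by
  have hex : ∀ k, ∃ z : Kˣ, (∀ v, v ∉ D'.S → ord v z = 0) ∧
      (∀ v, v ∉ D'.S → (nm v).Prime → ∑ i, κ i k * D'.q v i = lg p ζ v z) := by
    intro k
    obtain ⟨z, h1, h2, -⟩ := dua hp hp2 hζ D' fun i => κ i k
    exact ⟨z, h1, h2⟩
  choose z hz1 hz2 using hex
  obtain ⟨η₀, hη₀⟩ : ∃ η₀ : Gal(Ω/K) → Fin w → ZMod p, η₀ = fun σ k => kk p ζ (z k) σ := ⟨_, rfl⟩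
  have hmul : ∀ σ τ, η₀ (σ * τ) = η₀ σ + η₀ τ := by
    intro σ τ
    rw [hη₀]
    funext k
    exact kk_mul (z k) σ τ
  -- the functional vanishes on `Del j`
  have hdel : ∀ j, ∀ d ∈ Gm.Del j, ∀ σ, X.φQ σ ∈ Gm.M.H j → dt (η₀ σ) d = 0 := by
    intro j d hd σ hσ
    have hc := fld_clo X j
    obtain ⟨y, hy⟩ : ∃ y : Kˣ, y = ∏ k, z k ^ ((d k).val : ℤ) := ⟨_, rfl⟩
    have hky : ∀ τ : Gal(Ω/K), kk p ζ y τ = dt (η₀ τ) d := by
      intro τ
      rw [hy, eta_kk hp hζ, hη₀]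
    obtain ⟨σ', rfl⟩ := (fld_range X j σ).2 hσ
    have hpow : IsPow p (inc K (X.F j) y) := by
      by_contra hb
      obtain ⟨t, htS, -, htp, ht0, htl⟩ := knn hp (fld_mone X hp2 j) (fld_zeta X hζ j) hb
        (X.A j).D.S
      have ha : X.Gd ⟨j, t⟩ := ⟨htS, htp⟩
      have hv : X.un ⟨j, t⟩ ∉ D'.S := by
        rw [hS]
        exact un_not X htS
      have hvp : (nm (X.un ⟨j, t⟩)).Prime := by
        rw [← ltb_nm X ha]
        exact htp
      apply htl
      have h1 := chb_fr X j (inc K (X.F j) y) htS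
      unfold lgv at h1
      rw [ht0, neg_zero, zpow_zero, mul_one] at h1
      rw [← h1, bca_kk hp hζ]
      have h2 : kk p ζ y (X.fb ⟨j, t⟩) = 0 := by
        rw [hky, ← h j t ha d hd, hη₀]
        unfold dt pp tn
        rw [Finset.sum_comm]
        refine Finset.sum_congr rfl fun k _ => ?_
        show kk p ζ (z k) (X.fb ⟨j, t⟩) * d k = _
        rw [eta_fb Gm X hp hζ hz ha (hz1 k _ hv), ← hz2 k _ hv hvp, Finset.sum_mul]
        refine Finset.sum_congr rfl fun i _ => ?_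
        ring
      exact h2
    rw [← hky, ← bca_kk hp hζ]
    exact (kk_eq_zero_iff hp (fld_zeta X hζ j) _).2 hpow σ'
  -- it vanishes on the kernel
  have hker : ∀ σ, X.φQ σ = 1 → η₀ σ = 0 := by
    intro σ hσ
    apply hSz
    obtain ⟨M, hM⟩ : ∃ M : Submodule (ZMod p) (Fin u → ZMod p), ∀ x, x ∈ M ↔
        ∀ y, dt (η₀ σ) (Gm.M.om x y) = 0 := by
      refine ⟨{ carrier := {x | ∀ y, dt (η₀ σ) (Gm.M.om x y) = 0}
                zero_mem' := ?_
                add_mem' := ?_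
                smul_mem' := ?_ }, fun x => Iff.rfl⟩
      · intro x x' hx hx' y
        rw [map_add, LinearMap.add_apply, eta_dta, hx y, hx' y, add_zero]
      · intro y
        rw [map_zero, LinearMap.zero_apply]
        unfold dt
        simp
      · intro c x hx y
        rw [map_smul, LinearMap.smul_apply, eta_dts, hx y, mul_zero]
    have htop : M = ⊤ := by
      refine Gm.M.gen M (fun q x hx => (hM _).2 fun y => ?_) fun j => (hM _).2 fun y => ?_
      · have h1 : y = Gm.M.act q (Gm.M.act q⁻¹ y) := by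
          rw [← Gm.M.act_mul, mul_inv_cancel, Gm.M.act_one]
        rw [h1, om_act]
        exact (hM x).1 hx _
      · refine hdel j _ (zj_sub Gm j ⟨y, rfl⟩) σ ?_
        rw [hσ]
        exact one_mem _
    intro x y
    exact (hM x).1 (by rw [htop]; exact Submodule.mem_top) y
  have hind : ∀ σ τ, X.φQ σ = X.φQ τ → η₀ σ = η₀ τ := by
    intro σ τ hστ
    have h1 := hker (σ * τ⁻¹) (by rw [map_mul, map_inv, hστ, mul_inv_cancel])
    have h2 := hmul (σ * τ⁻¹) τ
    rw [inv_mul_cancel_right, h1, zero_add] at h2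
    exact h2
  choose s hs using X.sur
  refine ⟨fun q => η₀ (s q), ⟨fun q q' => ?_, fun j q hq d hd => ?_⟩, fun v hv k => ?_⟩
  · show η₀ (s (q * q')) = η₀ (s q) + η₀ (s q')
    rw [← hmul]
    exact hind _ _ (by rw [map_mul, hs, hs, hs])
  · exact hdel j d hd (s q) (by rw [hs]; exact hq)
  · show η₀ (s (X.φQ (X.Fr.F v))) k = _
    have hv' : v ∉ D'.S := by
      rw [hS]
      exact hv.1
    rw [hind (s (X.φQ (X.Fr.F v))) (X.Fr.F v) (hs _), hη₀, hz2 k v hv' hv.2]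
    show kk p ζ (z k) (X.Fr.F v) = _
    rw [X.Fr.kf v hv.1, eta_ll X.D (hz1 k v hv')]

end H48.MG
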