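import Pool.Agent.H48.MG.Dfp
import Pool.Agent.H48.MF.Fta

/-!
# [H48 MG FOU] Fourier expansion of a number of solutions modulo a subgroup, 90-140 lines. File Pool/Agent/H48/MG/Fou.lean

`A = Fin r → Fin w → ZMod p`, `#A = p ^ (r * w)`, characters `x ↦ ep p (pp κ x)`, `κ ∈ A`.
* `fou1`: for a subgroup `T` of `A` and `x ∈ A`: `∑ κ, if κ ⊥ T then ep p (pp κ x) else 0 = if x ∈ T then #A / #T else 0`. Proof: `Ξ κ x := ep p (pp κ x)`. (1) `∑_{t ∈ T} ep p (pp κ t) = #T` if `κ ⊥ T`, else `0` (shift by an element `t₀ ∈ T` with `pp κ t₀ ≠ 0`; `ep` of a nonzero element is not `1`: as in `ft_zero` in MF/Fta.lean). (2) `∑_κ ep p (pp κ y) = #A` if `y = 0`, else `0` (the same; `y i k ≠ 0`, shift by `single`). So `∑_κ 1[κ ⊥ T] ep (pp κ x) = (#T)⁻¹ ∑_κ ∑_{t ∈ T} ep (pp κ (t + x)) = (#T)⁻¹ ∑_t #A 1[t + x = 0]` `= #A / #T 1[-x ∈ T]`.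
* `fou`: the number is `∑_{d, all d a ∈ Dl a} 1[∑ q a ⊗ d a - t ∈ T]` `= #T / #A ∑_{κ ⊥ T} ep (- pp κ t) ∏_a ∑_{d ∈ Dl a} ep (pp κ (q a ⊗ d))` (`Finset.prod_univ_sum`, `ep` of a sum is a product), and the inner sum is `#(Dl a)` or `0` (as (1)).
`ep` is in H63/MA (`ep_add`, `ep_zero`; see MF/Fta.lean for the lemmas used).
-/

set_option autoImplicit false
set_option linter.dupNamespace false

open scoped NumberField
open IsDedekindDomain Filter Topology
open scoped Classical

noncomputable section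

namespace H48.MG

open H63.MA H38.BB H38.BG H38.AS H57.PC H57.BRA H89.BRG H1.AR H48.MF

private theorem fou_sub {p : ℕ} [NeZero p] (hp : p.Prime) {B : Type} [AddCommGroup B] [Fintype B] (S : Set B)
    (hadd : ∀ x ∈ S, ∀ y ∈ S, x + y ∈ S) (hneg : ∀ x ∈ S, -x ∈ S) (f : B → ZMod p)
    (hf : ∀ x y, f (x + y) = f x + f y) :
    ∑ x : B, (if x ∈ S then ep p (f x) else 0) = if ∀ x ∈ S, f x = 0 then (Nat.card S : ℂ) else 0 := by
  by_cases h : ∀ x ∈ S, f x = 0
  · rw [if_pos h]
    have h1 : ∀ x : B, (if x ∈ S then ep p (f x) else 0) = if x ∈ S then (1 : ℂ) else 0 := by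
      intro x
      by_cases hx : x ∈ S
      · rw [if_pos hx, if_pos hx, h x hx, ep_zero]
      · rw [if_neg hx, if_neg hx]
    have h2 : Nat.card S = (Finset.univ.filter (· ∈ S)).card :=
      Nat.subtype_card (Finset.univ.filter (· ∈ S)) (by simp)
    rw [Finset.sum_congr rfl fun x _ => h1 x, Finset.sum_boole, h2]
  · rw [if_neg h]
    push Not at h
    obtain ⟨t, ht, hft⟩ := h
    have h2 : ∑ x : B, (if x ∈ S then ep p (f x) else 0) =
        ep p (f t) * ∑ x : B, (if x ∈ S then ep p (f x) else 0) := by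
      conv_lhs => rw [← Equiv.sum_comp (Equiv.addRight t)]
      rw [Finset.mul_sum]
      refine Finset.sum_congr rfl fun x _ => ?_
      rw [Equiv.coe_addRight]
      by_cases hx : x ∈ S
      · rw [if_pos (hadd x hx t ht), if_pos hx, hf, ep_add hp, mul_comm]
      · rw [if_neg, if_neg hx, mul_zero]
        intro hxt
        apply hx
        have h3 := hadd _ hxt _ (hneg t ht)
        rwa [add_neg_cancel_right] at h3
    have h3 : ep p (f t) ≠ 1 := fun h => hft ((ep_eq_one hp _).1 h)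
    have h4 : (ep p (f t) - 1) * ∑ x : B, (if x ∈ S then ep p (f x) else 0) = 0 := by
      rw [sub_mul, one_mul, ← h2, sub_self]
    rcases mul_eq_zero.1 h4 with h5 | h5
    · exact absurd (sub_eq_zero.1 h5) h3
    · exact h5

private theorem ep_sum' {p : ℕ} [NeZero p] (hp : p.Prime) {ι : Type} (s : Finset ι) (f : ι → ZMod p) :
    ep p (∑ a ∈ s, f a) = ∏ a ∈ s, ep p (f a) := by
  induction s using Finset.induction_on with
  | empty => rw [Finset.sum_empty, Finset.prod_empty, ep_zero]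
  | insert a s ha ih => rw [Finset.sum_insert ha, Finset.prod_insert ha, ep_add hp, ih]

section ppl

variable {p r w : ℕ}

private theorem pp_add_right (κ x y : Fin r → Fin w → ZMod p) : pp κ (x + y) = pp κ x + pp κ y := by
  unfold pp
  rw [← Finset.sum_add_distrib]
  refine Finset.sum_congr rfl fun i _ => ?_
  rw [← Finset.sum_add_distrib]
  refine Finset.sum_congr rfl fun k _ => ?_
  rw [Pi.add_apply, Pi.add_apply, mul_add]

private theorem pp_add_left (κ κ' x : Fin r → Fin w → ZMod p) : pp (κ + κ') x = pp κ x + pp κ' x := by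
  unfold pp
  rw [← Finset.sum_add_distrib]
  refine Finset.sum_congr rfl fun i _ => ?_
  rw [← Finset.sum_add_distrib]
  refine Finset.sum_congr rfl fun k _ => ?_
  rw [Pi.add_apply, Pi.add_apply, add_mul]

private theorem pp_zero (κ : Fin r → Fin w → ZMod p) : pp κ 0 = 0 := by
  unfold pp
  simp

private theorem pp_nondeg {y : Fin r → Fin w → ZMod p} (h : ∀ κ, pp κ y = 0) : y = 0 := by
  funext i k
  have h1 := h (Pi.single i (Pi.single k (1 : ZMod p)))
  unfold pp at h1
  rw [Finset.sum_eq_single i, Finset.sum_eq_single k] at h1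
  · rw [Pi.single_eq_same, Pi.single_eq_same, one_mul] at h1
    exact h1
  · intro j _ hj
    rw [Pi.single_eq_same, Pi.single_eq_of_ne hj, zero_mul]
  · intro h
    exact absurd (Finset.mem_univ k) h
  · intro j _ hj
    rw [Pi.single_eq_of_ne hj]
    simp
  · intro h
    exact absurd (Finset.mem_univ i) h

private theorem pp_orth [NeZero p] (hp : p.Prime) (y : Fin r → Fin w → ZMod p) :
    ∑ κ : Fin r → Fin w → ZMod p, ep p (pp κ y) = if y = 0 then (p : ℂ) ^ (r * w) else 0 := by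
  have h1 := fou_sub hp (Set.univ : Set (Fin r → Fin w → ZMod p)) (fun _ _ _ _ => Set.mem_univ _)
    (fun _ _ => Set.mem_univ _) (fun κ => pp κ y) (fun κ κ' => pp_add_left κ κ' y)
  simp only [Set.mem_univ, if_true, true_implies] at h1
  rw [h1]
  have h2 : Nat.card (Set.univ : Set (Fin r → Fin w → ZMod p)) = p ^ (r * w) := by
    rw [Nat.card_congr (Equiv.Set.univ _), Nat.card_eq_fintype_card, Fintype.card_fun, Fintype.card_fun, ZMod.card,
      Fintype.card_fin, Fintype.card_fin, ← pow_mul, mul_comm]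
  by_cases hy : y = 0
  · rw [if_pos hy, if_pos (fun κ => by rw [hy, pp_zero]), h2]
    push_cast
    rfl
  · rw [if_neg hy, if_neg (fun h => hy (pp_nondeg h))]

private theorem pp_sum (κ : Fin r → Fin w → ZMod p) {ι : Type} (s : Finset ι) (f : ι → Fin r → Fin w → ZMod p) :
    pp κ (∑ a ∈ s, f a) = ∑ a ∈ s, pp κ (f a) := by
  induction s using Finset.induction_on with
  | empty => rw [Finset.sum_empty, Finset.sum_empty, pp_zero]
  | insert a s ha ih => rw [Finset.sum_insert ha, Finset.sum_insert ha, pp_add_right, ih]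

private theorem pp_neg (κ x : Fin r → Fin w → ZMod p) : pp κ (-x) = -pp κ x := by
  have h := pp_add_right κ (-x) x
  rw [neg_add_cancel, pp_zero] at h
  exact eq_neg_of_add_eq_zero_left h.symm

private theorem fou_T [NeZero p] (hp : p.Prime) (T : Set (Fin r → Fin w → ZMod p))
    (t0 : (0 : Fin r → Fin w → ZMod p) ∈ T) (tadd : ∀ x ∈ T, ∀ y ∈ T, x + y ∈ T)
    (tneg : ∀ x ∈ T, -x ∈ T) (x : Fin r → Fin w → ZMod p) :
    (if x ∈ T then (1 : ℂ) else 0) = (Nat.card T : ℂ) / (p : ℂ) ^ (r * w) *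
      ∑ κ : Fin r → Fin w → ZMod p, if ∀ y ∈ T, pp κ y = 0 then ep p (pp κ x) else 0 := by
  have hT : (Nat.card T : ℂ) ≠ 0 := by
    have h1 : 0 < Nat.card T := by
      haveI : Nonempty T := ⟨⟨0, t0⟩⟩
      exact Nat.card_pos
    exact_mod_cast h1.ne'
  have hP : (p : ℂ) ^ (r * w) ≠ 0 := pow_ne_zero _ (by exact_mod_cast hp.ne_zero)
  have key : (Nat.card T : ℂ) * ∑ κ : Fin r → Fin w → ZMod p, (if ∀ y ∈ T, pp κ y = 0 then ep p (pp κ x) else 0) =
      if x ∈ T then (p : ℂ) ^ (r * w) else 0 := by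
    rw [Finset.mul_sum]
    have h1 : ∀ κ : Fin r → Fin w → ZMod p, (Nat.card T : ℂ) * (if ∀ y ∈ T, pp κ y = 0 then ep p (pp κ x) else 0) =
        ∑ y : Fin r → Fin w → ZMod p, if y ∈ T then ep p (pp κ (y + x)) else 0 := by
      intro κ
      have h2 := fou_sub hp T tadd tneg (fun y => pp κ y) (pp_add_right κ)
      have h3 : ∑ y : Fin r → Fin w → ZMod p, (if y ∈ T then ep p (pp κ (y + x)) else 0) =
          (∑ y : Fin r → Fin w → ZMod p, if y ∈ T then ep p (pp κ y) else 0) * ep p (pp κ x) := by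
        rw [Finset.sum_mul]
        refine Finset.sum_congr rfl fun y _ => ?_
        rw [pp_add_right, ep_add hp]
        split_ifs
        · rfl
        · rw [zero_mul]
      rw [h3, h2]
      split_ifs
      · rfl
      · rw [mul_zero, zero_mul]
    rw [Finset.sum_congr rfl fun κ _ => h1 κ, Finset.sum_comm]
    have h4 : ∀ y : Fin r → Fin w → ZMod p, ∑ κ : Fin r → Fin w → ZMod p, (if y ∈ T then ep p (pp κ (y + x)) else 0) =
        if y = -x then (if x ∈ T then (p : ℂ) ^ (r * w) else 0) else 0 := by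
      intro y
      by_cases hy : y ∈ T
      · simp only [if_pos hy]
        rw [pp_orth hp]
        by_cases h5 : y = -x
        · have h6 : x ∈ T := by
            have h7 := tneg y hy
            rwa [h5, neg_neg] at h7
          rw [if_pos h5, if_pos h6, if_pos (by rw [h5, neg_add_cancel])]
        · rw [if_neg h5, if_neg fun h => h5 (eq_neg_of_add_eq_zero_left h)]
      · simp only [if_neg hy]
        rw [Finset.sum_const_zero]
        by_cases h5 : y = -x
        · rw [if_pos h5, if_neg]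
          intro h6
          exact hy (h5 ▸ tneg x h6)
        · rw [if_neg h5]
    rw [Finset.sum_congr rfl fun y _ => h4 y, Finset.sum_ite_eq' Finset.univ (-x), if_pos (Finset.mem_univ _)]
  have h8 : (if x ∈ T then (1 : ℂ) else 0) = (if x ∈ T then (p : ℂ) ^ (r * w) else 0) / (p : ℂ) ^ (r * w) := by
    split_ifs
    · rw [div_self hP]
    · rw [zero_div]
  rw [h8, ← key]
  ring

end ppl

theorem fou {p r w : ℕ} [NeZero p] (hp : p.Prime) {ι : Type} [Fintype ι] (q : ι → Fin r → ZMod p)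
    (Dl : ι → Set (Fin w → ZMod p)) (h0 : ∀ a, (0 : Fin w → ZMod p) ∈ Dl a)
    (hadd : ∀ a, ∀ x ∈ Dl a, ∀ y ∈ Dl a, x + y ∈ Dl a)
    (hneg : ∀ a, ∀ x ∈ Dl a, -x ∈ Dl a) (T : Set (Fin r → Fin w → ZMod p))
    (t0 : (0 : Fin r → Fin w → ZMod p) ∈ T) (tadd : ∀ x ∈ T, ∀ y ∈ T, x + y ∈ T)
    (tneg : ∀ x ∈ T, -x ∈ T) (t : Fin r → Fin w → ZMod p) :
    (Nat.card {d : ι → Fin w → ZMod p // (∀ a, d a ∈ Dl a) ∧
      (fun i k => (∑ a, q a i * d a k) - t i k) ∈ T} : ℂ) =
      (Nat.card T : ℂ) / (p : ℂ) ^ (r * w) * ∑ κ : Fin r → Fin w → ZMod p,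
        if ∀ x ∈ T, pp κ x = 0 then ep p (-(pp κ t)) * ∏ a, (if ∀ d ∈ Dl a, pp κ (tn (q a) d) = 0
          then (Nat.card (Dl a) : ℂ) else 0) else 0 := by
  have e0 : ∀ d : ι → Fin w → ZMod p, (fun i k => (∑ a, q a i * d a k) - t i k) =
      (∑ a, tn (q a) (d a)) + -t := by
    intro d
    funext i k
    rw [Pi.add_apply, Pi.add_apply, Finset.sum_apply, Finset.sum_apply, Pi.neg_apply, Pi.neg_apply, sub_eq_add_neg]
    rfl
  have e1 : (Nat.card {d : ι → Fin w → ZMod p // (∀ a, d a ∈ Dl a) ∧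
      (fun i k => (∑ a, q a i * d a k) - t i k) ∈ T} : ℂ) =
      ∑ d : ι → Fin w → ZMod p, (∏ a, if d a ∈ Dl a then (1 : ℂ) else 0) *
        (if (∑ a, tn (q a) (d a)) + -t ∈ T then (1 : ℂ) else 0) := by
    have h1 : Nat.card {d : ι → Fin w → ZMod p // (∀ a, d a ∈ Dl a) ∧
        (fun i k => (∑ a, q a i * d a k) - t i k) ∈ T} = (Finset.univ.filter fun d : ι → Fin w → ZMod p =>
          (∀ a, d a ∈ Dl a) ∧ (∑ a, tn (q a) (d a)) + -t ∈ T).card :=
      Nat.subtype_card _ (by
        intro d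
        rw [Finset.mem_filter, e0 d]
        simp)
    rw [h1, ← Finset.sum_boole]
    refine Finset.sum_congr rfl fun d _ => ?_
    by_cases h2 : ∀ a, d a ∈ Dl a
    · rw [Finset.prod_congr rfl fun a _ => if_pos (h2 a), Finset.prod_const_one, one_mul]
      by_cases h3 : (∑ a, tn (q a) (d a)) + -t ∈ T
      · rw [if_pos ⟨h2, h3⟩, if_pos h3]
      · rw [if_neg fun h => h3 h.2, if_neg h3]
    · rw [if_neg fun h => h2 h.1]
      push Not at h2
      obtain ⟨a, ha⟩ := h2
      rw [Finset.prod_eq_zero (Finset.mem_univ a) (if_neg ha), zero_mul]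
  rw [e1]
  have e2 : ∀ κ : Fin r → Fin w → ZMod p, ∀ a, (∑ d : Fin w → ZMod p, if d ∈ Dl a then ep p (pp κ (tn (q a) d)) else 0) =
      if ∀ d ∈ Dl a, pp κ (tn (q a) d) = 0 then (Nat.card (Dl a) : ℂ) else 0 := by
    intro κ a
    refine fou_sub hp (Dl a) (hadd a) (hneg a) (fun d => pp κ (tn (q a) d)) fun x y => ?_
    rw [← pp_add_right]
    congr 1
    funext i k
    exact mul_add _ _ _
  have e3 : ∀ d : ι → Fin w → ZMod p, (∏ a, if d a ∈ Dl a then (1 : ℂ) else 0) *
        (if (∑ a, tn (q a) (d a)) + -t ∈ T then (1 : ℂ) else 0) =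
      (Nat.card T : ℂ) / (p : ℂ) ^ (r * w) * ∑ κ : Fin r → Fin w → ZMod p,
        if ∀ x ∈ T, pp κ x = 0 then ep p (-(pp κ t)) *
          ∏ a, (if d a ∈ Dl a then ep p (pp κ (tn (q a) (d a))) else 0) else 0 := by
    intro d
    rw [fou_T hp T t0 tadd tneg, mul_left_comm, Finset.mul_sum]
    congr 1
    refine Finset.sum_congr rfl fun κ _ => ?_
    rw [mul_ite, mul_zero]
    congr 1
    rw [pp_add_right, pp_neg, pp_sum, ep_add hp, ep_sum' hp, ← mul_assoc, ← Finset.prod_mul_distrib, mul_comm]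
    congr 1
    refine Finset.prod_congr rfl fun a _ => ?_
    rw [ite_mul, one_mul, zero_mul]
  rw [Finset.sum_congr rfl fun d _ => e3 d, ← Finset.mul_sum, Finset.sum_comm]
  congr 1
  refine Finset.sum_congr rfl fun κ _ => ?_
  by_cases h : ∀ x ∈ T, pp κ x = 0
  · simp only [if_pos h]
    rw [← Finset.mul_sum, ← Finset.prod_congr rfl fun a _ => e2 κ a, Finset.prod_univ_sum, Fintype.piFinset_univ]
  · simp only [if_neg h]
    rw [Finset.sum_const_zero]

end H48.MG
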