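import Pool.Agent.H48.MG.Cnt
import Pool.Agent.H48.MG.Fou
import Pool.Agent.H48.MG.Phe

/-!
# [H48 MG FTH] the weighted number of lifts is a sum of phases, 90-140 lines. File Pool/Agent/H48/MG/Fth.lean

`c0 = yb * #TT / p ^ (r w)`. Case 1: there is `z` with `Dl`. `cnt`, then `fou` for `ι = g`, `q a = D'.q (un a)`, `Dl a = Del a.1` (`del_zero`, `del_add`, `del_neg`), `T = TT` (`tt_zero`, `tt_add`, `tt_neg`), `t = tx D'.q (cvl z.2)`. For fixed `κ`: `∏_{a ∈ g} (if .. then #Del else 0)` is `∏ #Del` if `Kc κ g`, else `0`; if `κ ∈ TP` and `Kc κ g` then `ep (- pp κ t) = phz κ c g` (`phz_eq`), otherwise `phz κ c g = 0` (`dif_neg`). All `ev` vanish on `g` (`dl_ev`), so `wz = ∏ #Zj`, and `∏ rt * ∏ #Del = ∏ #Zj` (`GM.rt`, `rt_pos`: `#Del > 0`). (`Finset.prod_coe_sort` / `Finset.prod_attach` between `g` as a type and as a set.)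
Case 2: no such `z`: `lc_emp`, all `phz = 0` (`dif_neg`).
-/

set_option autoImplicit false
set_option linter.dupNamespace false

open scoped NumberField
open IsDedekindDomain Filter Topology
open scoped Classical

noncomputable section

namespace H48.MG

open H63.MA H38.BB H38.BG H38.AS H57.PC H57.BRA H89.BRG H1.AR H48.MF

variable {p u w N : ℕ} {G R Q : Type} [Group G] [Group R] [Group Q] [Finite G] [Finite R]
  [Fintype Q] (Gm : GM p u w N G R Q)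
  {K : Type} [Field K] [NumberField K] {Ω : Type} [Field Ω] [Algebra K Ω] [IsAlgClosure K Ω]
  {ζ : K} (X : AD Gm.M K Ω ζ) (φ₁ : Gal(Ω/K) →* G)

/-- the constant -/
def c0 (D' : RM K p ζ) : ℝ := (yb Gm X φ₁ : ℝ) * Nat.card (TT Gm X D' φ₁) / (p : ℝ) ^ (D'.r * w)

theorem fth [NeZero p] (hp : p.Prime) (hp2 : MOne p K) (hζ : IsPrimitiveRoot ζ p)
    (D' : RM K p ζ) (hS : D'.S = X.D.S0) {c : Gal(Ω/K) →* R} (hc : X.IsC c)
    {g : Finset X.Lb} (hg : X.Ok g) :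
    (((∏ a ∈ g, Gm.rt a.1) * ((LC Gm X φ₁ (rh X c g) g).ncard : ℝ) : ℝ) : ℂ) =
      (c0 Gm X φ₁ D' : ℂ) * ∑ κ : Fin D'.r → Fin w → ZMod p,
        phz Gm X D' φ₁ κ c g * wz Gm X c g := by
  by_cases hex : ∃ z, Dl Gm X φ₁ c g z
  · obtain ⟨z, hz⟩ := hex
    have hev := (dl_ev Gm X φ₁ hp hζ hc hg hz).1
    have h1 := cnt Gm X φ₁ hp hp2 hζ D' hS hc hg hz
    have h2 := fou hp (fun a : g => D'.q (X.un a.1)) (fun a : g => Gm.Del a.1.1)
      (fun a => del_zero Gm a.1.1) (fun a x hx y hy => del_add Gm a.1.1 hx hy)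
      (fun a x hx => del_neg Gm a.1.1 hx) (TT Gm X D' φ₁) (tt_zero Gm X φ₁ D')
      (fun x hx y hy => tt_add Gm X φ₁ D' hx hy) (fun x hx => tt_neg Gm X φ₁ D' hx)
      (tx D'.q (cvl X.L z.2))
    have h3 : ∀ κ : Fin D'.r → Fin w → ZMod p, (if ∀ x ∈ TT Gm X D' φ₁, pp κ x = 0 then
        ep p (-(pp κ (tx D'.q (cvl X.L z.2)))) * ∏ a : g, (if ∀ d ∈ Gm.Del a.1.1,
          pp κ (tn (D'.q (X.un a.1)) d) = 0 then (Nat.card (Gm.Del a.1.1) : ℂ) else 0) else 0) =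
        phz Gm X D' φ₁ κ c g * ((∏ a ∈ g, Nat.card (Gm.Del a.1) : ℕ) : ℂ) := by
      intro κ
      by_cases hκ : κ ∈ TP Gm X D' φ₁
      · rw [if_pos (show ∀ x ∈ TT Gm X D' φ₁, pp κ x = 0 from hκ)]
        by_cases hk : Kc Gm X D' κ g
        · rw [phz_eq Gm X φ₁ hp hζ D' hS hκ hc hg hk hz]
          congr 1
          rw [Finset.prod_congr rfl (fun (a : g) _ => if_pos (hk a.1 a.2)), Nat.cast_prod]
          exact Finset.prod_coe_sort g fun a => (Nat.card (Gm.Del a.1) : ℂ)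
        · have h4 : phz Gm X D' φ₁ κ c g = 0 := by
            unfold phz
            rw [dif_neg (fun h => hk h.2.1)]
          rw [h4, zero_mul]
          have h5 : ∃ a, a ∈ g ∧ ¬ ∀ d ∈ Gm.Del a.1, pp κ (tn (D'.q (X.un a)) d) = 0 := by
            by_contra hcon
            push Not at hcon
            exact hk hcon
          obtain ⟨a, ha, h6⟩ := h5
          rw [Finset.prod_eq_zero (Finset.mem_univ (⟨a, ha⟩ : g)) (if_neg h6), mul_zero]
      · rw [if_neg (show ¬ ∀ x ∈ TT Gm X D' φ₁, pp κ x = 0 from hκ)]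
        have h4 : phz Gm X D' φ₁ κ c g = 0 := by
          unfold phz
          rw [dif_neg (fun h => hκ h.1)]
        rw [h4, zero_mul]
    rw [Finset.sum_congr rfl (fun κ _ => h3 κ), ← Finset.sum_mul] at h2
    have h4 : wz Gm X c g = ((∏ a ∈ g, Nat.card (Gm.Zj a.1) : ℕ) : ℂ) := by
      unfold wz
      rw [if_pos hev]
    have hpos : ((∏ a ∈ g, Nat.card (Gm.Del a.1) : ℕ) : ℂ) ≠ 0 := by
      have h5 : 0 < ∏ a ∈ g, Nat.card (Gm.Del a.1) :=
        Finset.prod_pos fun a _ => (rt_pos Gm a.1).2.2.1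
      exact_mod_cast h5.ne'
    have h5 : ((∏ a ∈ g, Gm.rt a.1 : ℝ) : ℂ) = ((∏ a ∈ g, Nat.card (Gm.Zj a.1) : ℕ) : ℂ) /
        ((∏ a ∈ g, Nat.card (Gm.Del a.1) : ℕ) : ℂ) := by
      unfold GM.rt
      rw [Finset.prod_div_distrib]
      push_cast
      rfl
    obtain ⟨dd, hdd⟩ : ∃ dd : ℂ, dd = ((∏ a ∈ g, Nat.card (Gm.Del a.1) : ℕ) : ℂ) := ⟨_, rfl⟩
    obtain ⟨zz, hzz⟩ : ∃ zz : ℂ, zz = ((∏ a ∈ g, Nat.card (Gm.Zj a.1) : ℕ) : ℂ) := ⟨_, rfl⟩
    rw [← hdd] at hpos h5 h2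
    rw [← hzz] at h4 h5
    rw [Complex.ofReal_mul, h5, Complex.ofReal_natCast, h1, Nat.cast_mul, h2, ← Finset.sum_mul, h4]
    unfold c0
    push_cast
    field_simp
  · rw [lc_emp Gm X φ₁ hex, Set.ncard_empty, Nat.cast_zero, mul_zero, Complex.ofReal_zero]
    have h1 : ∀ κ : Fin D'.r → Fin w → ZMod p, phz Gm X D' φ₁ κ c g * wz Gm X c g = 0 := by
      intro κ
      have h4 : phz Gm X D' φ₁ κ c g = 0 := by
        unfold phz
        rw [dif_neg (fun h => hex h.2.2)]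
      rw [h4, zero_mul]
    rw [Finset.sum_congr rfl (fun κ _ => h1 κ), Finset.sum_const_zero, mul_zero]

end H48.MG
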