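import Pool.Agent.H48.MG.Dfa

/-!
# [H48 MG GEL] the elements of the points, their conjugates, 100-150 lines. File Pool/Agent/H48/MG/Gel.lean

Definitions: Dfa.lean. Helper51's files Una, Unb: `em_one`, `em_mul`, `pe_em`, `pe_bs` (`bs Dg e = Pi.single (ix Dg e) 1`), `yv_mk`, `yv_em`, `vp_bs`.
* `pt_pk`, `pk_one`, `pk_mul`, `pk_cl`: `Equiv.symm_apply_apply`, `em_one`, `em_mul`, definition of `em`. `pk_bij`: inverse `pk q⁻¹`.
* `xg_mk`: case `(pt k).2 = mk 1`: `pr 1 = 1`, `π 1 = 1`. Otherwise `choose_spec` twice: `π (pr (xg k)) = Quotient.out (pt k).2`, `QuotientGroup.out_eq'`.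
* `xg_pk`: both sides are in the coset `q • (pt k).2` (`xg_mk` for `pk q k`, `pt_pk`, definition of `em`); to avoid dependent types: generalise `pt (pk q k) = e'`, or prove first: if `(⟨j, mk s⟩ : Ei) = ⟨j, mk s'⟩` then `∃ h ∈ H j, s' = s * h` (`QuotientGroup.eq`, `Sigma.mk.inj_iff`, `eq_of_heq`).
* `gk_pr`: `pr (gk k) = pr x * e (y i) * (pr x)⁻¹ = e (act (π (pr x)) (y i))` (`Gm.gy`, `Gm.M.conj`), `= e (yk k)`: `yv_mk` with `pt k = ⟨i, mk (π (pr x))⟩` (`xg_mk`). `gk_pow`: `conj_pow`, `Gm.gp`. `gk_ok`: `xg = 1`.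
* `gk_conj`: `x = z a * sec (pr x)` (`gm_fib`, `Gm.sec_pr`), `z a` central; the existence in the definition of `dlk`: `pr` of both `sec r * gk k * (sec r)⁻¹` and `gk (pk (π r) k)` is `e (act (π r) (yk k))` (`yk_pk`), `gm_fib`.
* `gk_comm`: `gm_comm` (`e x`, `e y` commute: `Gm.M.eadd`, `add_comm`), `Gm.M.iv_om`.
* `dlk_del`: `Del j` is the set of the `d` with `z d * g j` conjugate to `g j`: by `gk_conj` with `x = sec r`: `z d * gk (pk q k) = x * gk k * x⁻¹`, `gk k` is conjugate to `g j` by `xg k`, and `z d * gk (pk q k)` is conjugate to `z d * g j` by `xg (pk q k)` (`pk_cl`: same class `j`; `zcen`).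
* `om_del`: `yk k = act q (y j)` with `q = π (pr (xg k))`, `om (act q (y j)) x = om (y j) (act q⁻¹ x)` (`om_act`, `Gm.M.act_mul`, see the proof of `lc_mk` in H51/MT/Unb.lean), `zj_sub`.
-/

set_option autoImplicit false
set_option linter.dupNamespace false

open scoped NumberField
open IsDedekindDomain Filter Topology
open scoped Classical

noncomputable section

namespace H48.MG

open H63.MA H38.BB H38.BG H38.AS H57.PC H57.BRA H89.BRG H1.AR H48.MF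

open H51.MT

variable {p u w N : ℕ} {G R Q : Type} [Group G] [Group R] [Group Q] [Fintype Q]
  (Gm : GM p u w N G R Q)

theorem pt_pk (q : Q) (k : Fin (uE Gm.M)) : pt Gm (pk Gm q k) = em Gm.M q (pt Gm k) := by
  exact (ix Gm.M).symm_apply_apply _

theorem pk_one (k : Fin (uE Gm.M)) : pk Gm 1 k = k := by
  change ix Gm.M (em Gm.M 1 (pt Gm k)) = k
  rw [em_one]
  exact (ix Gm.M).apply_symm_apply k

theorem pk_mul (q q' : Q) (k : Fin (uE Gm.M)) : pk Gm (q * q') k = pk Gm q (pk Gm q' k) := by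
  change ix Gm.M (em Gm.M (q * q') (pt Gm k)) = ix Gm.M (em Gm.M q (pt Gm (pk Gm q' k)))
  rw [pt_pk, em_mul]

theorem pk_bij (q : Q) : Function.Bijective (pk Gm q) := by
  refine Function.bijective_iff_has_inverse.2 ⟨pk Gm q⁻¹, fun k => ?_, fun k => ?_⟩
  · rw [← pk_mul, inv_mul_cancel, pk_one]
  · rw [← pk_mul, mul_inv_cancel, pk_one]

theorem pk_cl (q : Q) (k : Fin (uE Gm.M)) : (pt Gm (pk Gm q k)).1 = (pt Gm k).1 := by
  rw [pt_pk]
  rfl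

theorem yk_pk (q : Q) (k : Fin (uE Gm.M)) : yk Gm (pk Gm q k) = Gm.M.act q (yk Gm k) := by
  change yv Gm.M (pt Gm (pk Gm q k)) = Gm.M.act q (yv Gm.M (pt Gm k))
  rw [pt_pk, yv_em]

theorem pe_pk (q : Q) (m : Fin (uE Gm.M) → ZMod p) (k : Fin (uE Gm.M)) :
    pe Gm.M q m (pk Gm q k) = m k := by
  change pe Gm.M q m (ix Gm.M (em Gm.M q (pt Gm k))) = m k
  rw [pe_em]
  exact congrArg m ((ix Gm.M).apply_symm_apply k)

theorem pe_single (q : Q) (k : Fin (uE Gm.M)) :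
    pe Gm.M q (Pi.single k 1) = Pi.single (pk Gm q k) 1 := by
  have h := pe_bs Gm.M q (pt Gm k)
  unfold bs at h
  rw [show ix Gm.M (pt Gm k) = k from (ix Gm.M).apply_symm_apply k] at h
  exact h

theorem vp_single (k : Fin (uE Gm.M)) : vp Gm.M (Pi.single k 1) = yk Gm k := by
  have h := vp_bs Gm.M (pt Gm k)
  unfold bs at h
  rw [show ix Gm.M (pt Gm k) = k from (ix Gm.M).apply_symm_apply k] at h
  exact h

theorem xg_mk (k : Fin (uE Gm.M)) :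
    (QuotientGroup.mk (Gm.M.π (Gm.pr (xg Gm k))) : Q ⧸ Gm.M.H (pt Gm k).1) = (pt Gm k).2 := by
  unfold xg
  split_ifs with h
  · rw [map_one, map_one, h]
  · rw [(Gm.prs (Gm.M.πs (Quotient.out (pt Gm k).2)).choose).choose_spec,
      (Gm.M.πs (Quotient.out (pt Gm k).2)).choose_spec]
    exact QuotientGroup.out_eq' _

theorem xg_ok (j : Fin N) : xg Gm (ok Gm j) = 1 := by
  have h : pt Gm (ok Gm j) = ⟨j, QuotientGroup.mk 1⟩ := (ix Gm.M).symm_apply_apply _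
  unfold xg
  rw [if_pos]
  rw [h]

private theorem gel_aux {e e' : Ei Gm.M} (h : e = e') (s : Q)
    (hs : (QuotientGroup.mk s : Q ⧸ Gm.M.H e.1) = e.2) :
    (QuotientGroup.mk s : Q ⧸ Gm.M.H e'.1) = e'.2 := by
  subst h
  exact hs

private theorem yk_xg (k : Fin (uE Gm.M)) :
    Gm.M.act (Gm.M.π (Gm.pr (xg Gm k))) (Gm.M.y (pt Gm k).1) = yk Gm k := by
  have h := yv_mk Gm.M (pt Gm k).1 (Gm.M.π (Gm.pr (xg Gm k)))
  rw [xg_mk] at h
  exact h.symm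

theorem xg_pk (q : Q) (k : Fin (uE Gm.M)) : ∃ h ∈ Gm.M.H (pt Gm k).1,
    Gm.M.π (Gm.pr (xg Gm (pk Gm q k))) = q * Gm.M.π (Gm.pr (xg Gm k)) * h := by
  have h1 := gel_aux Gm (pt_pk Gm q k) (Gm.M.π (Gm.pr (xg Gm (pk Gm q k)))) (xg_mk Gm (pk Gm q k))
  have h2 : (em Gm.M q (pt Gm k)).2 =
      (QuotientGroup.mk (q * Gm.M.π (Gm.pr (xg Gm k))) : Q ⧸ Gm.M.H (pt Gm k).1) := by
    change q • (pt Gm k).2 = _
    rw [← xg_mk]
    rfl
  rw [h2] at h1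
  exact ⟨_, QuotientGroup.eq.1 h1.symm, (mul_inv_cancel_left _ _).symm⟩

theorem gk_pr (k : Fin (uE Gm.M)) : Gm.pr (gk Gm k) = Gm.M.e (yk Gm k) := by
  have h := yk_xg Gm k
  unfold gk
  rw [map_mul, map_mul, map_inv, Gm.gy, Gm.M.conj, h]

theorem gk_pow (k : Fin (uE Gm.M)) : gk Gm k ^ p = 1 := by
  unfold gk
  rw [conj_pow, Gm.gp, mul_one, mul_inv_cancel]

theorem gk_ok (j : Fin N) : gk Gm (ok Gm j) = Gm.g j := by
  have h : (pt Gm (ok Gm j)).1 = j := by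
    have h1 : pt Gm (ok Gm j) = ⟨j, QuotientGroup.mk 1⟩ := (ix Gm.M).symm_apply_apply _
    rw [h1]
  unfold gk
  rw [xg_ok, one_mul, inv_one, mul_one, h]

private theorem dlk_spec (r : R) (k : Fin (uE Gm.M)) : Gm.sec r * gk Gm k * (Gm.sec r)⁻¹ =
    Gm.z (dlk Gm r k) * gk Gm (pk Gm (Gm.M.π r) k) := by
  have h : ∃ d, Gm.sec r * gk Gm k * (Gm.sec r)⁻¹ = Gm.z d * gk Gm (pk Gm (Gm.M.π r) k) := by
    refine gm_fib Gm ?_
    rw [map_mul, map_mul, map_inv, Gm.sec_pr, gk_pr, Gm.M.conj, gk_pr, yk_pk]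
  unfold dlk
  rw [dif_pos h]
  exact h.choose_spec

theorem gk_conj (x : G) (k : Fin (uE Gm.M)) : x * gk Gm k * x⁻¹ =
    Gm.z (dlk Gm (Gm.pr x) k) * gk Gm (pk Gm (Gm.M.π (Gm.pr x)) k) := by
  obtain ⟨a, ha⟩ := gm_fib Gm (x := x) (y := Gm.sec (Gm.pr x)) (by rw [Gm.sec_pr])
  rw [← dlk_spec]
  generalize Gm.pr x = r at ha
  rw [ha]
  calc Gm.z a * Gm.sec r * gk Gm k * (Gm.z a * Gm.sec r)⁻¹
      = Gm.z a * (Gm.sec r * gk Gm k * (Gm.sec r)⁻¹) * (Gm.z a)⁻¹ := by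
        simp only [mul_inv_rev, mul_assoc]
    _ = _ := by rw [Gm.zcen, mul_inv_cancel_right]

theorem gk_comm (k l : Fin (uE Gm.M)) :
    gk Gm k * gk Gm l = Gm.z (Gm.M.om (yk Gm k) (yk Gm l)) * (gk Gm l * gk Gm k) := by
  have h := gm_comm Gm (x := gk Gm k) (y := gk Gm l) (by
    rw [gk_pr, gk_pr, ← Gm.M.eadd, ← Gm.M.eadd, add_comm])
  rw [h]
  congr 2
  funext i
  rw [gk_pr, gk_pr, Gm.M.iv_om]

theorem dlk_del (r : R) (k : Fin (uE Gm.M)) : dlk Gm r k ∈ Gm.Del (pt Gm k).1 := by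
  have h1 := dlk_spec Gm r k
  have h2 : IsConj (Gm.g (pt Gm k).1) (gk Gm k) := isConj_iff.2 ⟨xg Gm k, rfl⟩
  have h3 : IsConj (gk Gm k) (Gm.sec r * gk Gm k * (Gm.sec r)⁻¹) := isConj_iff.2 ⟨Gm.sec r, rfl⟩
  have h4 : IsConj (Gm.z (dlk Gm r k) * Gm.g (pt Gm k).1)
      (Gm.z (dlk Gm r k) * gk Gm (pk Gm (Gm.M.π r) k)) := by
    refine isConj_iff.2 ⟨xg Gm (pk Gm (Gm.M.π r) k), ?_⟩
    unfold gk
    rw [pk_cl, ← mul_assoc, ← Gm.zcen]
    simp only [mul_assoc]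
  rw [h1] at h3
  exact h4.trans (h2.trans h3).symm

theorem om_del (k : Fin (uE Gm.M)) (x : Fin u → ZMod p) :
    Gm.M.om (yk Gm k) x ∈ Gm.Del (pt Gm k).1 := by
  rw [← yk_xg, ← om_act Gm.M (Gm.M.π (Gm.pr (xg Gm k)))⁻¹, ← Gm.M.act_mul, inv_mul_cancel,
    Gm.M.act_one]
  exact zj_sub Gm (pt Gm k).1 ⟨_, rfl⟩

end H48.MG
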