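import Pool.Agent.H48.MG.Fth
import Pool.Agent.H48.MF.Ftb

/-!
# [H48 MG GHS] the number of homomorphisms is a sum of weighted sums, 60-100 lines. File Pool/Agent/H48/MG/Ghs.lean

Copy of the proof of `ftb_sum` (MF/Ftb.lean): `syi` with `Pr φ = Cq X.D.S0 X.P Gm.T φ φ₁` (`SYm`, `LC` by definition), `fth` instead of `fta`, exchange the sum over `κ` with the sums over `g` and `c` (`ws_lin` or directly: `fm_fin`, `hfc`).
-/

set_option autoImplicit false
set_option linter.dupNamespace false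

open scoped NumberField
open IsDedekindDomain Filter Topology
open scoped Classical

noncomputable section

namespace H48.MG

open H63.MA H38.BB H38.BG H38.AS H57.PC H57.BRA H89.BRG H1.AR H48.MF

variable {p u w N : ℕ} {G R Q : Type} [Group G] [Group R] [Group Q] [Finite G] [Finite R]
  [Fintype Q] (Gm : GM p u w N G R Q)
  {K : Type} [Field K] [NumberField K] {Ω : Type} [Field Ω] [Algebra K Ω] [IsAlgClosure K Ω]
  {ζ : K} (X : AD Gm.M K Ω ζ) (φ₁ : Gal(Ω/K) →* G)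

theorem ghs [NeZero p] (hp : p.Prime) (hp2 : MOne p K) (hζ : IsPrimitiveRoot ζ p)
    (hz : Z2 p K) (hfc : {c | X.IsC c}.Finite) (D' : RM K p ζ) (hS : D'.S = X.D.S0) (Y : ℝ) :
    ((SYm Gm X φ₁ Y).ncard : ℂ) = (c0 Gm X φ₁ D' : ℂ) * ∑ κ : Fin D'.r → Fin w → ZMod p,
      WS Gm X (phz Gm X D' φ₁ κ) Y := by
  have h1 := (syi Gm X hp hζ hz hfc (fun φ => Cq X.D.S0 X.P Gm.T φ φ₁) Y).2
  rw [finsum_mem_eq_finite_toFinset_sum _ (fm_fin Gm X Y)] at h1
  have h2 : ((SYm Gm X φ₁ Y).ncard : ℝ) = ∑ g ∈ (fm_fin Gm X Y).toFinset, ∑ c ∈ hfc.toFinset,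
      if X.Sp c (g.image Sigma.fst) then
        (∏ a ∈ g, Gm.rt a.1) * ((LC Gm X φ₁ (rh X c g) g).ncard : ℝ) else 0 := by
    refine h1.trans (Finset.sum_congr rfl fun g _ => ?_)
    rw [finsum_mem_eq_finite_toFinset_sum _ hfc]
    rfl
  have h3 : ((SYm Gm X φ₁ Y).ncard : ℂ) = (((SYm Gm X φ₁ Y).ncard : ℝ) : ℂ) := by push_cast; rfl
  have h4 := ws_lin Gm X hfc (Finset.univ : Finset (Fin D'.r → Fin w → ZMod p))
    (fun _ => (c0 Gm X φ₁ D' : ℂ)) (fun κ => phz Gm X D' φ₁ κ) Y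
  rw [← Finset.mul_sum] at h4
  rw [← h4, h3, h2, Complex.ofReal_sum]
  unfold H48.MF.WS
  rw [finsum_mem_eq_finite_toFinset_sum _ (fm_fin Gm X Y)]
  refine Finset.sum_congr rfl fun g hg => ?_
  rw [Complex.ofReal_sum, finsum_mem_eq_finite_toFinset_sum _ hfc]
  refine Finset.sum_congr rfl fun c hc => ?_
  rw [Set.Finite.mem_toFinset] at hg hc
  by_cases hs : X.Sp c (g.image Sigma.fst)
  · rw [if_pos hs, if_pos hs, fth Gm X φ₁ hp hp2 hζ D' hS hc hg.1]
    beta_reduce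
    rw [← Finset.mul_sum, mul_assoc, Finset.sum_mul]
  · rw [if_neg hs, if_neg hs, Complex.ofReal_zero]

end H48.MG
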