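import Pool.Agent.H48.MG.Adm
import Pool.Agent.H48.MG.Alx
import Pool.Agent.H51.MS.Alg
import Pool.Agent.H51.MT.Lfs

/-!
# [H48 MG LGA] generic aligned kappa: the limit exists, 70-110 lines. File Pool/Agent/H48/MG/Lga.lean

`F = frm X hI` (Pool/Agent/H1/AR/Frm.lean), `ws_fs` (MF/Anx.lean), `H51.MS.alg F hN (cl_univ ..) Θ Fn h` with `Θ c g = phz κ c.1 g` (as in the proof of `anl` in MF/Any.lean for the use of `F`, `F.tot`, `frm_ok`, `frm_tot`, `cl_univ`).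
`Fn c x = if h : ∃ g₀, X.Ok g₀ ∧ F.tot g₀ = x ∧ ∃ z, Dl φ₁ c.1 g₀ z then phz κ c.1 h.choose else 0`. Let `F.Ok g`, `F.wt c g ≠ 0` (all `ev` vanish: `frm_ev`).
* If there is such a `g₀` for `x = F.tot g` (take the chosen one): `qt g = qt g₀` (`frm_tot`), `adm` gives `z` with `Dl c g z`. `dl_ev` for both; adapted lifts `AL φ ε` for `g`, `AL φ₀ ε₀` for `g₀` from `H51.MT.lfu` (Pool/Agent/H51/MT/Lfs.lean). `aoe` twice: `phz κ c g = ep (- Oe ε)`, `phz κ c g₀ = ep (- Oe ε₀)`, and `alx`.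
* Otherwise there is no `z` with `Dl c g z` (`g₀ = g`), so `phz κ c g = 0` (`dif_neg`), `Fn = 0` (`dif_neg`).
-/

set_option autoImplicit false
set_option linter.dupNamespace false

open scoped NumberField
open IsDedekindDomain Filter Topology
open scoped Classical

noncomputable section

namespace H48.MG

open H63.MA H38.BB H38.BG H38.AS H57.PC H57.BRA H89.BRG H1.AR H48.MF

variable {p u w N : ℕ} {G R Q : Type} [Group G] [Group R] [Group Q] [Finite G] [Finite R]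
  [Fintype Q] (Gm : GM p u w N G R Q)
  {K : Type} [Field K] [NumberField K] {Ω : Type} [Field Ω] [Algebra K Ω] [IsAlgClosure K Ω]
  {ζ : K} (X : AD Gm.M K Ω ζ) (φ₁ : Gal(Ω/K) →* G)

private theorem lga_ph [NeZero p] (hp : p.Prime) (hp2 : MOne p K) (hζ : IsPrimitiveRoot ζ p)
    (hz : Z2 p K) (hφ₁ : H38.ML.FT φ₁) (D' : RM K p ζ) (hS : D'.S = X.D.S0)
    {κ : Fin D'.r → Fin w → ZMod p} (hκ : κ ∈ TP Gm X D' φ₁) (hG : ∀ j, Gnk Gm X D' κ j)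
    {η : Q → Fin w → ZMod p} (hη : Gnr Gm η)
    (hηq : ∀ v, X.D.Gd v → ∀ k, η (X.φQ (X.Fr.F v)) k = ∑ i, κ i k * D'.q v i)
    (hal : Algd Gm η) {c : Gal(Ω/K) →* R} (hc : X.IsC c) {g g₀ : Finset X.Lb} (hg : X.Ok g)
    (hg₀ : X.Ok g₀) (hq : ∀ j, X.qt g j = X.qt g₀ j) (hev : ∀ a ∈ g, X.ev (rh X c g) a = 0)
    (h : ∃ z, Dl Gm X φ₁ c g₀ z) :
    phz Gm X D' φ₁ κ c g = phz Gm X D' φ₁ κ c g₀ := by
  obtain ⟨z, hz'⟩ := adm Gm X φ₁ hp hp2 hζ hz hφ₁ hc hg hg₀ hq hev h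
  obtain ⟨z₀, hz₀⟩ := h
  obtain ⟨e1, v1⟩ := dl_ev Gm X φ₁ hp hζ hc hg hz'
  obtain ⟨e2, v2⟩ := dl_ev Gm X φ₁ hp hζ hc hg₀ hz₀
  obtain ⟨φ, ε, hA⟩ := H51.MT.lfu Gm X hp hp2 hζ hz hc hg e1 hφ₁ v1
  obtain ⟨φ₀, ε₀, hA₀⟩ := H51.MT.lfu Gm X hp hp2 hζ hz hc hg₀ e2 hφ₁ v2
  rw [aoe Gm X φ₁ hp hζ D' hS hκ hG hηq hc hg hz' hA,
    aoe Gm X φ₁ hp hζ D' hS hκ hG hηq hc hg₀ hz₀ hA₀,
    alx Gm X φ₁ hp hp2 hζ hz hφ₁ D' hS hκ hG hη hηq hal hc hg hg₀ hq hA hA₀]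

theorem lga [Fintype (Co X)] {d : ℕ} {D qq : ℝ} (hI : FI X d D qq) (hN : 1 ≤ N)
    (hφ₁ : H38.ML.FT φ₁) (D' : RM K p ζ) (hS : D'.S = X.D.S0)
    {κ : Fin D'.r → Fin w → ZMod p} (hκ : κ ∈ TP Gm X D' φ₁) (hG : ∀ j, Gnk Gm X D' κ j)
    {η : Q → Fin w → ZMod p} (hη : Gnr Gm η)
    (hηq : ∀ v, X.D.Gd v → ∀ k, η (X.φQ (X.Fr.F v)) k = ∑ i, κ i k * D'.q v i)
    (hal : Algd Gm η) : ∃ l : ℂ, Tendsto (fun Y : ℝ => WS Gm X (phz Gm X D' φ₁ κ) Y /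
      ((Y * Real.log Y ^ (N - 1) : ℝ) : ℂ)) atTop (𝓝 l) := by
  have : NeZero p := ⟨hI.hp.ne_zero⟩
  obtain ⟨Fn, hFn⟩ : ∃ Fn : (frm X hI).C → ((frm X hI).R → ZMod (cdg Gm.M hI.hp).p) → ℂ,
      ∀ (c : (frm X hI).C) (g : Finset (frm X hI).Lb), (frm X hI).Ok g → (frm X hI).wt c g ≠ 0 →
        phz Gm X D' φ₁ κ c.1 g = Fn c ((frm X hI).tot g) := by
    refine ⟨fun c x => if h : ∃ g₀ : Finset (frm X hI).Lb, X.Ok g₀ ∧ (frm X hI).tot g₀ = x ∧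
      ∃ z, Dl Gm X φ₁ c.1 g₀ z then phz Gm X D' φ₁ κ c.1 h.choose else 0, fun c g hg hw => ?_⟩
    have hg' : X.Ok g := (frm_ok X hI.hp g).1 hg
    by_cases h : ∃ g₀ : Finset (frm X hI).Lb, X.Ok g₀ ∧ (frm X hI).tot g₀ = (frm X hI).tot g ∧
        ∃ z, Dl Gm X φ₁ c.1 g₀ z
    · beta_reduce
      rw [dif_pos h]
      obtain ⟨h1, h2, h3⟩ := h.choose_spec
      exact lga_ph Gm X φ₁ hI.hp hI.hp2 hI.hζ hI.hz hφ₁ D' hS hκ hG hη hηq hal c.2 hg' h1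
        (fun j => frm_tot X hI.hp h2.symm j) (frm_ev Gm X hI c hg' hw) h3
    · beta_reduce
      rw [dif_neg h]
      unfold phz
      rw [dif_neg]
      rintro ⟨-, -, h3⟩
      exact h ⟨g, hg', rfl, h3⟩
  obtain ⟨l, hl⟩ := H51.MS.alg (frm X hI) hN (cl_univ Gm.M hI.hp)
    (fun c g => phz Gm X D' φ₁ κ c.1 g) Fn hFn
  refine ⟨l, hl.congr fun Y => ?_⟩
  rw [ws_fs Gm X hI.hp hI.hζ (d := d) (D := D) (qq := qq) (phz Gm X D' φ₁ κ) Y]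
  rfl

end H48.MG
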