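import Pool.Agent.H48.MG.Adm
import Pool.Agent.H48.MG.Aoe
import Pool.Agent.H51.MS.Nal
import Pool.Agent.H51.MT.Lfs

/-!
# [H48 MG LGB] generic not aligned kappa: no contribution, 70-110 lines. File Pool/Agent/H48/MG/Lgb.lean

`STX` is the statement of the structure theorem (proved by helper51 in H51/MT); `ppx O g = H51.MS.pph B O g` (`rfl`). Let `B`, `O`, `m`, and for `c : Co X` `s c`, `Fc c` be as in `hst` (`choose`). `F = frm X hI`, `ws_fs`, `H51.MS.nal F B hB O hN (cl_univ ..) m (fun c a => - s c a) H hH Θ hΘ h` with `Θ c g = phz κ c.1 g` (`phz_le`), `H c x y = if ∃ g₀, X.Ok g₀ ∧ F.tot g₀ = x ∧ ∃ z, Dl φ₁ c.1 g₀ z then ep p (-(Fc c y)) else 0`, `‖H‖ ≤ 1` (`norm_ep`-type lemma as in `phz_le`).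
* `hB`: `B.Al` gives `f` with `¬ B.lk i j (f i - f j)`, i.e. `dt (f i - f j - η q) (om (y i) (act q (y j))) = 0` for all `q`: `Algd Gm η`, a contradiction.
* `h`: `F.Ok g`, `F.wt c g ≠ 0`: `frm_ev`. If there is `g₀` as in `H` (for `x = F.tot g`): `frm_tot`, `adm`, so `Dl c g z`; `dl_ev`, `lfu`: `AL φ ε` for `g`; `aoe`: `phz κ c g = ep (- Oe ε) = ep (- (Fc c (prf B m g) + ∑ a ∈ g, s c a - pph B O g))`, `ep` of a sum is a product. Otherwise `phz κ c g = 0` and `H = 0`.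
-/

set_option autoImplicit false
set_option linter.dupNamespace false

open scoped NumberField
open IsDedekindDomain Filter Topology
open scoped Classical

noncomputable section

namespace H48.MG

open H63.MA H38.BB H38.BG H38.AS H57.PC H57.BRA H89.BRG H1.AR H48.MF

variable {p u w N : ℕ} {G R Q : Type} [Group G] [Group R] [Group Q] [Finite G] [Finite R]
  [Fintype Q] (Gm : GM p u w N G R Q)
  {K : Type} [Field K] [NumberField K] {Ω : Type} [Field Ω] [Algebra K Ω] [IsAlgClosure K Ω]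
  {ζ : K} (X : AD Gm.M K Ω ζ) (φ₁ : Gal(Ω/K) →* G)

/-- the sum of the phases of the pairs -/
def ppx [Fintype (Co X)] {d : ℕ} {D qq : ℝ} {hI : FI X d D qq} {B : H51.MS.Bl (frm X hI)}
    (O : H51.MS.Or B) (g : Finset X.Lb) : ZMod p := H51.MS.pph B O g

/-- the statement of the structure theorem -/
def STX [Fintype (Co X)] {d : ℕ} {D qq : ℝ} (hI : FI X d D qq) (η : Q → Fin w → ZMod p) : Prop :=
  ∃ (B : H51.MS.Bl (frm X hI)) (O : H51.MS.Or B) (m : ℕ) (_ : NeZero m),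
    (∀ (i j : Fin N) (θ : Fin w → ZMod p), B.lk i j θ ↔
      ∃ q, dt (θ - η q) (Gm.M.om (Gm.M.y i) (Gm.M.act q (Gm.M.y j))) ≠ 0) ∧
    ∀ c : Co X, ∃ (s : X.Lb → ZMod p) (Fc : (B.St → ZMod m) → ZMod p), ∀ g : Finset X.Lb,
      X.Ok g → ∀ φ ε, AL Gm X φ₁ c.1 g φ ε →
        Oe X η ε = Fc (H51.MS.prf B m g) + ∑ a ∈ g, s a - ppx Gm X O g

theorem lgb [Fintype (Co X)] {d : ℕ} {D qq : ℝ} (hI : FI X d D qq) (hN : 1 ≤ N)
    (hφ₁ : H38.ML.FT φ₁) (D' : RM K p ζ) (hS : D'.S = X.D.S0)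
    {κ : Fin D'.r → Fin w → ZMod p} (hκ : κ ∈ TP Gm X D' φ₁) (hG : ∀ j, Gnk Gm X D' κ j)
    {η : Q → Fin w → ZMod p}
    (hηq : ∀ v, X.D.Gd v → ∀ k, η (X.φQ (X.Fr.F v)) k = ∑ i, κ i k * D'.q v i)
    (hal : ¬ Algd Gm η) (hst : STX Gm X φ₁ hI η) :
    Tendsto (fun Y : ℝ => WS Gm X (phz Gm X D' φ₁ κ) Y /
      ((Y * Real.log Y ^ (N - 1) : ℝ) : ℂ)) atTop (𝓝 0) := by
  have : NeZero p := ⟨hI.hp.ne_zero⟩
  obtain ⟨B, O, m, hm, hlk, hst⟩ := hst
  choose s Fc hFc using hst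
  have hB : ¬ B.Al := by
    rintro ⟨f, -, hf⟩
    apply hal
    refine ⟨f, fun i j q => ?_⟩
    by_contra h
    exact hf i j ((hlk i j (f i - f j)).2 ⟨q, h⟩)
  obtain ⟨H, hH⟩ : ∃ H : (frm X hI).C → ((frm X hI).R → ZMod (cdg Gm.M hI.hp).p) →
      (B.St → ZMod m) → ℂ, ∀ c x y, H c x y = if ∃ g₀ : Finset (frm X hI).Lb, X.Ok g₀ ∧
        (frm X hI).tot g₀ = x ∧ ∃ z, Dl Gm X φ₁ c.1 g₀ z then ep p (-(Fc c y)) else 0 :=
    ⟨_, fun _ _ _ => rfl⟩
  have hH1 : ∀ c x y, ‖H c x y‖ ≤ 1 := by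
    intro c x y
    rw [hH]
    split_ifs
    · exact (ep_norm p _).le
    · rw [norm_zero]
      exact zero_le_one
  have key := H51.MS.nal (frm X hI) B hB O hN (cl_univ Gm.M hI.hp) m (fun c a => -s c a) H hH1
    (fun c g => phz Gm X D' φ₁ κ c.1 g) (fun c g => phz_le Gm X φ₁ D' κ c.1 g) (by
      intro c g hok hw
      have hg : X.Ok g := (frm_ok X hI.hp g).1 hok
      have hev := frm_ev Gm X hI c hg hw
      rw [hH]
      by_cases h : ∃ g₀ : Finset (frm X hI).Lb, X.Ok g₀ ∧ (frm X hI).tot g₀ = (frm X hI).tot g ∧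
          ∃ z, Dl Gm X φ₁ c.1 g₀ z
      · rw [if_pos h]
        obtain ⟨g₀, h1, h2, h3⟩ := h
        obtain ⟨z, hz'⟩ := adm Gm X φ₁ hI.hp hI.hp2 hI.hζ hI.hz hφ₁ c.2 hg h1
          (fun j => frm_tot X hI.hp h2.symm j) hev h3
        obtain ⟨e1, v1⟩ := dl_ev Gm X φ₁ hI.hp hI.hζ c.2 hg hz'
        obtain ⟨φ, ε, hA⟩ := H51.MT.lfu Gm X hI.hp hI.hp2 hI.hζ hI.hz c.2 hg e1 hφ₁ v1
        have h4 := aoe Gm X φ₁ hI.hp hI.hζ D' hS hκ hG hηq c.2 hg hz' hA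
        have h5 := hFc c g hg φ ε hA
        have h6 : -(Oe X η ε) = -(Fc c (H51.MS.prf B m g)) +
            (ppx Gm X O g + ∑ a ∈ g, -s c a) := by
          have h7 : ∀ A F S T : ZMod p, A = F + S - T → -A = -F + (T + -S) := by
            intro A F S T h
            rw [h]
            ring
          have h8 : ∑ a ∈ g, -s c a = -∑ a ∈ g, s c a := Finset.sum_neg_distrib _
          rw [h8]
          exact h7 _ _ _ _ h5
        refine h4.trans ?_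
        rw [h6]
        exact ep_add hI.hp _ _
      · rw [if_neg h, zero_mul]
        unfold phz
        rw [dif_neg]
        rintro ⟨-, -, h3⟩
        exact h ⟨g, hg, rfl, h3⟩)
  refine key.congr fun Y => ?_
  rw [ws_fs Gm X hI.hp hI.hζ (d := d) (D := D) (qq := qq) (phz Gm X D' φ₁ κ) Y]
  rfl

end H48.MG
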