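import Pool.Agent.H51.MT.Lmh
import Pool.Agent.H48.MG.Rmk
import Pool.Agent.H48.MF.Any

/-!
# H48-MG-LGN: the limits for the local types (from `lmh`, H51/MT/Lmh.lean)
-/

set_option autoImplicit false
set_option linter.dupNamespace false

open scoped NumberField
open IsDedekindDomain Filter Topology
open scoped Classical

noncomputable section

namespace H48.MG

open H63.MA H38.BB H38.BG H38.AS H57.PC H57.BRA H89.BRG H1.AR H48.MF

variable {p u w N : ℕ} {G R Q : Type} [Group G] [Group R] [Group Q] [Finite G] [Finite R]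
  [Fintype Q] (Gm : GM p u w N G R Q)
  {K : Type} [Field K] [NumberField K] {Ω : Type} [Field Ω] [Algebra K Ω] [IsAlgClosure K Ω]
  {ζ : K} (X : AD Gm.M K Ω ζ)

theorem lim2 [Fintype (Co X)] {d : ℕ} {D qq : ℝ} (hI : FI X d D qq) (hN : 1 ≤ N)
    (hSz : Sz Gm) : LimH Gm X := by
  obtain ⟨D', hS⟩ := rmk hI.hp hI.hp2 hI.hζ X.D
  exact H51.MT.lmh Gm X hI hN hSz (anl Gm hN X hI) D' hS

end H48.MG
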