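import Pool.Agent.H48.MG.Ghs

/-!
# [H48 MG LLM] the limit for one local type, 40-70 lines. File Pool/Agent/H48/MG/Llm.lean

`ghs`: `#SYm Y = c0 * ∑_κ WS (phz κ) Y`; divide by `Y * log Y ^ (N-1)`: it tends to `c0 * ∑_κ l κ` (`tendsto_finset_sum`), a complex number; the left side is the cast of a real number (`Complex.ofReal_div`), so its limit is real: the real part tends to the real part (`Complex.continuous_re`), which is `≥ 0` (`ge_of_tendsto'`: for `Y ≥ 1` the quotient is `≥ 0`; eventually).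
-/

set_option autoImplicit false
set_option linter.dupNamespace false

open scoped NumberField
open IsDedekindDomain Filter Topology
open scoped Classical

noncomputable section

namespace H48.MG

open H63.MA H38.BB H38.BG H38.AS H57.PC H57.BRA H89.BRG H1.AR H48.MF

variable {p u w N : ℕ} {G R Q : Type} [Group G] [Group R] [Group Q] [Finite G] [Finite R]
  [Fintype Q] (Gm : GM p u w N G R Q)
  {K : Type} [Field K] [NumberField K] {Ω : Type} [Field Ω] [Algebra K Ω] [IsAlgClosure K Ω]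
  {ζ : K} (X : AD Gm.M K Ω ζ) (φ₁ : Gal(Ω/K) →* G)

theorem llm [NeZero p] (hp : p.Prime) (hp2 : MOne p K) (hζ : IsPrimitiveRoot ζ p)
    (hz : Z2 p K) (hfc : {c | X.IsC c}.Finite) (D' : RM K p ζ) (hS : D'.S = X.D.S0)
    (hk : ∀ κ : Fin D'.r → Fin w → ZMod p, ∃ l : ℂ,
      Tendsto (fun Y : ℝ => WS Gm X (phz Gm X D' φ₁ κ) Y /
        ((Y * Real.log Y ^ (N - 1) : ℝ) : ℂ)) atTop (𝓝 l)) :
    ∃ l : ℝ, 0 ≤ l ∧
      Tendsto (fun Y : ℝ => ((SYm Gm X φ₁ Y).ncard : ℝ) / (Y * Real.log Y ^ (N - 1)))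
        atTop (𝓝 l) := by
  choose l hl using hk
  have hsum : Tendsto (fun Y : ℝ => (c0 Gm X φ₁ D' : ℂ) * ∑ κ : Fin D'.r → Fin w → ZMod p,
      WS Gm X (phz Gm X D' φ₁ κ) Y / ((Y * Real.log Y ^ (N - 1) : ℝ) : ℂ)) atTop
      (𝓝 ((c0 Gm X φ₁ D' : ℂ) * ∑ κ : Fin D'.r → Fin w → ZMod p, l κ)) :=
    (tendsto_finsetSum _ fun κ _ => hl κ).const_mul _
  have heq : ∀ Y : ℝ, (c0 Gm X φ₁ D' : ℂ) * ∑ κ : Fin D'.r → Fin w → ZMod p,
      WS Gm X (phz Gm X D' φ₁ κ) Y / ((Y * Real.log Y ^ (N - 1) : ℝ) : ℂ) =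
      ((((SYm Gm X φ₁ Y).ncard : ℝ) / (Y * Real.log Y ^ (N - 1)) : ℝ) : ℂ) := by
    intro Y
    rw [← Finset.sum_div, ← mul_div_assoc, ← ghs Gm X φ₁ hp hp2 hζ hz hfc D' hS Y, Complex.ofReal_div,
      Complex.ofReal_natCast]
  have hre : Tendsto (fun Y : ℝ => ((SYm Gm X φ₁ Y).ncard : ℝ) / (Y * Real.log Y ^ (N - 1))) atTop
      (𝓝 ((c0 Gm X φ₁ D' : ℂ) * ∑ κ : Fin D'.r → Fin w → ZMod p, l κ).re) := by
    have h1 := (Complex.continuous_re.tendsto
      ((c0 Gm X φ₁ D' : ℂ) * ∑ κ : Fin D'.r → Fin w → ZMod p, l κ)).comp hsum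
    refine h1.congr fun Y => ?_
    rw [Function.comp_apply, heq, Complex.ofReal_re]
  refine ⟨_, ?_, hre⟩
  refine ge_of_tendsto hre ?_
  filter_upwards [eventually_ge_atTop (1 : ℝ)] with Y hY
  exact div_nonneg (Nat.cast_nonneg _) (mul_nonneg (zero_le_one.trans hY) (pow_nonneg (Real.log_nonneg hY) _))

end H48.MG
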