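import Pool.Agent.H48.MG.Defs
import Pool.Agent.H48.MF.Ftb
import Pool.Agent.H48.MF.Tyf
import Pool.Agent.H48.MF.Syi
import Pool.Agent.H48.MF.Lst
import Pool.Agent.H48.MF.Lfe
import Pool.Agent.H48.MF.Lbc
import Pool.Agent.H1.AR.Sty

/-!
# [H48 MG LPS] a lower bound for the number of all homomorphisms of a fibre, and a positive limit, 100-150 lines. File Pool/Agent/H48/MG/Lps.lean

* `lps0`: `φ₁ ∈ SYf Y₁`. Let `h c κ = 1` if there is an `Ok` family `g'` with `qt g' = κ` and `Cv X.D.S0 X.P Gm.M (rh X c g') (pr ∘ φ₁)` and `IsC c`, else `0` (as in the proof of `ftb_z`, MF/Ftb.lean: copy; there is also the proof that `0 < l` from `lbc`, `syi_to`, `ls_ev`). `hA.lm h` gives `l > 0` with `WS (h c (qt g)) / (Y log^(N-1)) → l`.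
  `syi` with `Pr = fun _ => True`: `#SYf Y = ∑_{g ∈ Fm, c ∈ IsC, Sp} ∏ rt * #LS (rh X c g) g`. For every `(c, g)`: `∏ rt * #LS ≥ y0 * h c (qt g) * wz c g` (as real numbers): if `h = 1` and all `ev` vanish, then `Cv (rh X c g) (pr ∘ φ₁)` (`sty`, `cv_trans`), so `LS` is not empty (`lfe`), `#LS = y0 ∏ #Del` (`lst`), `∏ rt * ∏ #Del = ∏ #Zj = wz` (`rt_pos`). Otherwise the right side is `0`.
  So `#SYf Y ≥ y0 * re WS`, `y0 ≥ 1` (`gg_pos`-type: `Nat.card` of the finite group `chbU`, `hw_fin`), and eventually `#SYf Y ≥ (l / 2) (Y log^(N-1) Y)`.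
* `lps`: `Rs` from `tyf`. `SYf Y ⊆ ⋃_{φ ∈ Rs} SYm φ Y` (`cq`), so `#SYf Y ≤ ∑_{φ ∈ Rs} #SYm φ Y` (`SYf Y` finite: `syi`). All `φ ∈ Rs` are of finite type (in some `SYf`), so `#SYm φ Y / (Y log^(N-1)) → l φ ≥ 0` (`hlim`); sum: `∑ l φ ≥ l / 2 > 0` (`le_of_tendsto`), so some `l φ > 0`.
-/

set_option autoImplicit false
set_option linter.dupNamespace false

open scoped NumberField
open IsDedekindDomain Filter Topology
open scoped Classical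

noncomputable section

namespace H48.MG

open H63.MA H38.BB H38.BG H38.AS H57.PC H57.BRA H89.BRG H1.AR H48.MF

variable {p u w N : ℕ} {G R Q : Type} [Group G] [Group R] [Group Q] [Finite G] [Finite R]
  [Fintype Q] (Gm : GM p u w N G R Q)
  {K : Type} [Field K] [NumberField K] {Ω : Type} [Field Ω] [Algebra K Ω] [IsAlgClosure K Ω]
  {ζ : K} (X : AD Gm.M K Ω ζ)

private theorem lps_ws (hfc : {c | X.IsC c}.Finite) (h : (Gal(Ω/K) →* R) → Finset X.Lb → ℂ)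
    (Y : ℝ) : WS Gm X h Y = ∑ g ∈ (fm_fin Gm X Y).toFinset, ∑ c ∈ hfc.toFinset,
      if X.Sp c (g.image Sigma.fst) then h c g * wz Gm X c g else 0 := by
  unfold H48.MF.WS
  rw [finsum_mem_eq_finite_toFinset_sum _ (fm_fin Gm X Y)]
  refine Finset.sum_congr rfl fun g _ => ?_
  rw [finsum_mem_eq_finite_toFinset_sum _ hfc]

private theorem lps_term [NeZero p] (hp : p.Prime) (hp2 : MOne p K) (hζ : IsPrimitiveRoot ζ p)
    (hz : Z2 p K) {φ₁ : Gal(Ω/K) →* G} (hφ₁ : H38.ML.FT φ₁) {c : Gal(Ω/K) →* R} (hc : X.IsC c)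
    {g : Finset X.Lb} (hg : X.Ok g) (t : ℝ)
    (ht : t ≠ 0 → t = 1 ∧ Cv X.D.S0 X.P Gm.M (rh X c g) (Gm.pr.comp φ₁)) :
    (y0 Gm X : ℝ) * ((t : ℂ) * wz Gm X c g).re ≤
      (∏ a ∈ g, Gm.rt a.1) * ((LS Gm X (rh X c g) g).ncard : ℝ) := by
  have hR : 0 ≤ (∏ a ∈ g, Gm.rt a.1) * ((LS Gm X (rh X c g) g).ncard : ℝ) :=
    mul_nonneg (Finset.prod_nonneg fun a _ => (rt_pos Gm a.1).1.le) (Nat.cast_nonneg _)
  by_cases h0 : t = 0
  · rw [h0, Complex.ofReal_zero, zero_mul, Complex.zero_re, mul_zero]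
    exact hR
  obtain ⟨h1, hcv⟩ := ht h0
  by_cases hev : ∀ a ∈ g, X.ev (rh X c g) a = 0
  · have hρ := rh_tw Gm X hp hζ hc g
    have h2 := (lst Gm X hp hζ hc hg hρ).2 (lfe Gm X hp hp2 hζ hz hc hg hρ hev hφ₁ hcv)
    have h3 : wz Gm X c g = ((∏ a ∈ g, Nat.card (Gm.Zj a.1) : ℕ) : ℂ) := by
      unfold wz
      rw [if_pos hev]
    rw [h1, h3, Complex.ofReal_one, one_mul, Complex.natCast_re, h2]
    push_cast
    refine le_of_eq ?_
    have h4 : ∏ a ∈ g, (Nat.card (Gm.Zj a.1) : ℝ) =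
        (∏ a ∈ g, Gm.rt a.1) * ∏ a ∈ g, (Nat.card (Gm.Del a.1) : ℝ) := by
      rw [← Finset.prod_mul_distrib]
      refine Finset.prod_congr rfl fun a _ => ?_
      have h5 : (Nat.card (Gm.Del a.1) : ℝ) ≠ 0 :=
        Nat.cast_ne_zero.2 (rt_pos Gm a.1).2.2.1.ne'
      unfold GM.rt
      rw [div_mul_cancel₀ _ h5]
    rw [h4]
    ring
  · have h3 : wz Gm X c g = 0 := by
      unfold wz
      rw [if_neg hev]
    rw [h3, mul_zero, Complex.zero_re, mul_zero]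
    exact hR

theorem lps0 [NeZero p] (hp : p.Prime) (hp2 : MOne p K) (hζ : IsPrimitiveRoot ζ p)
    (hz : Z2 p K) (hA : Anl Gm X) {φ₁ : Gal(Ω/K) →* G} {Y₁ : ℝ} (h : φ₁ ∈ SYf Gm X Y₁) :
    ∃ l : ℝ, 0 < l ∧ ∀ᶠ Y : ℝ in atTop,
      l * (Y * Real.log Y ^ (N - 1)) ≤ ((SYf Gm X Y).ncard : ℝ) := by
  obtain ⟨hf, hh⟩ : ∃ h : (Gal(Ω/K) →* R) → ((j : Fin N) → Fin (X.A j).D.r → ZMod p) → ℝ,
      ∀ c κ, h c κ = if X.IsC c ∧ ∃ g', X.Ok g' ∧ (∀ j, X.qt g' j = κ j) ∧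
        Cv X.D.S0 X.P Gm.M (rh X c g') (Gm.pr.comp φ₁) then 1 else 0 := ⟨_, fun _ _ => rfl⟩
  have hh0 : ∀ c κ, 0 ≤ hf c κ := by
    intro c κ
    rw [hh]
    split_ifs
    · exact zero_le_one
    · exact le_rfl
  obtain ⟨l, hl1, hl2⟩ := hA.lm hf
  obtain ⟨-, hl4⟩ := hl2 hh0
  have hl : 0 < l := by
    refine hl4 ?_
    have hne : (Lbs Gm X φ₁).Nonempty := by
      by_contra h'
      rw [Set.not_nonempty_iff_eq_empty] at h'
      have h1 := (lbc Gm X hp hζ hz h).2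
      rw [h', finsum_mem_empty] at h1
      exact zero_ne_one h1
    obtain ⟨g, hg⟩ := hne
    obtain ⟨h1, c, ⟨h2, h3, h4⟩, -⟩ := syi_to Gm X hp hζ h hg
    refine ⟨c, g, h2, h1.1, ?_, fun a ha => ls_ev Gm X hp hζ h2 h1.1 (rh_tw Gm X hp hζ h2 g) h4 ha⟩
    have h5 : Gm.pr.comp φ₁ = rh X c g := by
      ext σ
      exact h4.2.1 σ
    rw [hh, if_pos]
    · exact zero_lt_one
    · refine ⟨h2, g, h1.1, fun _ => rfl, ?_⟩
      rw [h5]
      exact cv_refl Gm _ _ _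
  have hlow : ∀ Y : ℝ, (y0 Gm X : ℝ) *
      (WS Gm X (fun c g => ((hf c (X.qt g) : ℝ) : ℂ)) Y).re ≤ ((SYf Gm X Y).ncard : ℝ) := by
    intro Y
    have h1 := (syi Gm X hp hζ hz hA.fc (fun _ => True) Y).2
    have h2 : {φ ∈ SYf Gm X Y | True} = SYf Gm X Y := Set.sep_true
    rw [h2, finsum_mem_eq_finite_toFinset_sum _ (fm_fin Gm X Y)] at h1
    rw [h1, lps_ws Gm X hA.fc, Complex.re_sum, Finset.mul_sum]
    refine Finset.sum_le_sum fun g hg => ?_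
    rw [finsum_mem_eq_finite_toFinset_sum _ hA.fc, Complex.re_sum, Finset.mul_sum]
    refine Finset.sum_le_sum fun c hc => ?_
    rw [Set.Finite.mem_toFinset] at hg hc
    have hc' : X.IsC c := hc
    by_cases hs : X.Sp c (g.image Sigma.fst)
    · rw [if_pos hs, if_pos hs]
      have h3 : {φ ∈ LS Gm X (rh X c g) g | True} = LS Gm X (rh X c g) g := Set.sep_true
      rw [h3]
      refine lps_term Gm X hp hp2 hζ hz h.1 hc' hg.1 _ fun hne => ?_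
      rw [hh] at hne ⊢
      by_cases hcd : X.IsC c ∧ ∃ g', X.Ok g' ∧ (∀ j, X.qt g' j = X.qt g j) ∧
          Cv X.D.S0 X.P Gm.M (rh X c g') (Gm.pr.comp φ₁)
      · rw [if_pos hcd]
        refine ⟨rfl, ?_⟩
        obtain ⟨-, g', hg', hq, hcv'⟩ := hcd
        refine cv_trans Gm (cv_symm Gm ?_) hcv'
        intro v hv
        exact sty X hp hp2 hζ hc' hg' hg.1 hq (rh_tw Gm X hp hζ hc' g')
          (rh_tw Gm X hp hζ hc' g) v hv
      · rw [if_neg hcd] at hne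
        exact absurd rfl hne
    · rw [if_neg hs, if_neg hs, Complex.zero_re, mul_zero]
  have hy0 : (1 : ℝ) ≤ (y0 Gm X : ℝ) := by
    exact_mod_cast (gg_pos Gm X hp hp2 hζ φ₁).2
  refine ⟨l / 2, half_pos hl, ?_⟩
  have hre : Tendsto (fun Y : ℝ => (WS Gm X (fun c g => ((hf c (X.qt g) : ℝ) : ℂ)) Y /
      ((Y * Real.log Y ^ (N - 1) : ℝ) : ℂ)).re) atTop (𝓝 l) := by
    have h6 := (Complex.continuous_re.tendsto _).comp hl1
    simpa only [Function.comp_def, Complex.ofReal_re] using h6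
  filter_upwards [hre.eventually (lt_mem_nhds (half_lt_self hl)), eventually_gt_atTop (1 : ℝ)]
    with Y hY hY1
  have hpos : 0 < Y * Real.log Y ^ (N - 1) :=
    mul_pos (by linarith) (pow_pos (Real.log_pos hY1) _)
  rw [Complex.div_ofReal_re, lt_div_iff₀ hpos] at hY
  have h7 : 0 ≤ (WS Gm X (fun c g => ((hf c (X.qt g) : ℝ) : ℂ)) Y).re :=
    (mul_pos (half_pos hl) hpos).le.trans hY.le
  calc l / 2 * (Y * Real.log Y ^ (N - 1)) ≤
        (WS Gm X (fun c g => ((hf c (X.qt g) : ℝ) : ℂ)) Y).re := hY.le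
    _ = 1 * (WS Gm X (fun c g => ((hf c (X.qt g) : ℝ) : ℂ)) Y).re := (one_mul _).symm
    _ ≤ (y0 Gm X : ℝ) * (WS Gm X (fun c g => ((hf c (X.qt g) : ℝ) : ℂ)) Y).re :=
      mul_le_mul_of_nonneg_right hy0 h7
    _ ≤ ((SYf Gm X Y).ncard : ℝ) := hlow Y

theorem lps [NeZero p] (hp : p.Prime) (hp2 : MOne p K) (hζ : IsPrimitiveRoot ζ p)
    (hz : Z2 p K) (hA : Anl Gm X)
    (hlim : ∀ φ₁ : Gal(Ω/K) →* G, H38.ML.FT φ₁ → ∃ l : ℝ, 0 ≤ l ∧
      Tendsto (fun Y : ℝ => ((SYm Gm X φ₁ Y).ncard : ℝ) / (Y * Real.log Y ^ (N - 1)))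
        atTop (𝓝 l)) : LimH Gm X := by
  refine ⟨hA.fc, hlim, fun φ₁ Y₁ h => ?_⟩
  obtain ⟨l, hl, hev⟩ := lps0 Gm X hp hp2 hζ hz hA h
  obtain ⟨Rs, hR1, hR2, -⟩ := tyf Gm X hp hp2 hζ hz hA.fc
  have hex : ∀ φ : Gal(Ω/K) →* G, ∃ t : ℝ, φ ∈ Rs → 0 ≤ t ∧
      Tendsto (fun Y : ℝ => ((SYm Gm X φ Y).ncard : ℝ) / (Y * Real.log Y ^ (N - 1)))
        atTop (𝓝 t) := by
    intro φ
    by_cases hφ : φ ∈ Rs
    · obtain ⟨Y, hY⟩ := hR1 φ hφ
      obtain ⟨t, ht⟩ := hlim φ hY.1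
      exact ⟨t, fun _ => ht⟩
    · exact ⟨0, fun h' => absurd h' hφ⟩
  choose t ht using hex
  have hsum : Tendsto (fun Y : ℝ => ∑ φ ∈ Rs, ((SYm Gm X φ Y).ncard : ℝ) /
      (Y * Real.log Y ^ (N - 1))) atTop (𝓝 (∑ φ ∈ Rs, t φ)) :=
    tendsto_finsetSum _ fun φ hφ => (ht φ hφ).2
  have hcard : ∀ Y : ℝ, ((SYf Gm X Y).ncard : ℝ) ≤ ∑ φ ∈ Rs, ((SYm Gm X φ Y).ncard : ℝ) := by
    intro Y
    have hfin := (syi Gm X hp hζ hz hA.fc (fun _ => True) Y).1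
    have h1 : SYf Gm X Y ⊆ ⋃ φ ∈ Rs, SYm Gm X φ Y := by
      intro φ hφ
      obtain ⟨φ', hφ', hcq⟩ := hR2 φ Y hφ
      exact Set.mem_biUnion hφ' ⟨hφ, hcq⟩
    have h2 : (⋃ φ ∈ Rs, SYm Gm X φ Y).Finite :=
      hfin.subset (Set.iUnion₂_subset fun φ _ => fun ψ hψ => hψ.1)
    have h3 := (Set.ncard_le_ncard h1 h2).trans
      (Finset.set_ncard_biUnion_le Rs fun φ => SYm Gm X φ Y)
    exact_mod_cast h3
  have hge : l ≤ ∑ φ ∈ Rs, t φ := by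
    refine ge_of_tendsto hsum ?_
    filter_upwards [hev, eventually_gt_atTop (1 : ℝ)] with Y hY hY1
    have hpos : 0 < Y * Real.log Y ^ (N - 1) :=
      mul_pos (by linarith) (pow_pos (Real.log_pos hY1) _)
    rw [← Finset.sum_div, le_div_iff₀ hpos]
    exact hY.trans (hcard Y)
  obtain ⟨φ₂, hφ₂, hpos⟩ : ∃ φ ∈ Rs, 0 < t φ := by
    by_contra hcon
    push Not at hcon
    have h1 : ∑ φ ∈ Rs, t φ ≤ 0 := Finset.sum_nonpos hcon
    linarith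
  obtain ⟨Y₂, hY₂⟩ := hR1 φ₂ hφ₂
  exact ⟨φ₂, Y₂, hY₂, t φ₂, hpos, (ht φ₂ hφ₂).2⟩

end H48.MG
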