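import Pool.Agent.H48.MG.Dfp
import Pool.Agent.H1.AR.Dua
import Pool.Agent.H1.AR.Ltb
import Pool.Agent.H1.AR.Lbl

/-!
# [H48 MG NGN] a class function of K is a class function of F j, 80-120 lines. File Pool/Agent/H48/MG/Ngn.lean

* `ngn_lg`: `w` over `v`, `nm w = nm v`, `ord v x = 0`: `lg w (inc x) = lg v x`: by `lg_unique` / `lg_spec` (H63/MA/SymB.lean): `x ^ ((nm v - 1) / p)` is congruent to `ζ ^ (lg v x).val` modulo `v`, so modulo `w`; `nm w = nm v`. (Or by Frobenius elements: `chb_fr`, `bca_kk`, `FR.kf`, `lbl_f` as in Eta.lean.)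
* `ngn_un`: the first half of the proof of `dua` (private `dua_rec`, `dua_span` in H1/AR/Dua.lean: copy): for a unit `z` outside `D.S` the function `v ↦ lg v z` on the `v ∉ D.S` of prime norm is `∑ i, κ i * D.q v i`.
* `ngn`: `z₀` from `dua` over `K` for `θ`; `inc z₀` is a unit outside `(X.A j).D.S` (`hS` of `LF`: `w ∉ (X.A j).D.S` is over `v ∉ S0`; order of `inc z₀` at `w` is a multiple of `ord v z₀ = 0`: `ltb_ord` is only for good labels; in general `ord_inc`-type lemma, see `H1/AR/Stb.lean`, `stb_ord`), `ngn_un` over `F j` (`fld_mone`, `fld_zeta`), `ngn_lg` with `ltb_nm`, `un_over`.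
-/

set_option autoImplicit false
set_option linter.dupNamespace false

open scoped NumberField
open IsDedekindDomain Filter Topology
open scoped Classical

noncomputable section

namespace H48.MG

open H63.MA H38.BB H38.BG H38.AS H57.PC H57.BRA H89.BRG H1.AR H48.MF

section field

variable {F : Type} [Field F] [NumberField F] {p : ℕ} {ζ : F}

private theorem ngn_ord (D : RM F p ζ) (m : Pl F →₀ ℤ) (hm : ∀ v ∈ D.S, m v = 0) {w : Pl F}
    (hw : w ∉ D.S) : ((ord w (m.prod fun v n => D.pi v ^ n) : ℤ) : ZMod p) = ((m w : ℤ) : ZMod p) := by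
  have hmS : ∀ v ∈ m.support, v ∉ D.S := fun v hv h => (Finsupp.mem_support_iff.1 hv) (hm v h)
  rw [Finsupp.prod, ord_prod, Int.cast_sum]
  have h4 : ∀ v ∈ m.support, v ≠ w → ((ord w (D.pi v ^ m v) : ℤ) : ZMod p) = 0 := by
    intro v hv hvw
    rw [ord_zpow, Int.cast_mul, D.pi_ne v w (hmS v hv) hw (Ne.symm hvw), mul_zero]
  by_cases hwm : w ∈ m.support
  · rw [Finset.sum_eq_single w h4 (fun h => absurd hwm h), ord_zpow, D.pi_self w hw, mul_one]
  · rw [Finset.sum_eq_zero (fun v hv => h4 v hv (fun h => hwm (h ▸ hv)))]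
    rw [Finsupp.notMem_support_iff] at hwm
    rw [hwm, Int.cast_zero]

private theorem ngn_rec (hp : p.Prime) (hζ : IsPrimitiveRoot ζ p) (D : RM F p ζ)
    {lam : Pl F → ZMod p} (hlam : IsRec p ζ lam)
    (hone : ∀ v : Pl F, ¬ Above p v → (nm v).Prime → lam v = 1) {z : Fˣ}
    (hz : ∀ v, v ∉ D.S → ord v z = 0) (m : Pl F →₀ ℤ)
    (hm : ∀ v, ¬ (v ∉ D.S ∧ (nm v).Prime) → m v = 0)
    (hq : (m.sum fun v n => (n : ZMod p) • D.q v) = 0) :
    (m.sum fun v n => (n : ZMod p) * lg p ζ v z) = 0 := by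
  have hmS : ∀ v ∈ D.S, m v = 0 := fun v hv => hm v fun h => h.1 hv
  have hPS := D.prim_of m hmS hq
  have h0 := hlam.sum _ hPS.1 z
  have hterm : ∀ v, lam v * B p ζ v (m.prod fun v n => D.pi v ^ n) z =
      -(((m v : ℤ) : ZMod p) * lg p ζ v z) := by
    intro v
    by_cases hv : v ∈ D.S
    · rw [hmS v hv, Int.cast_zero, zero_mul, neg_zero]
      by_cases ha : Above p v
      · rw [hlam.above v ha, zero_mul]
      · rw [hPS.2 v hv ha z, mul_zero]
    · have hva : ¬ Above p v := fun h => hv (D.above v h)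
      have hlz : lgv p ζ v (D.pi v) z = lg p ζ v z := by
        unfold lgv
        rw [hz v hv, neg_zero, zpow_zero, mul_one]
      rw [b_eq hp hζ hva (D.pi_self v hv), hz v hv, ngn_ord D m hmS hv, hlz, Int.cast_zero, mul_zero,
        zero_sub]
      by_cases hvp : (nm v).Prime
      · rw [hone v hva hvp, one_mul]
      · rw [hm v fun h => hvp h.2, Int.cast_zero, zero_mul, neg_zero, mul_zero]
  rw [finsum_congr hterm, finsum_eq_sum_of_support_subset (s := m.support) _ (by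
    intro v hv
    rw [Function.mem_support] at hv
    rw [Finset.mem_coe]
    by_contra h
    rw [Finsupp.notMem_support_iff] at h
    apply hv
    rw [h, Int.cast_zero, zero_mul, neg_zero]), Finset.sum_neg_distrib, neg_eq_zero] at h0
  exact h0

private theorem ngn_span (hp : p.Prime) (hζ : IsPrimitiveRoot ζ p) (D : RM F p ζ)
    {lam : Pl F → ZMod p} (hlam : IsRec p ζ lam)
    (hone : ∀ v : Pl F, ¬ Above p v → (nm v).Prime → lam v = 1) {z : Fˣ}
    (hz : ∀ v, v ∉ D.S → ord v z = 0) :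
    (fun v : {v : Pl F // v ∉ D.S ∧ (nm v).Prime} => lg p ζ v.1 z) ∈
      Submodule.span (ZMod p) (Set.range fun (j : Fin D.r)
        (v : {v : Pl F // v ∉ D.S ∧ (nm v).Prime}) => D.q v.1 j) := by
  obtain ⟨κ, hκ⟩ := rmkC_lin hp (fun v : {v : Pl F // v ∉ D.S ∧ (nm v).Prime} => D.q v.1)
    (fun v => lg p ζ v.1 z) (by
      intro m hm
      have h1 := ngn_rec hp hζ D hlam hone hz (m.mapDomain Subtype.val) (by
        intro v hv
        apply Finsupp.mapDomain_of_notMem_range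
        rintro ⟨u, rfl⟩
        exact hv u.2) (by
        rw [Finsupp.sum_mapDomain_index_inj Subtype.val_injective]
        exact hm)
      rw [Finsupp.sum_mapDomain_index_inj Subtype.val_injective] at h1
      exact h1)
  rw [Submodule.mem_span_range_iff_exists_fun]
  refine ⟨κ, funext fun v => ?_⟩
  rw [hκ v, Finset.sum_apply]
  exact Finset.sum_congr rfl fun i _ => rfl

theorem ngn_un (hp : p.Prime) (hp2 : MOne p F) (hζ : IsPrimitiveRoot ζ p) (D : RM F p ζ)
    {z : Fˣ} (hz : ∀ v, v ∉ D.S → ord v z = 0) : ∃ κ : Fin D.r → ZMod p, ∀ v, v ∉ D.S →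
      (nm v).Prime → lg p ζ v z = ∑ l, κ l * D.q v l := by
  obtain ⟨lam, hlam, hone⟩ := exists_rec_one F hp hp2 hζ
  have h := ngn_span hp hζ D hlam hone hz
  rw [Submodule.mem_span_range_iff_exists_fun] at h
  obtain ⟨κ, hκ⟩ := h
  refine ⟨κ, fun v hv hvp => ?_⟩
  have h1 := congrFun hκ ⟨v, hv, hvp⟩
  rw [Finset.sum_apply] at h1
  exact h1.symm

end field

section lgg

variable {K : Type} [Field K] [NumberField K] {L : Type} [Field L] [NumberField L] [Algebra K L]

private theorem ngn_over {w : Pl L} {v : Pl K} (h : Over w v) :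
    w.asIdeal.LiesOver v.asIdeal := ⟨h.symm⟩

private theorem ngn_lt {w : Pl L} {v : Pl K} (h : Over w v) {x : K}
    (hx : v.valuation K x < 1) : w.valuation L (algebraMap K L x) < 1 := by
  have := ngn_over h
  rw [← HeightOneSpectrum.valuation_liesOver L v w x]
  exact pow_lt_one₀ zero_le hx
    (Ideal.IsDedekindDomain.ramificationIdx'_ne_zero_of_liesOver w.asIdeal v.ne_bot)

theorem ngn_lg {p : ℕ} (hp : p.Prime) {ζ : K} (hζ : IsPrimitiveRoot ζ p) {w : Pl L} {v : Pl K}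
    (h : Over w v) (hv : ¬ Above p v) (hnm : nm w = nm v) {x : Kˣ} (hx : ord v x = 0) :
    lg p (algebraMap K L ζ) w (inc K L x) = lg p ζ v x := by
  obtain ⟨e, -, he⟩ := ord_inc (L := L) h
  apply lg_unique hp (hζ.map_of_injective (algebraMap K L).injective)
    (fun h1 => hv ((above_over h p).1 h1)) (by rw [he x, hx, mul_zero])
  have h1 := ngn_lt h (lg_spec hp hζ hv hx)
  rw [map_sub, map_pow, map_pow] at h1
  rw [hnm]
  exact h1

end lgg

variable {p u w N : ℕ} {R Q : Type} [Group R] [Group Q] [Finite R] [Fintype Q]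
  {Dg : MG p u w N R Q} {K : Type} [Field K] [NumberField K] {Ω : Type} [Field Ω] [Algebra K Ω]
  [IsAlgClosure K Ω] {ζ : K} (X : AD Dg K Ω ζ)

theorem ngn (hp : p.Prime) (hp2 : MOne p K) (hζ : IsPrimitiveRoot ζ p) (D' : RM K p ζ)
    (hS : D'.S = X.D.S0) (θ : Fin D'.r → ZMod p) (j : Fin N) :
    ∃ κ' : Fin (X.A j).D.r → ZMod p, ∀ z : Pl (X.F j), X.Gd ⟨j, z⟩ →
      ∑ i, θ i * D'.q (X.un ⟨j, z⟩) i = ∑ l, κ' l * (X.A j).D.q z l := by
  obtain ⟨z₀, hz0, hz1, -⟩ := dua hp hp2 hζ D' θ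
  have hun : ∀ w, w ∉ (X.A j).D.S → ord w (inc K (X.F j) z₀) = 0 := by
    intro w hw
    have h1 : X.un ⟨j, w⟩ ∉ X.D.S0 := un_not X (b := ⟨j, w⟩) hw
    obtain ⟨e, -, he⟩ := ord_inc (X.un_over ⟨j, w⟩)
    rw [he z₀, hz0 _ (by rw [hS]; exact h1), mul_zero]
  obtain ⟨κ', hκ'⟩ := ngn_un hp (fld_mone X hp2 j) (fld_zeta X hζ j) (X.A j).D hun
  refine ⟨κ', fun z hz => ?_⟩
  have h1 : X.un ⟨j, z⟩ ∉ D'.S := by
    rw [hS]
    exact un_not X (b := ⟨j, z⟩) hz.1
  have h2 : nm z = nm (X.un ⟨j, z⟩) := ltb_nm X hz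
  have h3 : ¬ Above p (X.un ⟨j, z⟩) := (ltb_na X hz).2
  rw [hz1 _ h1 (by rw [← h2]; exact hz.2), ← hκ' z hz.1 hz.2]
  exact (ngn_lg hp hζ (X.un_over ⟨j, z⟩) h3 h2 (hz0 _ h1)).symm

end H48.MG
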