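import Pool.Agent.H48.MG.Bbk

/-!
# [H48 MG NOF] the normal form, 100-150 lines. File Pool/Agent/H48/MG/Nof.lean

* `nof`: induction on `n`. `n = 0`: `N = fun _ => 1` (`m = m'` in `Fin 0 → ZMod p`, sums are empty). Step: `N' (m) = N (Fin.init m) * g (Fin.last n) ^ (m (Fin.last n)).val` with `N` for `g ∘ Fin.castSucc`.
  - `N' 0 = 1`; `Pi.single (Fin.last n) 1`: `Fin.init = 0`, exponent `(1 : ZMod p).val = 1` (`ZMod.val_one`, `p ≥ 2`); `Pi.single k.castSucc 1`: `Fin.init = Pi.single k 1`, exponent `0`.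
  - product: `N a * h ^ i * (N b * h ^ j) = z (..) * (N a * N b) * (h ^ i * h ^ j)`, `h = g (Fin.last n)`: `h ^ i * N b = z (i • ∑ l, b l • om last l) * (N b * h ^ i)`: first `h * N b = z (∑ l, b l • om last l.castSucc) * (N b * h)`: the set of the `b` with this property is closed under addition (`N (b + b') = z (- ..) * N b * N b'`, `z` central) and contains all `Pi.single l 1` (`hom`), and every `b` is a sum of such (see `nof_ind` below), then induction on `i`. `h ^ i.val * h ^ j.val = h ^ (i + j).val` (`gp`, `ZMod.val_add`, `pow_mod`-type: `h ^ (n % p) = h ^ n`). Sums over `Fin (n + 1)`: `Fin.sum_univ_castSucc`; `Fin.castSucc_lt_last`, `¬ last < k`.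
* `nof_ind`: an additive subset of `Fin n → ZMod p` containing `0` and all `Pi.single k 1` is everything: `m = ∑ k, (m k).val • Pi.single k 1` (`ZMod.natCast_zmod_val`).
* `nn_ex`: `nof` with `gk_pow`, `gk_comm`. The others by `dif_pos`, `choose_spec`. `nn_pr`: `nof_ind`: both sides are multiplicative (`gm_pz`, `Gm.M.eadd`, `vp` linear), `gk_pr`, `vp_single`. `nn_inv`: `NN m * NN (-m) = z (bbk m (-m)) * NN 0`, `bbk_neg_r`, `gm_zneg`.
-/

set_option autoImplicit false
set_option linter.dupNamespace false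

open scoped NumberField
open IsDedekindDomain Filter Topology
open scoped Classical

noncomputable section

namespace H48.MG

open H63.MA H38.BB H38.BG H38.AS H57.PC H57.BRA H89.BRG H1.AR H48.MF

open H51.MT

theorem nof_ind {p n : ℕ} [NeZero p] (P : (Fin n → ZMod p) → Prop) (h0 : P 0)
    (h1 : ∀ k, P (Pi.single k 1)) (ha : ∀ m m', P m → P m' → P (m + m')) (m : Fin n → ZMod p) :
    P m := by
  have hs : ∀ k (j : ℕ), P (j • Pi.single k 1) := by
    intro k j
    induction j with
    | zero =>
      rw [zero_nsmul]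
      exact h0
    | succ j ih =>
      rw [succ_nsmul]
      exact ha _ _ ih (h1 k)
  have hsum : ∀ s : Finset (Fin n), P (∑ k ∈ s, (m k).val • Pi.single k 1) := by
    intro s
    induction s using Finset.induction_on with
    | empty =>
      rw [Finset.sum_empty]
      exact h0
    | insert a s ha' ih =>
      rw [Finset.sum_insert ha']
      exact ha _ _ (hs a _) ih
  have hm : ∑ k, (m k).val • (Pi.single k 1 : Fin n → ZMod p) = m := by
    funext l
    rw [Finset.sum_apply, Finset.sum_eq_single l]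
    · rw [Pi.smul_apply, Pi.single_eq_same, nsmul_eq_mul, mul_one, ZMod.natCast_zmod_val]
    · intro k _ hk
      rw [Pi.smul_apply, Pi.single_eq_of_ne hk.symm, smul_zero]
    · intro h
      exact absurd (Finset.mem_univ _) h
  have h := hsum Finset.univ
  rwa [hm] at h

private theorem nof_c1 {p w n : ℕ} [NeZero p] {G : Type} [Group G] (z : (Fin w → ZMod p) → G)
    (z0 : z 0 = 1) (zadd : ∀ a b, z (a + b) = z a * z b) (zcen : ∀ a x, z a * x = x * z a)
    (g : Fin n → G) (h : G) (om : Fin n → Fin w → ZMod p)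
    (hom : ∀ l, h * g l = z (om l) * (g l * h)) (N : (Fin n → ZMod p) → G) (N0 : N 0 = 1)
    (N1 : ∀ k, N (Pi.single k 1) = g k)
    (N2 : ∀ m m', ∃ β, N m * N m' = z β * N (m + m')) (b : Fin n → ZMod p) :
    h * N b = z (∑ l, b l • om l) * (N b * h) := by
  refine nof_ind (fun b => h * N b = z (∑ l, b l • om l) * (N b * h)) ?_ ?_ ?_ b
  · show h * N 0 = z (∑ l, (0 : Fin n → ZMod p) l • om l) * (N 0 * h)
    have e : ∑ l, (0 : Fin n → ZMod p) l • om l = 0 :=
      Finset.sum_eq_zero fun l _ => by rw [Pi.zero_apply, zero_smul]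
    rw [e, N0, z0, mul_one, one_mul, one_mul]
  · intro k
    show h * N (Pi.single k 1) = z (∑ l, (Pi.single k 1 : Fin n → ZMod p) l • om l) *
      (N (Pi.single k 1) * h)
    have e : ∑ l, (Pi.single k 1 : Fin n → ZMod p) l • om l = om k := by
      rw [Finset.sum_eq_single k]
      · rw [Pi.single_eq_same, one_smul]
      · intro l _ hl
        rw [Pi.single_eq_of_ne hl, zero_smul]
      · intro h
        exact absurd (Finset.mem_univ _) h
    rw [e, N1, hom]
  · intro m m' hm hm'
    show h * N (m + m') = z (∑ l, (m + m') l • om l) * (N (m + m') * h)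
    obtain ⟨β, hβ⟩ := N2 m m'
    have e : ∑ l, (m + m') l • om l = ∑ l, m l • om l + ∑ l, m' l • om l := by
      rw [← Finset.sum_add_distrib]
      exact Finset.sum_congr rfl fun l _ => by rw [Pi.add_apply, add_smul]
    rw [e, zadd]
    refine mul_left_cancel (a := z β) ?_
    calc z β * (h * N (m + m')) = h * (z β * N (m + m')) := by
          rw [← mul_assoc, zcen, mul_assoc]
      _ = h * N m * N m' := by rw [← hβ, mul_assoc]
      _ = z (∑ l, m l • om l) * (N m * (h * N m')) := by rw [hm]; simp only [mul_assoc]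
      _ = z (∑ l, m l • om l) * (N m * (z (∑ l, m' l • om l) * (N m' * h))) := by rw [hm']
      _ = z (∑ l, m l • om l) * z (∑ l, m' l • om l) * (N m * N m' * h) := by
          rw [← mul_assoc (N m), ← zcen]
          simp only [mul_assoc]
      _ = z β * (z (∑ l, m l • om l) * z (∑ l, m' l • om l) * (N (m + m') * h)) := by
          rw [hβ, ← mul_assoc (z β), zcen β (z (∑ l, m l • om l) * z (∑ l, m' l • om l))]
          simp only [mul_assoc]

private theorem nof_c2 {w p : ℕ} {G : Type} [Group G] (z : (Fin w → ZMod p) → G)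
    (z0 : z 0 = 1) (zadd : ∀ a b, z (a + b) = z a * z b) (zcen : ∀ a x, z a * x = x * z a)
    (h x : G) (s : Fin w → ZMod p) (hs : h * x = z s * (x * h)) (i : ℕ) :
    h ^ i * x = z (i • s) * (x * h ^ i) := by
  induction i with
  | zero => rw [pow_zero, zero_nsmul, z0, one_mul, one_mul, mul_one]
  | succ i ih =>
    calc h ^ (i + 1) * x = h ^ i * (h * x) := by rw [pow_succ, mul_assoc]
      _ = h ^ i * (z s * (x * h)) := by rw [hs]
      _ = z s * (h ^ i * x * h) := by
        rw [← mul_assoc, ← zcen]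
        simp only [mul_assoc]
      _ = z s * (z (i • s) * (x * h ^ i) * h) := by rw [ih]
      _ = z ((i + 1) • s) * (x * h ^ (i + 1)) := by
        rw [succ_nsmul', zadd, pow_succ]
        simp only [mul_assoc]

theorem nof {p w : ℕ} (hp : p.Prime) {G : Type} [Group G] (z : (Fin w → ZMod p) → G)
    (z0 : z 0 = 1) (zadd : ∀ a b, z (a + b) = z a * z b) (zcen : ∀ a x, z a * x = x * z a)
    (n : ℕ) (g : Fin n → G) (gp : ∀ k, g k ^ p = 1) (om : Fin n → Fin n → Fin w → ZMod p)
    (hom : ∀ k l, g k * g l = z (om k l) * (g l * g k)) :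
    ∃ N : (Fin n → ZMod p) → G, N 0 = 1 ∧ (∀ k, N (Pi.single k 1) = g k) ∧
      ∀ m m', N m * N m' = z (∑ k, ∑ l, if l < k then (m k * m' l) • om k l else 0) *
        N (m + m') := by
  have hp0 : NeZero p := ⟨hp.ne_zero⟩
  have hp1 : Fact (1 < p) := ⟨hp.one_lt⟩
  induction n with
  | zero =>
    refine ⟨fun _ => 1, rfl, fun k => k.elim0, fun m m' => ?_⟩
    rw [Fin.sum_univ_zero, z0]
  | succ n ih =>
    obtain ⟨N, N0, N1, N2⟩ := ih (fun k => g k.castSucc) (fun k => gp _)
      (fun k l => om k.castSucc l.castSucc) (fun k l => hom _ _)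
    have c1 := nof_c1 z z0 zadd zcen (fun k => g k.castSucc) (g (Fin.last n))
      (fun l => om (Fin.last n) l.castSucc) (fun l => hom _ _) N N0 N1 fun m m' => ⟨_, N2 m m'⟩
    have hpw : ∀ x y : ZMod p, g (Fin.last n) ^ x.val * g (Fin.last n) ^ y.val =
        g (Fin.last n) ^ (x + y).val := by
      intro x y
      rw [← pow_add, ZMod.val_add, ← pow_eq_pow_mod _ (gp (Fin.last n))]
    refine ⟨fun m => N (fun i => m i.castSucc) * g (Fin.last n) ^ (m (Fin.last n)).val, ?_, ?_, ?_⟩
    · have e : (fun i : Fin n => (0 : Fin (n + 1) → ZMod p) i.castSucc) = 0 := rfl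
      show N (fun i : Fin n => (0 : Fin (n + 1) → ZMod p) i.castSucc) *
        g (Fin.last n) ^ ((0 : Fin (n + 1) → ZMod p) (Fin.last n)).val = 1
      rw [e, N0, Pi.zero_apply, ZMod.val_zero, pow_zero, mul_one]
    · intro k
      show N (fun i : Fin n => (Pi.single k 1 : Fin (n + 1) → ZMod p) i.castSucc) *
        g (Fin.last n) ^ ((Pi.single k 1 : Fin (n + 1) → ZMod p) (Fin.last n)).val = g k
      induction k using Fin.lastCases with
      | last =>
        have e : (fun i : Fin n => (Pi.single (Fin.last n) 1 : Fin (n + 1) → ZMod p) i.castSucc) =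
            0 := by
          funext i
          rw [Pi.single_eq_of_ne (Fin.castSucc_lt_last i).ne]
          rfl
        rw [e, N0, Pi.single_eq_same, ZMod.val_one, pow_one, one_mul]
      | cast k =>
        have e : (fun i : Fin n => (Pi.single k.castSucc 1 : Fin (n + 1) → ZMod p) i.castSucc) =
            Pi.single k 1 := by
          funext i
          by_cases hik : i = k
          · subst hik
            rw [Pi.single_eq_same, Pi.single_eq_same]
          · rw [Pi.single_eq_of_ne hik, Pi.single_eq_of_ne fun h => hik (Fin.castSucc_injective n h)]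
        rw [e, N1, Pi.single_eq_of_ne (Fin.castSucc_lt_last k).ne', ZMod.val_zero, pow_zero,
          mul_one]
    · intro m m'
      show N (fun i : Fin n => m i.castSucc) * g (Fin.last n) ^ (m (Fin.last n)).val *
        (N (fun i : Fin n => m' i.castSucc) * g (Fin.last n) ^ (m' (Fin.last n)).val) =
        z (∑ k, ∑ l, if l < k then (m k * m' l) • om k l else 0) *
          (N (fun i : Fin n => (m + m') i.castSucc) *
            g (Fin.last n) ^ ((m + m') (Fin.last n)).val)
      have e1 : (fun i : Fin n => (m + m') i.castSucc) =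
          (fun i : Fin n => m i.castSucc) + fun i : Fin n => m' i.castSucc := rfl
      have e2 : ∑ k, ∑ l, (if l < k then (m k * m' l) • om k l else 0) =
          (∑ k : Fin n, ∑ l : Fin n, if l < k then (m k.castSucc * m' l.castSucc) •
            om k.castSucc l.castSucc else 0) +
          (m (Fin.last n)).val • ∑ l : Fin n, m' l.castSucc • om (Fin.last n) l.castSucc := by
        rw [Fin.sum_univ_castSucc]
        congr 1
        · refine Finset.sum_congr rfl fun k _ => ?_
          rw [Fin.sum_univ_castSucc, if_neg (not_lt.2 (Fin.le_last _)), add_zero]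
          rfl
        · rw [Fin.sum_univ_castSucc, if_neg (lt_irrefl _), add_zero, Finset.smul_sum]
          refine Finset.sum_congr rfl fun l _ => ?_
          rw [if_pos (Fin.castSucc_lt_last l), mul_smul, ← Nat.cast_smul_eq_nsmul (ZMod p),
            ZMod.natCast_zmod_val]
      rw [e1, e2, zadd, Pi.add_apply, ← hpw]
      have c2 := nof_c2 z z0 zadd zcen (g (Fin.last n)) (N fun i : Fin n => m' i.castSucc) _
        (c1 fun i : Fin n => m' i.castSucc) (m (Fin.last n)).val
      have c3 := N2 (fun i : Fin n => m i.castSucc) fun i : Fin n => m' i.castSucc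
      generalize (N fun i : Fin n => m i.castSucc) = A at c3 ⊢
      generalize (N fun i : Fin n => m' i.castSucc) = B at c2 c3 ⊢
      generalize g (Fin.last n) ^ (m (Fin.last n)).val = H at c2 ⊢
      generalize g (Fin.last n) ^ (m' (Fin.last n)).val = H' at ⊢
      generalize (∑ k : Fin n, ∑ l : Fin n, if l < k then (m k.castSucc * m' l.castSucc) •
            om k.castSucc l.castSucc else 0) = β at c3 ⊢
      generalize ((m (Fin.last n)).val • ∑ l : Fin n, m' l.castSucc •
        om (Fin.last n) l.castSucc) = s at c2 ⊢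
      calc A * H * (B * H') = A * (H * B) * H' := by simp only [mul_assoc]
        _ = z s * (A * B * (H * H')) := by
          rw [c2, ← mul_assoc A, ← zcen]
          simp only [mul_assoc]
        _ = _ := by
          rw [c3, zcen β (z s)]
          simp only [mul_assoc]

variable {p u w N : ℕ} {G R Q : Type} [Group G] [Group R] [Group Q] [Fintype Q]
  (Gm : GM p u w N G R Q)

theorem nn_ex (hp : p.Prime) : ∃ n : (Fin (uE Gm.M) → ZMod p) → G, n 0 = 1 ∧
    (∀ k, n (Pi.single k 1) = gk Gm k) ∧
    ∀ m m', n m * n m' = Gm.z (bbk Gm m m') * n (m + m') :=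
  nof hp Gm.z (gm_z0 Gm) Gm.zadd Gm.zcen (uE Gm.M) (gk Gm) (gk_pow Gm)
    (fun k l => Gm.M.om (yk Gm k) (yk Gm l)) (gk_comm Gm)

private theorem nn_spec (hp : p.Prime) : NN Gm 0 = 1 ∧
    (∀ k, NN Gm (Pi.single k 1) = gk Gm k) ∧
    ∀ m m', NN Gm m * NN Gm m' = Gm.z (bbk Gm m m') * NN Gm (m + m') := by
  unfold NN
  rw [dif_pos (nn_ex Gm hp)]
  exact (nn_ex Gm hp).choose_spec

theorem nn_zero (hp : p.Prime) : NN Gm 0 = 1 := (nn_spec Gm hp).1

theorem nn_single (hp : p.Prime) (k : Fin (uE Gm.M)) : NN Gm (Pi.single k 1) = gk Gm k :=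
  (nn_spec Gm hp).2.1 k

theorem nn_mul (hp : p.Prime) (m m' : Fin (uE Gm.M) → ZMod p) :
    NN Gm m * NN Gm m' = Gm.z (bbk Gm m m') * NN Gm (m + m') :=
  (nn_spec Gm hp).2.2 m m'

theorem nn_pr (hp : p.Prime) (m : Fin (uE Gm.M) → ZMod p) :
    Gm.pr (NN Gm m) = Gm.M.e (vp Gm.M m) := by
  have hp0 : NeZero p := ⟨hp.ne_zero⟩
  refine nof_ind (fun m => Gm.pr (NN Gm m) = Gm.M.e (vp Gm.M m)) ?_ ?_ ?_ m
  · show Gm.pr (NN Gm 0) = Gm.M.e (vp Gm.M 0)
    have h := Gm.M.eadd 0 0
    rw [add_zero] at h
    rw [nn_zero Gm hp, map_one, map_zero]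
    exact (left_eq_mul.1 h).symm
  · intro k
    show Gm.pr (NN Gm (Pi.single k 1)) = Gm.M.e (vp Gm.M (Pi.single k 1))
    rw [nn_single Gm hp, gk_pr, vp_single]
  · intro m m' hm hm'
    show Gm.pr (NN Gm (m + m')) = Gm.M.e (vp Gm.M (m + m'))
    have h := congrArg Gm.pr (nn_mul Gm hp m m')
    rw [map_mul, map_mul, gm_pz, one_mul] at h
    have hm1 : Gm.pr (NN Gm m) = Gm.M.e (vp Gm.M m) := hm
    have hm2 : Gm.pr (NN Gm m') = Gm.M.e (vp Gm.M m') := hm'
    rw [← h, hm1, hm2, map_add, Gm.M.eadd]

theorem nn_inv (hp : p.Prime) (m : Fin (uE Gm.M) → ZMod p) :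
    (NN Gm m)⁻¹ = Gm.z (bbk Gm m m) * NN Gm (-m) := by
  have h := nn_mul Gm hp m (-m)
  rw [add_neg_cancel, nn_zero Gm hp, mul_one, bbk_neg_r, gm_zneg] at h
  rw [inv_eq_iff_mul_eq_one, ← mul_assoc, ← Gm.zcen, mul_assoc, h, mul_inv_cancel]

end H48.MG
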