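import Pool.Agent.H48.MG.Omg
import Pool.Agent.H48.MF.Lfe
import Pool.Agent.H48.MF.Ing
import Pool.Agent.H51.MT.Sta
import Pool.Agent.H1.AR.Lbl
import Pool.Agent.H1.AR.ParA

/-!
# [H48 MG ODA] adapted lifts: normal form data, values at the inertia generators, 80-130 lines. File Pool/Agent/H48/MG/Oda.lean

`mg X g σ = ∑ a ∈ g, mm X a σ = (UX X).bet g σ` (by definition). All lemmas of H1/AR hold for `UX X` (same labels, `D`, `L`, `F j`, `A j`); `[Finite (UR Gm.M)]` is an instance in H51/MT/Una.lean (`[NeZero p]`).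
* `mg_vp`: `vp_mm`, `map_sum`, definition of `bet`. `mg_hom`: `rh_tw`-type for `UX X`: `bet_cy` and `tws` (H1/AR) for `UX X` and `m0 X` (`m0_isC`): `ρ σ = e (mg σ) * m0 σ = ⟨mg σ, φQ σ⟩`, of finite type (`IsL`). `mg_co`: from `bet_cy` for `UX X`.
* `al_nd`: `hA.pr`, `rh_tw`, `mg_vp`, `hc.pi`.
* `mg_0`: `v ∉ S0` not under `g`: `bet_ur` for `UX X` with `P' = (X.L.ld v hv).P`, `τ = X.L.t v` (`LDs.t`, `dif_pos`, `(X.L.ld v hv).ht`).
* `mg_1`: `a ∈ g`, `v = un a`, `γ` with `Cn X a hv γ`: `mg (X.t a) = Pi.single (ok a.1) 1` (`bet_t` for `UX X`; `(Un Dg).y j = bs ⟨j, mk 1⟩ = Pi.single (ok j) 1`). By `lbl_t` for the homomorphism `ρ` of `mg_hom` (exponent `p` on `inr`: `par_pow` for `UX X`, or directly: `φQ = 1` there): `ρ (X.t a) = ρ γ * ρ (t v) * (ρ γ)⁻¹`; first coordinates, `φQ (t v) = 1` (`X.ur`): `mg (X.t a) = mg γ + pe (φQ γ) (mg (t v)) - mg γ`, so `mg (t v) =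 pe (φQ γ)⁻¹ (Pi.single (ok a.1) 1)`, `pe_single`.
-/

set_option autoImplicit false
set_option linter.dupNamespace false
set_option linter.unusedSectionVars false
set_option linter.unusedVariables false

open scoped NumberField
open IsDedekindDomain Filter Topology
open scoped Classical

noncomputable section

namespace H48.MG

open H63.MA H38.BB H38.BG H38.AS H57.PC H57.BRA H89.BRG H1.AR H48.MF

open H51.MT

variable {p u w N : ℕ} {G R Q : Type} [Group G] [Group R] [Group Q] [Finite G] [Finite R]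
  [Fintype Q] (Gm : GM p u w N G R Q)
  {K : Type} [Field K] [NumberField K] {Ω : Type} [Field Ω] [Algebra K Ω] [IsAlgClosure K Ω]
  {ζ : K} (X : AD Gm.M K Ω ζ)

omit [Finite G] [Finite R] [IsAlgClosure K Ω] in
theorem mg_vp (g : Finset X.Lb) (σ : Gal(Ω/K)) : vp Gm.M (mg X g σ) = X.bet g σ := by
  unfold mg
  rw [map_sum]
  exact Finset.sum_congr rfl fun a _ => vp_mm X a σ

theorem mg_hom (hp : p.Prime) (hζ : IsPrimitiveRoot ζ p) (g : Finset X.Lb) :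
    ∃ ρ : Gal(Ω/K) →* UR Gm.M, H38.ML.FT ρ ∧ ∀ σ, ρ σ = ⟨mg X g σ, X.φQ σ⟩ := by
  obtain ⟨ρ, h1, h2⟩ := tws (UX X) (m0_isC X).toIsL (bet_cy (UX X) hp hζ g)
  refine ⟨ρ, h2.ft, fun σ => ?_⟩
  rw [h1 σ]
  apply UR.ext
  · change (UX X).bet g σ + pe Gm.M 1 (0 : Fin (uE Gm.M) → ZMod p) = mg X g σ
    rw [map_zero, add_zero]
    rfl
  · change (1 : Q) * X.φQ σ = X.φQ σ
    rw [one_mul]

theorem mg_co (hp : p.Prime) (hζ : IsPrimitiveRoot ζ p) (g : Finset X.Lb) (σ τ : Gal(Ω/K)) :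
    mg X g (σ * τ) = mg X g σ + pe Gm.M (X.φQ σ) (mg X g τ) := by
  exact (bet_cy (UX X) hp hζ g).co σ τ

theorem al_nd (hp : p.Prime) (hζ : IsPrimitiveRoot ζ p) {c : Gal(Ω/K) →* R} (hc : X.IsC c)
    {g : Finset X.Lb} {φ₁ φ : Gal(Ω/K) →* G} {ε : Pl K → Fin w → ZMod p}
    (hA : AL Gm X φ₁ c g φ ε) : Nd Gm X.φQ c (mg X g) φ where
  mc := mg_co Gm X hp hζ g
  pi := hc.toIsL.pi
  pr := fun σ => by
    rw [hA.pr, mg_vp, rh_tw Gm X hp hζ hc g σ]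

theorem mg_0 (hp : p.Prime) (hζ : IsPrimitiveRoot ζ p) {g : Finset X.Lb} (hg : X.Ok g)
    {v : Pl K} (hv : v ∉ X.D.S0) (h : ∀ a ∈ g, X.un a ≠ v) {τ : Gal(Ω/K)}
    (hτ : τ ∈ inr X.L v) : mg X g τ = 0 := by
  have h1 : τ ∈ (X.L.ld v hv).P.inertia Gal(Ω/K) := by
    rw [inr, dif_pos hv] at hτ
    exact hτ
  exact bet_ur (UX X) hp hζ (g := g) hg hv h (X.L.ld v hv).prime (X.L.ld v hv).under h1

theorem mg_p (hp : p.Prime) (hζ : IsPrimitiveRoot ζ p) (g : Finset X.Lb)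
    {v : Pl K} (hv : v ∉ X.D.S0) {τ : Gal(Ω/K)} (hτ : τ ∈ inr X.L v) :
    (⟨mg X g τ, X.φQ τ⟩ : UR Gm.M) ^ p = 1 := by
  rw [X.ur v hv τ hτ]
  exact e_pow (Un Gm.M) (mg X g τ)

theorem mg_1 (hp : p.Prime) (hζ : IsPrimitiveRoot ζ p) {g : Finset X.Lb} (hg : X.Ok g)
    {a : X.Lb} (ha : a ∈ g) {v : Pl K} (hv : v ∉ X.D.S0) (hav : X.un a = v) {γ : Gal(Ω/K)}
    (hγ : H1.AR.Cn X a hv γ) :
    mg X g (X.L.t v) = Pi.single (pk Gm (X.φQ γ)⁻¹ (ok Gm a.1)) 1 := by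
  have : NeZero p := ⟨hp.ne_zero⟩
  obtain ⟨ρ, hρ, h1⟩ := mg_hom Gm X hp hζ g
  have h2 := lbl_t X hp hζ (hg.1 a ha) hv hav hγ ρ hρ (fun τ hτ => by
    rw [h1]
    exact mg_p Gm X hp hζ g hv hτ)
  have htv : X.L.t v ∈ inr X.L v := by
    rw [inr, dif_pos hv, LDs.t, dif_pos hv]
    exact (X.L.ld v hv).ht
  have h3 : mg X g (X.t a) = Pi.single (ok Gm a.1) 1 := bet_t (UX X) hp hζ (g := g) hg ha
  have h4 := congrArg UR.v h2
  rw [h1, h1, h1, UR.mul_v, UR.mul_v, UR.mul_q, UR.inv_v] at h4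
  have h5 : mg X g (X.t a) = mg X g γ + pe Gm.M (X.φQ γ) (mg X g (X.L.t v)) +
      pe Gm.M (X.φQ γ * X.φQ (X.L.t v)) (-pe Gm.M (X.φQ γ)⁻¹ (mg X g γ)) := h4
  rw [X.ur v hv _ htv, mul_one, map_neg, ← pe_mul, mul_inv_cancel, pe_one, h3] at h5
  have h6 : pe Gm.M (X.φQ γ) (mg X g (X.L.t v)) = Pi.single (ok Gm a.1) 1 := by
    rw [h5]
    abel
  rw [← pe_single, ← h6, ← pe_mul, inv_mul_cancel, pe_one]

end H48.MG
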