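import Pool.Agent.H48.MG.Thm

/-!
# [H48 MG OMG] the cochain of a lift, 90-140 lines. File Pool/Agent/H48/MG/Omg.lean

`Γ` any group, `h : Nd q c m φ`. Write `N = NN`, `s = sec`.
* `sec1`: `sec 1 * sec 1 = z (c k 1 1) * sec 1`, `(Gm.M.coc k).l1`, `gm_z0`. `nd_one`: `m 1 = 0` (`mc` with `σ = τ = 1`, `pe_one`).
* `fz_spec`: `pr (N (m σ) * s (c σ)) = e (vp (m σ)) * c σ` (`nn_pr`, `sec_pr`), `gm_fib`. `fz_uni`: `Gm.zinj`, `mul_right_cancel`.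
* `fz_mul`: `φ (σ τ) = φ σ φ τ = z (f σ + f τ) N (m σ) s (c σ) N (m τ) s (c τ)`, `s (c σ) N (m τ) = z (thk (c σ) (m τ)) N (σ m τ) s (c σ)` (`th_conj`, `sec_pr`, `h.pi`), `nn_mul`, `sec_mul`; `fz_uni`.
* `om_co`: with `ησ = η (q σ)`: the `η f`-part of the left side minus the right side is (`hη.mul`, `fz_mul`) `ητ (f υ) + ησ (f (τ υ)) - η(στ) (f υ) - ησ (f τ) = ησ (thk (c τ) (m υ) + bbk (m τ) (τ m υ) + c (c τ) (c υ))`; the `tht`-part (`tht_mul`, `tht_pol`, `h.mc`): `tht (c τ) (m υ) + tht (c σ) (m τ + τ m υ) - tht (c σ * c τ) (m υ) - tht (c σ) (m τ) = - ησ (thk (c τ) (m υ)) + hb (σ m τ) (σ τ m υ) - hb (m τ) (τ m υ) - ησ (bbk (m τ) (τ m υ))`;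
  the `hbk`-part: `hb (m τ) (τ m υ) + hb (m σ) (σ m τ + σ τ m υ) - hb (m σ + σ m τ) (σ τ m υ) - hb (m σ) (σ m τ) = hb (m τ) (τ m υ) - hb (σ m τ) (σ τ m υ)`. Sum: `ησ (c (c τ) (c υ))`.
* `om_one`: `gnr_one`, `tht_one`, `hbk_zero_l`; `fz 1 = 0` (`fz_uni`, `nn_zero`, `sec1`), `tht_zero`, `map_zero`, `hbk_zero_r`. `om_fin`: `fz τ` depends only on `φ τ`, `m τ`, `c τ` (definition).
-/

set_option autoImplicit false
set_option linter.dupNamespace false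

open scoped NumberField
open IsDedekindDomain Filter Topology
open scoped Classical

noncomputable section

namespace H48.MG

open H63.MA H38.BB H38.BG H38.AS H57.PC H57.BRA H89.BRG H1.AR H48.MF

open H51.MT

variable {p u w N : ℕ} {G R Q : Type} [Group G] [Group R] [Group Q] [Fintype Q]
  (Gm : GM p u w N G R Q) {η : Q → Fin w → ZMod p} {f : Fin N → Fin w → ZMod p}
  {Γ : Type} [Group Γ] {q : Γ →* Q} {c : Γ →* R} {m : Γ → Fin (uE Gm.M) → ZMod p}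
  {φ : Γ →* G}

omit [Fintype Q] in
theorem sec1 : Gm.sec 1 = 1 := by
  have h := Gm.sec_mul 1 1
  have h1 : (fun k => Gm.M.c k 1 1) = (0 : Fin w → ZMod p) := by
    funext k
    exact (Gm.M.coc k).l1 1
  rw [h1, gm_z0, one_mul, mul_one] at h
  exact mul_eq_left.1 h

theorem nd_one (h : Nd Gm q c m φ) : m 1 = 0 := by
  have h1 := h.mc 1 1
  rw [map_one, pe_one, mul_one] at h1
  exact left_eq_add.1 h1

theorem fz_spec (hp : p.Prime) (h : Nd Gm q c m φ) (σ : Γ) :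
    φ σ = Gm.z (fz Gm c m φ σ) * (NN Gm (m σ) * Gm.sec (c σ)) := by
  have hex : ∃ a, φ σ = Gm.z a * (NN Gm (m σ) * Gm.sec (c σ)) := by
    refine gm_fib Gm ?_
    rw [h.pr, map_mul, nn_pr Gm hp, Gm.sec_pr]
  unfold fz
  rw [dif_pos hex]
  exact hex.choose_spec

theorem fz_uni {σ : Γ} {a : Fin w → ZMod p}
    (ha : φ σ = Gm.z a * (NN Gm (m σ) * Gm.sec (c σ))) : fz Gm c m φ σ = a := by
  have hex : ∃ a, φ σ = Gm.z a * (NN Gm (m σ) * Gm.sec (c σ)) := ⟨a, ha⟩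
  unfold fz
  rw [dif_pos hex]
  have h1 := ha.symm.trans hex.choose_spec
  exact Gm.zinj (mul_right_cancel h1).symm

theorem fz_mul (hp : p.Prime) (h : Nd Gm q c m φ) (σ τ : Γ) :
    fz Gm c m φ (σ * τ) = fz Gm c m φ σ + fz Gm c m φ τ + thk Gm (c σ) (m τ) +
      bbk Gm (m σ) (pe Gm.M (q σ) (m τ)) + fun k => Gm.M.c k (c σ) (c τ) := by
  refine fz_uni Gm ?_
  have e1 := fz_spec Gm hp h σ
  have e2 := fz_spec Gm hp h τ
  have e3 := th_conj Gm hp (Gm.sec (c σ)) (m τ)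
  rw [Gm.sec_pr, h.pi] at e3
  have e4 : Gm.sec (c σ) * NN Gm (m τ) =
      Gm.z (thk Gm (c σ) (m τ)) * NN Gm (pe Gm.M (q σ) (m τ)) * Gm.sec (c σ) := by
    rw [← e3]
    group
  have e5 := nn_mul Gm hp (m σ) (pe Gm.M (q σ) (m τ))
  have e6 := Gm.sec_mul (c σ) (c τ)
  have z1 := Gm.zcen
  calc φ (σ * τ) = φ σ * φ τ := map_mul φ σ τ
    _ = Gm.z (fz Gm c m φ σ) * (NN Gm (m σ) * Gm.sec (c σ)) *
        (Gm.z (fz Gm c m φ τ) * (NN Gm (m τ) * Gm.sec (c τ))) := by rw [← e1, ← e2]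
    _ = Gm.z (fz Gm c m φ σ) * Gm.z (fz Gm c m φ τ) *
        (NN Gm (m σ) * (Gm.sec (c σ) * NN Gm (m τ)) * Gm.sec (c τ)) := by
      rw [mul_assoc (Gm.z (fz Gm c m φ σ)) (Gm.z (fz Gm c m φ τ)), mul_assoc (Gm.z (fz Gm c m φ σ))]
      congr 1
      rw [← mul_assoc (NN Gm (m σ) * Gm.sec (c σ)), ← z1 (fz Gm c m φ τ) (NN Gm (m σ) * Gm.sec (c σ))]
      group
    _ = Gm.z (fz Gm c m φ σ) * Gm.z (fz Gm c m φ τ) * Gm.z (thk Gm (c σ) (m τ)) *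
        (NN Gm (m σ) * NN Gm (pe Gm.M (q σ) (m τ)) * (Gm.sec (c σ) * Gm.sec (c τ))) := by
      rw [e4]
      have e7 : NN Gm (m σ) * (Gm.z (thk Gm (c σ) (m τ)) * NN Gm (pe Gm.M (q σ) (m τ)) *
          Gm.sec (c σ)) = Gm.z (thk Gm (c σ) (m τ)) * (NN Gm (m σ) * NN Gm (pe Gm.M (q σ) (m τ)) *
          Gm.sec (c σ)) := by
        rw [mul_assoc (Gm.z (thk Gm (c σ) (m τ))), ← mul_assoc (NN Gm (m σ)), ← z1]
        group
      rw [e7]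
      group
    _ = Gm.z (fz Gm c m φ σ) * Gm.z (fz Gm c m φ τ) * Gm.z (thk Gm (c σ) (m τ)) *
        (Gm.z (bbk Gm (m σ) (pe Gm.M (q σ) (m τ))) * Gm.z (fun k => Gm.M.c k (c σ) (c τ)) *
          (NN Gm (m σ + pe Gm.M (q σ) (m τ)) * Gm.sec (c σ * c τ))) := by
      rw [e5, e6]
      have e7 : Gm.z (bbk Gm (m σ) (pe Gm.M (q σ) (m τ))) * NN Gm (m σ + pe Gm.M (q σ) (m τ)) *
          (Gm.z (fun k => Gm.M.c k (c σ) (c τ)) * Gm.sec (c σ * c τ)) =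
          Gm.z (bbk Gm (m σ) (pe Gm.M (q σ) (m τ))) * Gm.z (fun k => Gm.M.c k (c σ) (c τ)) *
          (NN Gm (m σ + pe Gm.M (q σ) (m τ)) * Gm.sec (c σ * c τ)) := by
        have e8 := z1 (fun k => Gm.M.c k (c σ) (c τ)) (NN Gm (m σ + pe Gm.M (q σ) (m τ)))
        rw [mul_assoc, ← mul_assoc (NN Gm _), ← e8]
        group
      rw [e7]
    _ = _ := by
      rw [h.mc, map_mul, Gm.zadd, Gm.zadd, Gm.zadd, Gm.zadd]
      group

theorem om_co (hp : p.Prime) (hη : Gnr Gm η) (hf : Alf Gm η f) (h : Nd Gm q c m φ)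
    (σ τ υ : Γ) : Om Gm η f q c m φ τ υ + Om Gm η f q c m φ σ (τ * υ) =
      Om Gm η f q c m φ (σ * τ) υ + Om Gm η f q c m φ σ τ +
        dt (η (q σ)) (fun k => Gm.M.c k (c τ) (c υ)) := by
  unfold Om
  rw [fz_mul Gm hp h τ υ, h.mc τ υ, h.mc σ τ, map_mul q, map_mul c, hη.mul,
    tht_mul Gm hp hη hf (c σ) (c τ) (m υ), tht_pol Gm hη hf (c σ) (m τ) (pe Gm.M (q τ) (m υ)),
    h.pi, h.pi, pe_mul, map_add, hbk_add_l, hbk_add_r, dt_add', dt_add', dt_add', dt_add', dt_ladd]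
  ring

theorem om_one (hp : p.Prime) (hη : Gnr Gm η) (h : Nd Gm q c m φ) (σ : Γ) :
    Om Gm η f q c m φ 1 σ = 0 ∧ Om Gm η f q c m φ σ 1 = 0 := by
  have h1 : fz Gm c m φ 1 = 0 := by
    refine fz_uni Gm ?_
    rw [nd_one Gm h, map_one, map_one, gm_z0, nn_zero Gm hp, sec1, one_mul, one_mul]
  unfold Om
  constructor
  · rw [map_one, map_one, gnr_one Gm hη, dt_lzero, tht_one Gm hp, nd_one Gm h, hbk_zero_l, add_zero,
      add_zero]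
  · rw [h1, dt_zero', nd_one Gm h, tht_zero, map_zero, hbk_zero_r, add_zero, add_zero]

theorem om_fin {σ σ' τ τ' : Γ} (h1 : φ τ = φ τ') (h2 : c σ = c σ') (h3 : c τ = c τ')
    (h4 : m σ = m σ') (h5 : m τ = m τ') (h6 : q σ = q σ') :
    Om Gm η f q c m φ σ τ = Om Gm η f q c m φ σ' τ' := by
  unfold Om fz
  rw [h1, h2, h3, h4, h5, h6]

end H48.MG
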