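import Pool.Agent.H48.MG.Oda

/-!
# [H48 MG OML] the cochain of an adapted lift at the places outside S0, 100-150 lines. File Pool/Agent/H48/MG/Oml.lean

`F = X.Fr.F v`, `t = X.L.t v`, `m = mg X g`; `c t = 1` (`hc.ur`, `t ∈ inr`), `φQ t = 1`, so `Om t F = dt (η 1) .. + tht 1 (m F) + hbk (m t) (m F) = hbk (m t) (m F)` (`gnr_one`, `tht_one`, `pe_one`).
Case 1: `v` not under `g`: `m t = 0` (`mg_0`), `hbk_zero_l/r`, `tht_zero`: the left side is `dt (η (φQ F)) (fz t)`, `φ t = z (fz t) * (NN 0 * sec 1) = z (fz t)`. If `v` is good: `φ t = z (ε v)` (`hA.e1`), `fz t = ε v` (`zinj`). If not: `nm v` is not prime, `φ t = 1` (`hA.un`), `fz t = 0 = ε v` (`hA.e0`).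
Case 2: `v = un a`, `a ∈ g`: `lbl_ex`: `γ`. `k = pk (φQ γ)⁻¹ (ok a.1)`, `m t = Pi.single k 1` (`mg_1`). Let `q = φQ F`.
 (1) `φQ (X.fb a) = φQ γ * q * (φQ γ)⁻¹` (`lbl_f` for `φQ`, `φQ (X.t a) = 1`) is in `H a.1` (`fld_phi`). So `pk q k = k` (`lbl_fix`, or: `pk (φQ (fb a)) (ok j) = ok j` and `pk_mul`), and `dt (η q) d = 0` for `d ∈ Del a.1`: `η q = η (φQ (X.fb a))` (`hη.mul`, `gnr_inv`), `hη.del`.
 (2) `fz t`: `φ (X.t a) = φ γ * φ t * (φ γ)⁻¹` (`lbl_t`, `hA.pw`), `= z (ε v) * gk (ok a.1)` (`hA.e2`, `gk_ok`), so `φ t = z (ε v) * ((φ γ)⁻¹ * gk (ok a.1) * φ γ) = z (ε v + dlk (pr (φ γ)⁻¹) (ok a.1)) * gk k` (`gk_conj` with `x = (φ γ)⁻¹`; `π (pr (φ γ)) = φQ γ`). Also `φ t = z (fz t) * (NN (Pi.single k 1) * sec 1) = z (fz t) * gk k`. So `fz t = ε v + dlk ..`, the second in `Del a.1` (`dlk_del`), `dt (η q) (fz t) = dt (η q) (ε v)` by (1).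
 (3) `tht (c F) (Pi.single k 1) = dt (rtk (pk q k)) (dlk (c F) k) = dt (rtk k) (dlk (c F) k)` (`tht_bs`, `π (c F) = q`).
 (4) `hbk (m F) (pe q (Pi.single k 1)) - hbk (Pi.single k 1) (m F) = dt (rtk k) (om (vp (m F)) (yk k))` (`pe_single`, `hbk_sk`).
 (5) `φ F`, `φ t` commute (third property of the Frobenius element, `isFr_of hp hζ hz X.Fr v hv`; exponent `p`, so `p ^ 2`, on the inertia group, `hA.pw`), so `φ F * gk k * (φ F)⁻¹ = gk k`, `dlk (pr (φ F)) k = 0` (`gk_conj`, `pk q k = k`, `zinj`), `pr (φ F) = e (vp (m F)) * c F`: `0 = om (vp (m F)) (yk k) + dlk (c F) k` (`dlk_mul`, `dlk_e`, `pk q k = k`). So (3) + (4) = 0.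
-/

set_option autoImplicit false
set_option linter.dupNamespace false

open scoped NumberField
open IsDedekindDomain Filter Topology
open scoped Classical

noncomputable section

namespace H48.MG

open H63.MA H38.BB H38.BG H38.AS H57.PC H57.BRA H89.BRG H1.AR H48.MF

open H51.MT

variable {p u w N : ℕ} {G R Q : Type} [Group G] [Group R] [Group Q] [Finite G] [Finite R]
  [Fintype Q] (Gm : GM p u w N G R Q)
  {K : Type} [Field K] [NumberField K] {Ω : Type} [Field Ω] [Algebra K Ω] [IsAlgClosure K Ω]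
  {ζ : K} (X : AD Gm.M K Ω ζ)

omit [Finite G] [Finite R] [Fintype Q] [IsAlgClosure K Ω] in
private theorem oml_t {v : Pl K} (hv : v ∉ X.D.S0) :
    X.L.t v = (X.L.ld v hv).t ∧ X.L.t v ∈ inr X.L v := by
  have h1 : X.L.t v = (X.L.ld v hv).t := by rw [LDs.t, dif_pos hv]
  refine ⟨h1, ?_⟩
  rw [h1, inr, dif_pos hv]
  exact (X.L.ld v hv).ht

omit [Finite G] [Finite R] [IsAlgClosure K Ω] in
/-- the value at `(t, F)` -/
private theorem oml_r (hp : p.Prime) {η : Q → Fin w → ZMod p}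
    {f : Fin N → Fin w → ZMod p} (hη : Gnr Gm η) {c : Gal(Ω/K) →* R}
    {m : Gal(Ω/K) → Fin (uE Gm.M) → ZMod p} {φ : Gal(Ω/K) →* G} {σ τ : Gal(Ω/K)}
    (h1 : X.φQ τ = 1) (h2 : c τ = 1) :
    Om Gm η f X.φQ c m φ τ σ = hbk Gm η f (m τ) (m σ) := by
  unfold Om
  rw [h1, h2, gnr_one Gm hη, dt_lzero, tht_one Gm hp, pe_one, zero_add, zero_add]

omit [Finite G] [Finite R] in
/-- the fixed point -/
private theorem oml_k (hp : p.Prime) (hζ : IsPrimitiveRoot ζ p) (hz : Z2 p K) {a : X.Lb}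
    (ha : X.Gd a) {v : Pl K} (hv : v ∉ X.D.S0) (hav : X.un a = v) {γ : Gal(Ω/K)}
    (hγ : H1.AR.Cn X a hv γ) :
    pk Gm (X.φQ (X.Fr.F v)) (pk Gm (X.φQ γ)⁻¹ (ok Gm a.1)) =
      pk Gm (X.φQ γ)⁻¹ (ok Gm a.1) := by
  have h1 := lbl_fix X hp hζ hz ha hv hav hγ
  have h2 : pt Gm (ok Gm a.1) = ⟨a.1, QuotientGroup.mk 1⟩ := by
    unfold pt ok
    rw [Equiv.symm_apply_apply]
  have h3 : em Gm.M (X.φQ γ)⁻¹ (pt Gm (ok Gm a.1)) =
      ⟨a.1, QuotientGroup.mk (X.φQ γ)⁻¹⟩ := by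
    rw [h2]
    change (⟨a.1, QuotientGroup.mk ((X.φQ γ)⁻¹ * 1)⟩ : Ei Gm.M) = _
    rw [mul_one]
  have h4 : em Gm.M (X.φQ (X.Fr.F v)) (pt Gm (pk Gm (X.φQ γ)⁻¹ (ok Gm a.1))) =
      pt Gm (pk Gm (X.φQ γ)⁻¹ (ok Gm a.1)) := by
    rw [pt_pk, h3]
    change (⟨a.1, X.φQ (X.Fr.F v) • QuotientGroup.mk (X.φQ γ)⁻¹⟩ : Ei Gm.M) = _
    rw [h1]
  rw [← pk_one Gm (pk Gm (X.φQ γ)⁻¹ (ok Gm a.1)), ← pk_mul, mul_one]
  rw [pk, h4, pk_one, pt, Equiv.apply_symm_apply]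

omit [Finite G] [Finite R] in
/-- `η` of the Frobenius element vanishes on `Del` -/
private theorem oml_d (hp : p.Prime) (hζ : IsPrimitiveRoot ζ p) (hz : Z2 p K)
    {η : Q → Fin w → ZMod p} (hη : Gnr Gm η) {a : X.Lb}
    (ha : X.Gd a) {v : Pl K} (hv : v ∉ X.D.S0) (hav : X.un a = v) {γ : Gal(Ω/K)}
    (hγ : H1.AR.Cn X a hv γ) {d : Fin w → ZMod p} (hd : d ∈ Gm.Del a.1) :
    dt (η (X.φQ (X.Fr.F v))) d = 0 := by
  have h0 : ∀ τ ∈ inr X.L v, X.φQ τ ^ p = 1 := fun τ hτ => by rw [X.ur v hv τ hτ, one_pow]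
  obtain ⟨k, h1⟩ := lbl_f X hp hζ hz ha hv hav hγ X.φQ X.ft h0
  have h2 := lbl_t X hp hζ ha hv hav hγ X.φQ X.ft h0
  rw [X.ur v hv _ (oml_t Gm X hv).2, mul_one, mul_inv_cancel] at h2
  rw [h2, one_pow, mul_one] at h1
  have h3 : X.φQ (X.fb a) ∈ Gm.M.H a.1 := fld_phi X a.1 _
  have h4 := hη.del a.1 _ h3 d hd
  rw [h1, hη.mul, hη.mul, gnr_inv Gm hη, add_neg_cancel_comm] at h4
  exact h4

theorem oml (hp : p.Prime) (hζ : IsPrimitiveRoot ζ p) (hz : Z2 p K) {η : Q → Fin w → ZMod p}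
    {f : Fin N → Fin w → ZMod p} (hη : Gnr Gm η) (hf : Alf Gm η f) {c : Gal(Ω/K) →* R}
    (hc : X.IsC c) {g : Finset X.Lb} (hg : X.Ok g) {φ₁ φ : Gal(Ω/K) →* G}
    {ε : Pl K → Fin w → ZMod p} (hA : AL Gm X φ₁ c g φ ε) {v : Pl K} (hv : v ∉ X.D.S0) :
    Om Gm η f X.φQ c (mg X g) φ (X.Fr.F v) (X.L.t v) -
      Om Gm η f X.φQ c (mg X g) φ (X.L.t v) (X.Fr.F v) = dt (η (X.φQ (X.Fr.F v))) (ε v) := by
  have hN := al_nd Gm X hp hζ hc hA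
  obtain ⟨htt, ht⟩ := oml_t Gm X hv
  have h1 : X.φQ (X.L.t v) = 1 := X.ur v hv _ ht
  have h2 : c (X.L.t v) = 1 := hc.ur v hv _ ht
  rw [oml_r Gm X hp hη h1 h2]
  unfold Om
  by_cases h : ∀ a ∈ g, X.un a ≠ v
  · have h3 : mg X g (X.L.t v) = 0 := mg_0 Gm X hp hζ hg hv h ht
    have h4 : φ (X.L.t v) = Gm.z (ε v) := by
      by_cases hG : X.D.Gd v
      · exact hA.e1 v hG h
      · rw [hA.e0 v hG, gm_z0]
        exact hA.un v hv (fun hn => hG ⟨hv, hn⟩) _ ht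
    have h5 : fz Gm c (mg X g) φ (X.L.t v) = ε v := by
      apply fz_uni
      rw [h3, h2, nn_zero Gm hp, sec1, one_mul, mul_one, h4]
    rw [h3, h5, tht_zero, map_zero, hbk_zero_r, hbk_zero_l, add_zero, add_zero, sub_zero]
  · push Not at h
    obtain ⟨a, hag, hav⟩ := h
    have ha : X.Gd a := hg.1 a hag
    obtain ⟨γ, hγ⟩ := lbl_ex X ha hv hav
    have h3 : mg X g (X.L.t v) = Pi.single (pk Gm (X.φQ γ)⁻¹ (ok Gm a.1)) 1 :=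
      mg_1 Gm X hp hζ hg hag hv hav hγ
    have h4 := oml_k Gm X hp hζ hz ha hv hav hγ
    have h5 : ∀ d ∈ Gm.Del a.1, dt (η (X.φQ (X.Fr.F v))) d = 0 := fun d hd =>
      oml_d Gm X hp hζ hz hη ha hv hav hγ hd
    have h6 : Gm.M.π (Gm.pr (φ γ)⁻¹) = (X.φQ γ)⁻¹ := by
      rw [map_inv, map_inv, hN.pr, map_mul, hN.pi, (Gm.M.eker _).2 ⟨_, rfl⟩, one_mul]
    -- the value at `t`
    have h7 : φ (X.L.t v) = Gm.z (ε v + dlk Gm (Gm.pr (φ γ)⁻¹) (ok Gm a.1)) *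
        gk Gm (pk Gm (X.φQ γ)⁻¹ (ok Gm a.1)) := by
      have e1 := lbl_t X hp hζ ha hv hav hγ φ hA.ft (hA.pw v hv)
      rw [hA.e2 a hag, hav] at e1
      have e2 := gk_conj Gm (φ γ)⁻¹ (ok Gm a.1)
      rw [gk_ok, h6] at e2
      have e3 : φ (X.L.t v) = Gm.z (ε v) * ((φ γ)⁻¹ * Gm.g a.1 * (φ γ)⁻¹⁻¹) := by
        rw [← mul_assoc, ← mul_assoc, Gm.zcen, mul_assoc _ (Gm.z (ε v)), e1]
        group
      rw [e3, e2, ← mul_assoc, Gm.zadd]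
    have h8 : fz Gm c (mg X g) φ (X.L.t v) =
        ε v + dlk Gm (Gm.pr (φ γ)⁻¹) (ok Gm a.1) := by
      apply fz_uni
      rw [h3, h2, nn_single Gm hp, sec1, mul_one, h7]
    have h9 : dlk Gm (Gm.pr (φ γ)⁻¹) (ok Gm a.1) ∈ Gm.Del a.1 := by
      have e1 := dlk_del Gm (Gm.pr (φ γ)⁻¹) (ok Gm a.1)
      have e2 : (pt Gm (ok Gm a.1)).1 = a.1 := by
        unfold pt ok
        rw [Equiv.symm_apply_apply]
      rwa [e2] at e1
    -- the commutation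
    have h10 : dlk Gm (Gm.pr (φ (X.Fr.F v))) (pk Gm (X.φQ γ)⁻¹ (ok Gm a.1)) = 0 := by
      have e1 := (isFr_of hp hζ hz X.Fr v hv).2.2 G φ hA.ft (fun τ hτ => by
        have e2 := hA.pw v hv τ (by
          rw [inr, dif_pos hv]
          exact hτ)
        rw [pow_two, pow_mul, e2, one_pow])
      rw [← htt, h7, ← mul_assoc, ← Gm.zcen, mul_assoc, mul_assoc] at e1
      have e2 := mul_left_cancel e1
      have e3 := gk_conj Gm (φ (X.Fr.F v)) (pk Gm (X.φQ γ)⁻¹ (ok Gm a.1))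
      have e4 : Gm.M.π (Gm.pr (φ (X.Fr.F v))) = X.φQ (X.Fr.F v) := by
        rw [hN.pr, map_mul, hN.pi, (Gm.M.eker _).2 ⟨_, rfl⟩, one_mul]
      rw [e2, mul_inv_cancel_right, e4, h4] at e3
      apply Gm.zinj
      rw [gm_z0]
      exact (right_eq_mul.1 e3)
    have h11 : Gm.M.om (vp Gm.M (mg X g (X.Fr.F v))) (yk Gm (pk Gm (X.φQ γ)⁻¹ (ok Gm a.1))) +
        dlk Gm (c (X.Fr.F v)) (pk Gm (X.φQ γ)⁻¹ (ok Gm a.1)) = 0 := by
      rw [hN.pr, dlk_mul Gm hp, hN.pi, h4, dlk_e Gm hp] at h10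
      exact h10
    have h12 := hbk_sk Gm hη hf (mg X g (X.Fr.F v)) (pk Gm (X.φQ γ)⁻¹ (ok Gm a.1))
    rw [h3, h8, tht_bs, hN.pi, h4, pe_single, h4, H51.MT.dt_add', h5 _ h9, add_zero]
    have h13 : dt (rtk Gm η f (pk Gm (X.φQ γ)⁻¹ (ok Gm a.1)))
        (Gm.M.om (vp Gm.M (mg X g (X.Fr.F v))) (yk Gm (pk Gm (X.φQ γ)⁻¹ (ok Gm a.1)))) +
        dt (rtk Gm η f (pk Gm (X.φQ γ)⁻¹ (ok Gm a.1)))
        (dlk Gm (c (X.Fr.F v)) (pk Gm (X.φQ γ)⁻¹ (ok Gm a.1))) = 0 := by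
      rw [← H51.MT.dt_add', h11, dt_zero']
    linear_combination h12 + h13

end H48.MG
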