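import Pool.Agent.H48.MG.Nof

/-!
# [H48 MG THK] conjugation of the normal form, 80-120 lines. File Pool/Agent/H48/MG/Thk.lean

* `th_conj`: as `gk_conj`: `x = z a * sec (pr x)`; `pr` of `sec r * NN m * (sec r)⁻¹` is `e (act (π r) (vp m)) = e (vp (pe (π r) m))` (`nn_pr`, `Gm.M.conj`, `vp_pe`), `gm_fib`; `dif_pos`.
* `th_pol`: conjugate `nn_mul m m'` by `sec r`: `z (bbk m m' + thk (m + m')) * NN (r (m + m')) = z (thk m + thk m') * NN (r m) * NN (r m') = z (thk m + thk m' + bbk (r m) (r m')) * NN (r m + r m')`; `Gm.zinj`.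
* `th_mul`: conjugate by `sec r * sec r'`, whose `pr` is `r * r'` (`th_conj` with `x = sec r * sec r'` and twice). `th_bs`: `th_conj`, `gk_conj` for `x = sec r`, `nn_single`, `pe_single`. `th_e`: `gm_comm` for `x' = sec (e x)`, `NN m` (`pr = e x`, `e (vp m)`), `iv_om`, `π (e x) = 1` (`Gm.M.eker`), `pe_one`. `th_one`: `th_e` with `x = 0` (`gm_e0`). `th_neg`: `th_pol` with `m' = -m`, `th_zero`, `bbk_neg_r`. `dlk_mul`, `dlk_e`: `th_mul`, `th_e` at `Pi.single k 1`, `th_bs`, `pe_single`.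
-/

set_option autoImplicit false
set_option linter.dupNamespace false

open scoped NumberField
open IsDedekindDomain Filter Topology
open scoped Classical

noncomputable section

namespace H48.MG

open H63.MA H38.BB H38.BG H38.AS H57.PC H57.BRA H89.BRG H1.AR H48.MF

open H51.MT

variable {p u w N : ℕ} {G R Q : Type} [Group G] [Group R] [Group Q] [Fintype Q]
  (Gm : GM p u w N G R Q)

private theorem th_spec (hp : p.Prime) (r : R) (m : Fin (uE Gm.M) → ZMod p) :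
    Gm.sec r * NN Gm m * (Gm.sec r)⁻¹ = Gm.z (thk Gm r m) * NN Gm (pe Gm.M (Gm.M.π r) m) := by
  have h : ∃ d, Gm.sec r * NN Gm m * (Gm.sec r)⁻¹ = Gm.z d * NN Gm (pe Gm.M (Gm.M.π r) m) := by
    refine gm_fib Gm ?_
    rw [map_mul, map_mul, map_inv, Gm.sec_pr, nn_pr Gm hp, nn_pr Gm hp, Gm.M.conj, vp_pe]
  unfold thk
  rw [dif_pos h]
  exact h.choose_spec

private theorem th_cen (a : Fin w → ZMod p) (x y : G) : x * (Gm.z a * y) * x⁻¹ = Gm.z a * (x * y * x⁻¹) := by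
  rw [← mul_assoc x, ← Gm.zcen a x]
  group

theorem th_conj (hp : p.Prime) (x : G) (m : Fin (uE Gm.M) → ZMod p) : x * NN Gm m * x⁻¹ =
    Gm.z (thk Gm (Gm.pr x) m) * NN Gm (pe Gm.M (Gm.M.π (Gm.pr x)) m) := by
  obtain ⟨a, ha⟩ : ∃ a, x = Gm.z a * Gm.sec (Gm.pr x) := gm_fib Gm (by rw [Gm.sec_pr])
  have h := th_spec Gm hp (Gm.pr x) m
  have h1 : x * NN Gm m * x⁻¹ = Gm.z a * (Gm.sec (Gm.pr x) * NN Gm m * (Gm.sec (Gm.pr x))⁻¹) * (Gm.z a)⁻¹ := by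
    generalize Gm.sec (Gm.pr x) = s at ha
    rw [ha]
    group
  rw [h1, h, Gm.zcen a, mul_inv_cancel_right]

theorem th_zero (hp : p.Prime) (r : R) : thk Gm r 0 = 0 := by
  have h := th_spec Gm hp r 0
  rw [map_zero, nn_zero Gm hp, mul_one, mul_one, mul_inv_cancel] at h
  apply Gm.zinj
  rw [gm_z0, ← h]

theorem th_pol (hp : p.Prime) (r : R) (m m' : Fin (uE Gm.M) → ZMod p) :
    thk Gm r (m + m') = thk Gm r m + thk Gm r m' +
      bbk Gm (pe Gm.M (Gm.M.π r) m) (pe Gm.M (Gm.M.π r) m') - bbk Gm m m' := by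
  have h1 := th_spec Gm hp r m
  have h2 := th_spec Gm hp r m'
  have h3 := th_spec Gm hp r (m + m')
  have h4 := nn_mul Gm hp m m'
  have h5 := nn_mul Gm hp (pe Gm.M (Gm.M.π r) m) (pe Gm.M (Gm.M.π r) m')
  have h6 : Gm.sec r * (NN Gm m * NN Gm m') * (Gm.sec r)⁻¹ =
      (Gm.sec r * NN Gm m * (Gm.sec r)⁻¹) * (Gm.sec r * NN Gm m' * (Gm.sec r)⁻¹) := by group
  rw [h4, th_cen, h1, h2, h3, map_add] at h6
  have h7 : Gm.z (thk Gm r m) * NN Gm (pe Gm.M (Gm.M.π r) m) *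
      (Gm.z (thk Gm r m') * NN Gm (pe Gm.M (Gm.M.π r) m')) =
      Gm.z (thk Gm r m + thk Gm r m' + bbk Gm (pe Gm.M (Gm.M.π r) m) (pe Gm.M (Gm.M.π r) m')) *
        NN Gm (pe Gm.M (Gm.M.π r) m + pe Gm.M (Gm.M.π r) m') := by
    calc _ = Gm.z (thk Gm r m) * (NN Gm (pe Gm.M (Gm.M.π r) m) * Gm.z (thk Gm r m')) *
          NN Gm (pe Gm.M (Gm.M.π r) m') := by simp only [mul_assoc]
      _ = Gm.z (thk Gm r m) * Gm.z (thk Gm r m') *
          (NN Gm (pe Gm.M (Gm.M.π r) m) * NN Gm (pe Gm.M (Gm.M.π r) m')) := by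
        rw [← Gm.zcen (thk Gm r m')]
        simp only [mul_assoc]
      _ = _ := by rw [h5, ← mul_assoc, ← Gm.zadd, ← Gm.zadd]
  rw [h7, ← mul_assoc, ← Gm.zadd] at h6
  have h8 := Gm.zinj (mul_right_cancel h6)
  rw [eq_sub_iff_add_eq, ← h8, add_comm]

theorem th_neg (hp : p.Prime) (r : R) (m : Fin (uE Gm.M) → ZMod p) :
    thk Gm r (-m) = -thk Gm r m + bbk Gm (pe Gm.M (Gm.M.π r) m) (pe Gm.M (Gm.M.π r) m) -
      bbk Gm m m := by
  have h := th_pol Gm hp r m (-m)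
  rw [add_neg_cancel, th_zero Gm hp, map_neg, bbk_neg_r, bbk_neg_r] at h
  have h2 : thk Gm r (-m) = -thk Gm r m + bbk Gm (pe Gm.M (Gm.M.π r) m) (pe Gm.M (Gm.M.π r) m) -
      bbk Gm m m + (thk Gm r m + thk Gm r (-m) +
      -bbk Gm (pe Gm.M (Gm.M.π r) m) (pe Gm.M (Gm.M.π r) m) - -bbk Gm m m) := by abel
  rw [h2, ← h, add_zero]

theorem th_mul (hp : p.Prime) (r r' : R) (m : Fin (uE Gm.M) → ZMod p) :
    thk Gm (r * r') m = thk Gm r (pe Gm.M (Gm.M.π r') m) + thk Gm r' m := by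
  have h1 := th_conj Gm hp (Gm.sec r * Gm.sec r') m
  have h2 := th_spec Gm hp r' m
  have h3 := th_spec Gm hp r (pe Gm.M (Gm.M.π r') m)
  have h4 : Gm.sec r * Gm.sec r' * NN Gm m * (Gm.sec r * Gm.sec r')⁻¹ =
      Gm.sec r * (Gm.sec r' * NN Gm m * (Gm.sec r')⁻¹) * (Gm.sec r)⁻¹ := by group
  rw [h4, h2, th_cen, h3, map_mul, Gm.sec_pr, Gm.sec_pr, map_mul, pe_mul, ← mul_assoc, ← Gm.zadd] at h1
  have h5 := Gm.zinj (mul_right_cancel h1)
  rw [← h5, add_comm]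

theorem th_bs (hp : p.Prime) (r : R) (k : Fin (uE Gm.M)) :
    thk Gm r (Pi.single k 1) = dlk Gm r k := by
  have h1 := th_spec Gm hp r (Pi.single k 1)
  have h2 := gk_conj Gm (Gm.sec r) k
  rw [Gm.sec_pr] at h2
  rw [pe_single, nn_single Gm hp, nn_single Gm hp, h2] at h1
  exact (Gm.zinj (mul_right_cancel h1)).symm

theorem th_e (hp : p.Prime) (x : Fin u → ZMod p) (m : Fin (uE Gm.M) → ZMod p) :
    thk Gm (Gm.M.e x) m = Gm.M.om x (vp Gm.M m) := by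
  have h1 := th_spec Gm hp (Gm.M.e x) m
  have hπ : Gm.M.π (Gm.M.e x) = 1 := (Gm.M.eker _).2 ⟨x, rfl⟩
  rw [hπ, pe_one] at h1
  have h2 : Gm.pr (Gm.sec (Gm.M.e x)) * Gm.pr (NN Gm m) = Gm.pr (NN Gm m) * Gm.pr (Gm.sec (Gm.M.e x)) := by
    rw [Gm.sec_pr, nn_pr Gm hp, ← Gm.M.eadd, ← Gm.M.eadd, add_comm]
  have h3 := gm_comm Gm h2
  have h4 : (fun k => iv (Gm.M.c k) (Gm.pr (Gm.sec (Gm.M.e x))) (Gm.pr (NN Gm m))) = Gm.M.om x (vp Gm.M m) := by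
    funext k
    rw [Gm.sec_pr, nn_pr Gm hp, Gm.M.iv_om]
  rw [h4] at h3
  rw [h3, ← mul_assoc, mul_inv_cancel_right] at h1
  exact (Gm.zinj (mul_right_cancel h1)).symm

theorem th_one (hp : p.Prime) (m : Fin (uE Gm.M) → ZMod p) : thk Gm 1 m = 0 := by
  have h := th_e Gm hp 0 m
  rw [gm_e0, map_zero] at h
  rw [h]
  rfl

theorem dlk_mul (hp : p.Prime) (r r' : R) (k : Fin (uE Gm.M)) :
    dlk Gm (r * r') k = dlk Gm r (pk Gm (Gm.M.π r') k) + dlk Gm r' k := by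
  rw [← th_bs Gm hp, th_mul Gm hp, pe_single, th_bs Gm hp, th_bs Gm hp]

theorem dlk_e (hp : p.Prime) (x : Fin u → ZMod p) (k : Fin (uE Gm.M)) :
    dlk Gm (Gm.M.e x) k = Gm.M.om x (yk Gm k) := by
  rw [← th_bs Gm hp, th_e Gm hp, vp_single]

end H48.MG
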