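import Pool.Agent.H48.MG.Thp
import Pool.Agent.H48.MG.Thk

/-!
# [H48 MG THM] the cocycle property of the quadratic function, 60-100 lines. File Pool/Agent/H48/MG/Thm.lean

* `tht_zero`: all terms vanish. `tht_neg`: `tht_pol` with `m' = -m` (`hbk_neg_r`, `bbk_neg_r`, `map_neg`, `dt_neg'`). `tht_bs`: `Pi.single k 1` in the definition: the product of two different coordinates vanishes.
* `tht_one`: `π 1 = 1`, `pk_one`: no pair `k < l`, `l < k`; `dlk 1 k = 0` (`th_bs`, `th_one`).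
* `tht_mul`: `D m = tht (r r') m - tht r (r' m) - tht r' m - dt (η (π r)) (thk r' m)`. `D (m + m') = D m + D m'` by `tht_pol` three times, `th_pol`, `hη.mul` (`pe_mul`): the polarisations are `hb(rr'm, rr'm') - hb(m, m') - η(rr')bb(m, m')` and `[hb(rr'm, rr'm') - hb(r'm, r'm') - η r bb(r'm, r'm')] + [hb(r'm, r'm') - hb(m, m') - η r' bb(m, m')] + η r (bb(r'm, r'm') - bb(m, m'))`. `D (Pi.single k 1) = 0`: `tht_bs`, `pe_single`, `th_bs`, `dlk_mul`, `pk_mul`, and `dt (rtk (pk r (pk r' k))) (dlk r' k) = dt (rtk (pk r' k)) (dlk r' k) + dt (η (π r)) (dlk r' k)` (`rtk_sh`, `dlk_del`, `pk_cl`). `nof_ind` with `P m := D m = 0`.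
-/

set_option autoImplicit false
set_option linter.dupNamespace false

open scoped NumberField
open IsDedekindDomain Filter Topology
open scoped Classical

noncomputable section

namespace H48.MG

open H63.MA H38.BB H38.BG H38.AS H57.PC H57.BRA H89.BRG H1.AR H48.MF

open H51.MT

variable {p u w N : ℕ} {G R Q : Type} [Group G] [Group R] [Group Q] [Fintype Q]
  (Gm : GM p u w N G R Q) {η : Q → Fin w → ZMod p} {f : Fin N → Fin w → ZMod p}

theorem tht_zero (r : R) : tht Gm η f r 0 = 0 := by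
  unfold tht
  have h1 : ∀ k : Fin (uE Gm.M), (0 : Fin (uE Gm.M) → ZMod p) k *
      dt (rtk Gm η f (pk Gm (Gm.M.π r) k)) (dlk Gm r k) = 0 := fun k => zero_mul _
  have h2 : ∀ k l : Fin (uE Gm.M), (if k < l ∧ pk Gm (Gm.M.π r) l < pk Gm (Gm.M.π r) k then
      (0 : Fin (uE Gm.M) → ZMod p) k * (0 : Fin (uE Gm.M) → ZMod p) l *
        Ak Gm η f (pk Gm (Gm.M.π r) k) (pk Gm (Gm.M.π r) l) else 0) = 0 := by
    intro k l
    split_ifs
    · rw [Pi.zero_apply, zero_mul, zero_mul]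
    · rfl
  rw [Finset.sum_eq_zero fun k _ => h1 k, Finset.sum_eq_zero fun k _ =>
    Finset.sum_eq_zero fun l _ => h2 k l, add_zero]

theorem tht_neg (hη : Gnr Gm η) (hf : Alf Gm η f) (r : R) (m : Fin (uE Gm.M) → ZMod p) :
    tht Gm η f r (-m) = -tht Gm η f r m +
      (hbk Gm η f (pe Gm.M (Gm.M.π r) m) (pe Gm.M (Gm.M.π r) m) - hbk Gm η f m m -
        dt (η (Gm.M.π r)) (bbk Gm m m)) := by
  have h := tht_pol Gm hη hf r m (-m)
  rw [add_neg_cancel, tht_zero, map_neg, hbk_neg_r, hbk_neg_r, bbk_neg_r, dt_neg'] at h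
  linear_combination -h

theorem tht_bs (r : R) (k : Fin (uE Gm.M)) : tht Gm η f r (Pi.single k 1) =
    dt (rtk Gm η f (pk Gm (Gm.M.π r) k)) (dlk Gm r k) := by
  unfold tht
  rw [Finset.sum_eq_single k]
  · rw [Pi.single_eq_same, one_mul]
    have h2 : ∀ a b : Fin (uE Gm.M), (if a < b ∧ pk Gm (Gm.M.π r) b < pk Gm (Gm.M.π r) a then
        (Pi.single k 1 : Fin (uE Gm.M) → ZMod p) a * (Pi.single k 1 : Fin (uE Gm.M) → ZMod p) b *
          Ak Gm η f (pk Gm (Gm.M.π r) a) (pk Gm (Gm.M.π r) b) else 0) = 0 := by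
      intro a b
      split_ifs with hab
      · by_cases ha : a = k
        · have hb : b ≠ k := fun hb => by
            have := hab.1
            rw [ha, hb] at this
            exact lt_irrefl _ this
          rw [Pi.single_eq_of_ne hb, mul_zero, zero_mul]
        · rw [Pi.single_eq_of_ne ha, zero_mul, zero_mul]
      · rfl
    rw [Finset.sum_eq_zero fun a _ => Finset.sum_eq_zero fun b _ => h2 a b, add_zero]
  · intro b _ hb
    rw [Pi.single_eq_of_ne hb, zero_mul]
  · intro h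
    exact absurd (Finset.mem_univ k) h

theorem tht_one (hp : p.Prime) (m : Fin (uE Gm.M) → ZMod p) : tht Gm η f 1 m = 0 := by
  unfold tht
  have h1 : ∀ k : Fin (uE Gm.M), m k *
      dt (rtk Gm η f (pk Gm (Gm.M.π 1) k)) (dlk Gm 1 k) = 0 := by
    intro k
    rw [← th_bs Gm hp 1 k, th_one Gm hp, dt_zero', mul_zero]
  have h2 : ∀ k l : Fin (uE Gm.M), (if k < l ∧ pk Gm (Gm.M.π 1) l < pk Gm (Gm.M.π 1) k then
      m k * m l * Ak Gm η f (pk Gm (Gm.M.π 1) k) (pk Gm (Gm.M.π 1) l) else 0) = 0 := by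
    intro k l
    rw [if_neg]
    rintro ⟨ha, hb⟩
    rw [map_one, pk_one, pk_one] at hb
    exact lt_asymm ha hb
  rw [Finset.sum_eq_zero fun k _ => h1 k, Finset.sum_eq_zero fun k _ =>
    Finset.sum_eq_zero fun l _ => h2 k l, add_zero]

theorem tht_mul (hp : p.Prime) (hη : Gnr Gm η) (hf : Alf Gm η f) (r r' : R)
    (m : Fin (uE Gm.M) → ZMod p) : tht Gm η f (r * r') m =
      tht Gm η f r (pe Gm.M (Gm.M.π r') m) + tht Gm η f r' m +
        dt (η (Gm.M.π r)) (thk Gm r' m) := by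
  have : NeZero p := ⟨hp.ne_zero⟩
  have hD : ∀ m : Fin (uE Gm.M) → ZMod p, tht Gm η f (r * r') m -
      (tht Gm η f r (pe Gm.M (Gm.M.π r') m) + tht Gm η f r' m +
        dt (η (Gm.M.π r)) (thk Gm r' m)) = 0 := by
    refine nof_ind _ ?_ ?_ ?_
    · rw [tht_zero, map_zero, tht_zero, tht_zero, th_zero Gm hp, dt_zero']
      ring
    · intro k
      have h1 : dt (rtk Gm η f (pk Gm (Gm.M.π r) (pk Gm (Gm.M.π r') k))) (dlk Gm r' k) =
          dt (rtk Gm η f (pk Gm (Gm.M.π r') k)) (dlk Gm r' k) +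
            dt (η (Gm.M.π r)) (dlk Gm r' k) := by
        refine rtk_sh Gm hη _ _ ?_
        rw [pk_cl]
        exact dlk_del Gm r' k
      rw [tht_bs, pe_single, tht_bs, tht_bs, th_bs Gm hp, dlk_mul Gm hp, map_mul, pk_mul, dt_add',
        h1]
      ring
    · intro a b ha hb
      have e1 := tht_pol Gm hη hf (r * r') a b
      have e2 := tht_pol Gm hη hf r (pe Gm.M (Gm.M.π r') a) (pe Gm.M (Gm.M.π r') b)
      have e3 := tht_pol Gm hη hf r' a b
      have e4 := th_pol Gm hp r' a b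
      rw [map_mul, pe_mul, pe_mul, hη.mul, dt_ladd] at e1
      rw [map_add, e1, e2, e3, e4, dt_sub', dt_add', dt_add']
      linear_combination ha + hb
  linear_combination hD m

end H48.MG
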