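import Pool.Agent.H48.MG.Aka

/-!
# [H48 MG THP] the polarisation of the quadratic function, 70-110 lines. File Pool/Agent/H48/MG/Thp.lean

Let `q = π r`, `s = pk q`, `B k l = Ak (s k) (s l)`, `B k l = Ak k l + η q (om (yk k) (yk l))` (`ak_sh`), `B k l = - B l k` (`ak_sw`), `B k k = 0`.
* the linear part of `tht` is additive. The quadratic part `∑_{k < l, s l < s k} m_k m_l B k l` has the polarisation `∑_{k < l, s l < s k} (m_k m'_l + m'_k m_l) B k l`.
* `hbk (pe q m) (pe q m') = ∑_{k, l : s l < s k} m_k m'_l B k l`: substitute `k → s k`, `l → s l` (`pk_bij`, `Fintype.sum_bijective` or `Equiv.ofBijective`, `Equiv.sum_comp`), `pe_pk`. `hbk m m' + dt (η q) (bbk m m') = ∑_{k, l : l < k} m_k m'_l B k l` (`dt_sum'`, `dt_smul'`).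
* the difference is `∑_{k, l} m_k m'_l B k l * ([s l < s k] - [l < k])`. The terms with `k < l`: `[s l < s k]`; the terms with `l < k`: `[s l < s k] - 1 = - [s k < s l]` (`s` injective, `k ≠ l`), `- B k l = B l k`: these are the terms `m_k m'_l B l k`, `l < k`, `s k < s l`; exchange the names (`Finset.sum_comm`).
-/

set_option autoImplicit false
set_option linter.dupNamespace false

open scoped NumberField
open IsDedekindDomain Filter Topology
open scoped Classical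

noncomputable section

namespace H48.MG

open H63.MA H38.BB H38.BG H38.AS H57.PC H57.BRA H89.BRG H1.AR H48.MF

open H51.MT

variable {p u w N : ℕ} {G R Q : Type} [Group G] [Group R] [Group Q] [Fintype Q]
  (Gm : GM p u w N G R Q) {η : Q → Fin w → ZMod p} {f : Fin N → Fin w → ZMod p}

theorem tht_pol (hη : Gnr Gm η) (hf : Alf Gm η f) (r : R) (m m' : Fin (uE Gm.M) → ZMod p) :
    tht Gm η f r (m + m') = tht Gm η f r m + tht Gm η f r m' +
      hbk Gm η f (pe Gm.M (Gm.M.π r) m) (pe Gm.M (Gm.M.π r) m') - hbk Gm η f m m' -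
      dt (η (Gm.M.π r)) (bbk Gm m m') := by
  have hinj : Function.Injective (pk Gm (Gm.M.π r)) := (pk_bij Gm (Gm.M.π r)).1
  have e1 : hbk Gm η f (pe Gm.M (Gm.M.π r) m) (pe Gm.M (Gm.M.π r) m') =
      ∑ k, ∑ l, if pk Gm (Gm.M.π r) l < pk Gm (Gm.M.π r) k then
        m k * m' l * Ak Gm η f (pk Gm (Gm.M.π r) k) (pk Gm (Gm.M.π r) l) else 0 := by
    unfold hbk
    rw [← Equiv.sum_comp (Equiv.ofBijective (pk Gm (Gm.M.π r)) (pk_bij Gm (Gm.M.π r)))]
    refine Finset.sum_congr rfl fun k _ => ?_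
    rw [← Equiv.sum_comp (Equiv.ofBijective (pk Gm (Gm.M.π r)) (pk_bij Gm (Gm.M.π r)))]
    refine Finset.sum_congr rfl fun l _ => ?_
    simp only [Equiv.ofBijective_apply]
    rw [pe_pk, pe_pk]
  have e2 : hbk Gm η f m m' + dt (η (Gm.M.π r)) (bbk Gm m m') =
      ∑ k, ∑ l, if l < k then
        m k * m' l * Ak Gm η f (pk Gm (Gm.M.π r) k) (pk Gm (Gm.M.π r) l) else 0 := by
    unfold hbk bbk
    rw [dt_sum', ← Finset.sum_add_distrib]
    refine Finset.sum_congr rfl fun k _ => ?_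
    rw [dt_sum', ← Finset.sum_add_distrib]
    refine Finset.sum_congr rfl fun l _ => ?_
    split_ifs with h
    · rw [dt_smul', ak_sh Gm hη (Gm.M.π r) k l]
      ring
    · rw [dt_zero', add_zero]
  have e3 : tht Gm η f r (m + m') = tht Gm η f r m + tht Gm η f r m' +
      ((∑ k, ∑ l, if k < l ∧ pk Gm (Gm.M.π r) l < pk Gm (Gm.M.π r) k then
        m k * m' l * Ak Gm η f (pk Gm (Gm.M.π r) k) (pk Gm (Gm.M.π r) l) else 0) +
      ∑ k, ∑ l, if k < l ∧ pk Gm (Gm.M.π r) l < pk Gm (Gm.M.π r) k then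
        m' k * m l * Ak Gm η f (pk Gm (Gm.M.π r) k) (pk Gm (Gm.M.π r) l) else 0) := by
    have a1 : ∑ k, (m + m') k * dt (rtk Gm η f (pk Gm (Gm.M.π r) k)) (dlk Gm r k) =
        ∑ k, m k * dt (rtk Gm η f (pk Gm (Gm.M.π r) k)) (dlk Gm r k) +
        ∑ k, m' k * dt (rtk Gm η f (pk Gm (Gm.M.π r) k)) (dlk Gm r k) := by
      rw [← Finset.sum_add_distrib]
      exact Finset.sum_congr rfl fun k _ => by rw [Pi.add_apply, add_mul]
    have a2 : (∑ k, ∑ l, if k < l ∧ pk Gm (Gm.M.π r) l < pk Gm (Gm.M.π r) k then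
        (m + m') k * (m + m') l * Ak Gm η f (pk Gm (Gm.M.π r) k) (pk Gm (Gm.M.π r) l) else 0) =
        (∑ k, ∑ l, if k < l ∧ pk Gm (Gm.M.π r) l < pk Gm (Gm.M.π r) k then
          m k * m l * Ak Gm η f (pk Gm (Gm.M.π r) k) (pk Gm (Gm.M.π r) l) else 0) +
        (∑ k, ∑ l, if k < l ∧ pk Gm (Gm.M.π r) l < pk Gm (Gm.M.π r) k then
          m' k * m' l * Ak Gm η f (pk Gm (Gm.M.π r) k) (pk Gm (Gm.M.π r) l) else 0) +
        ((∑ k, ∑ l, if k < l ∧ pk Gm (Gm.M.π r) l < pk Gm (Gm.M.π r) k then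
          m k * m' l * Ak Gm η f (pk Gm (Gm.M.π r) k) (pk Gm (Gm.M.π r) l) else 0) +
        ∑ k, ∑ l, if k < l ∧ pk Gm (Gm.M.π r) l < pk Gm (Gm.M.π r) k then
          m' k * m l * Ak Gm η f (pk Gm (Gm.M.π r) k) (pk Gm (Gm.M.π r) l) else 0) := by
      simp only [← Finset.sum_add_distrib]
      refine Finset.sum_congr rfl fun k _ => Finset.sum_congr rfl fun l _ => ?_
      split_ifs with h
      · rw [Pi.add_apply, Pi.add_apply]
        ring
      · simp
    unfold tht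
    rw [a1, a2]
    ring
  have e4 : (∑ k, ∑ l, if k < l ∧ pk Gm (Gm.M.π r) l < pk Gm (Gm.M.π r) k then
        m' k * m l * Ak Gm η f (pk Gm (Gm.M.π r) k) (pk Gm (Gm.M.π r) l) else 0) =
      ∑ k, ∑ l, if l < k ∧ pk Gm (Gm.M.π r) k < pk Gm (Gm.M.π r) l then
        m' l * m k * Ak Gm η f (pk Gm (Gm.M.π r) l) (pk Gm (Gm.M.π r) k) else 0 := Finset.sum_comm
  have e5 : (∑ k, ∑ l, if k < l ∧ pk Gm (Gm.M.π r) l < pk Gm (Gm.M.π r) k then
        m k * m' l * Ak Gm η f (pk Gm (Gm.M.π r) k) (pk Gm (Gm.M.π r) l) else 0) +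
      (∑ k, ∑ l, if l < k ∧ pk Gm (Gm.M.π r) k < pk Gm (Gm.M.π r) l then
        m' l * m k * Ak Gm η f (pk Gm (Gm.M.π r) l) (pk Gm (Gm.M.π r) k) else 0) =
      (∑ k, ∑ l, if pk Gm (Gm.M.π r) l < pk Gm (Gm.M.π r) k then
        m k * m' l * Ak Gm η f (pk Gm (Gm.M.π r) k) (pk Gm (Gm.M.π r) l) else 0) -
      ∑ k, ∑ l, if l < k then
        m k * m' l * Ak Gm η f (pk Gm (Gm.M.π r) k) (pk Gm (Gm.M.π r) l) else 0 := by
    simp only [← Finset.sum_add_distrib, ← Finset.sum_sub_distrib]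
    refine Finset.sum_congr rfl fun k _ => Finset.sum_congr rfl fun l _ => ?_
    have hsw := ak_sw Gm hη hf (pk Gm (Gm.M.π r) l) (pk Gm (Gm.M.π r) k)
    rcases lt_trichotomy k l with h | h | h
    · rcases lt_or_gt_of_ne (hinj.ne h.ne) with h1 | h1
      · rw [if_neg (fun h2 => h2.2.not_gt h1), if_neg (fun h2 => h2.1.not_gt h), if_neg h1.not_gt,
          if_neg h.not_gt]
        ring
      · rw [if_pos ⟨h, h1⟩, if_neg (fun h2 => h2.1.not_gt h), if_pos h1, if_neg h.not_gt]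
        ring
    · subst h
      simp
    · rcases lt_or_gt_of_ne (hinj.ne h.ne) with h1 | h1
      · rw [if_neg (fun h2 => h2.1.not_gt h), if_neg (fun h2 => h2.2.not_gt h1), if_pos h1, if_pos h]
        ring
      · rw [if_neg (fun h2 => h2.1.not_gt h), if_pos ⟨h, h1⟩, if_neg h1.not_gt, if_pos h, hsw]
        ring
  rw [e3, e1, e4, e5, ← e2]
  ring

end H48.MG
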