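import Pool.Agent.H48.MG.Ngn
import Pool.Agent.H48.MG.Phe
import Pool.Agent.H48.MF.Anx
import Pool.Agent.H51.MS.Thn
import Pool.Agent.H1.AR.Nta
import Pool.Agent.H1.AR.Ntc

/-!
# [H48 MG THX] nongeneric kappa: no contribution, 70-110 lines. File Pool/Agent/H48/MG/Thx.lean

`F = frm X hI` (Pool/Agent/H1/AR/Frm.lean), `ws_fs` (MF/Anx.lean), as in `anl` (MF/Any.lean). There are `j`, a good label `⟨j, z⟩`, `d ∈ Del j` with `pp κ (tn (D'.q (un ⟨j, z⟩)) d) ≠ 0`. `θ i = ∑ k, κ i k * d k`; `κ'` from `ngn`; `κ' ≠ 0`. The vector `κ'' ⟨j', l⟩ = if j' = j then κ' l else 0` (private `kv`, `kv_sum` in MF/Any.lean: copy), `κ'' ⬝ᵥ F.qv ⟨j, z⟩ = ∑ l, κ' l * q z l` (see the last part of the proof of `anl`). `F.NT j (κ'' ⬝ᵥ qv)` from `nt3` and `frm_nt` (as there) or `frm_nt3`.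
`H51.MS.thn F hN (cl_univ ..) j κ'' hNT Θ` with `Θ c g = phz κ c.1 g`, `‖Θ‖ ≤ 1` by `phz_le`. Condition: `F.Ok g`, `F.wt c g ≠ 0`, `a ∈ g`, `a.1 = j`, `κ'' ⬝ᵥ qv a ≠ 0`: then `pp κ (tn (D'.q (un a)) d) = ∑ i, θ i * D'.q (un a) i ≠ 0`, so `¬ Kc κ g` and `phz κ c g = 0` (`dif_neg`); `a` is good (`frm_gd`, `frm_ok`).
-/

set_option autoImplicit false
set_option linter.dupNamespace false

open scoped NumberField
open IsDedekindDomain Filter Topology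
open scoped Classical

noncomputable section

namespace H48.MG

open H63.MA H38.BB H38.BG H38.AS H57.PC H57.BRA H89.BRG H1.AR H48.MF

variable {p u w N : ℕ} {G R Q : Type} [Group G] [Group R] [Group Q] [Finite G] [Finite R]
  [Fintype Q] (Gm : GM p u w N G R Q)
  {K : Type} [Field K] [NumberField K] {Ω : Type} [Field Ω] [Algebra K Ω] [IsAlgClosure K Ω]
  {ζ : K} (X : AD Gm.M K Ω ζ) (φ₁ : Gal(Ω/K) →* G)

private def thx95_kv {p u w N : ℕ} {R Q : Type} [Group R] [Group Q] {Dg : MG p u w N R Q}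
    {K : Type} [Field K] [NumberField K] {Ω : Type} [Field Ω] [Algebra K Ω]
    {ζ : K} (X : AD Dg K Ω ζ) (j₀ : Fin N) (κ : Fin (X.A j₀).D.r → ZMod p) :
    (Σ j : Fin N, Fin (X.A j).D.r) → ZMod p :=
  fun r => if h : r.1 = j₀ then κ (Fin.cast (by rw [h]) r.2) else 0

private theorem thx95_kvs {p u w N : ℕ} {R Q : Type} [Group R] [Group Q] {Dg : MG p u w N R Q}
    {K : Type} [Field K] [NumberField K] {Ω : Type} [Field Ω] [Algebra K Ω]
    {ζ : K} (X : AD Dg K Ω ζ) (j₀ : Fin N) (κ : Fin (X.A j₀).D.r → ZMod p)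
    (v : (Σ j : Fin N, Fin (X.A j).D.r) → ZMod p) :
    ∑ r, thx95_kv X j₀ κ r * v r = ∑ k, κ k * v ⟨j₀, k⟩ := by
  rw [Fintype.sum_sigma, Finset.sum_eq_single j₀]
  · refine Finset.sum_congr rfl fun k _ => ?_
    unfold thx95_kv
    rw [dif_pos rfl]
    rfl
  · intro j _ hj
    refine Finset.sum_eq_zero fun k _ => ?_
    unfold thx95_kv
    rw [dif_neg hj, zero_mul]
  · intro h
    exact absurd (Finset.mem_univ j₀) h

theorem thx [Fintype (Co X)] {d : ℕ} {D qq : ℝ} (hI : FI X d D qq) (hN : 1 ≤ N)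
    (D' : RM K p ζ) (hS : D'.S = X.D.S0) (κ : Fin D'.r → Fin w → ZMod p)
    (h : ¬ ∀ j, Gnk Gm X D' κ j) :
    Tendsto (fun Y : ℝ => WS Gm X (phz Gm X D' φ₁ κ) Y /
      ((Y * Real.log Y ^ (N - 1) : ℝ) : ℂ)) atTop (𝓝 0) := by
  have hp := hI.hp
  have hNe : NeZero p := ⟨hp.ne_zero⟩
  push Not at h
  obtain ⟨j, hj⟩ := h
  unfold Gnk at hj
  push Not at hj
  obtain ⟨z, hz, dd, hdd, hne⟩ := hj
  have hpp : ∀ v, pp κ (tn (D'.q v) dd) = ∑ i, (∑ k, κ i k * dd k) * D'.q v i := by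
    intro v
    unfold pp tn
    refine Finset.sum_congr rfl fun i _ => ?_
    rw [Finset.sum_mul]
    exact Finset.sum_congr rfl fun k _ => by ring
  obtain ⟨κ', hκ'⟩ := ngn X hp hI.hp2 hI.hζ D' hS (fun i => ∑ k, κ i k * dd k) j
  have hqv : ∀ z : Pl (X.F j), (thx95_kv X j κ') ⬝ᵥ (frm0 X hI.hp d D qq).qv ⟨j, z⟩ =
      ∑ l, κ' l * (X.A j).D.q z l := by
    intro z
    have h3 := thx95_kvs X j κ' (qvec X ⟨j, z⟩)
    refine h3.trans (Finset.sum_congr rfl fun k _ => ?_)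
    unfold qvec
    rw [dif_pos rfl]
  have hNT : (frm0 X hI.hp d D qq).NT j
      fun a => (thx95_kv X j κ') ⬝ᵥ (frm0 X hI.hp d D qq).qv a := by
    rcases frm_nt3 X hI j (thx95_kv X j κ') with h1 | h1
    · exfalso
      apply hne
      rw [hpp, hκ' z hz, ← hqv]
      exact h1 z ((frm_gd X hp ⟨j, z⟩).2 hz)
    · exact h1
  have key := H51.MS.thn (frm X hI) hN (cl_univ Gm.M hI.hp) j (thx95_kv X j κ') hNT
    (fun c g => phz Gm X D' φ₁ κ c.1 g) (fun c g => phz_le Gm X φ₁ D' κ c.1 g) ?_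
  · refine key.congr fun Y => ?_
    rw [ws_fs Gm X hI.hp hI.hζ (d := d) (D := D) (qq := qq) (phz Gm X D' φ₁ κ) Y]
    rfl
  · rintro c g hg - ⟨a, ha, hai, hka⟩
    have hok : X.Ok g := (frm_ok X hI.hp g).1 hg
    obtain ⟨i, y⟩ := a
    have hai' : i = j := hai
    subst hai'
    have hgd : X.Gd ⟨i, y⟩ := hok.1 _ ha
    unfold phz
    rw [dif_neg]
    rintro ⟨-, hK, -⟩
    apply hka
    have h4 := hK ⟨i, y⟩ ha dd hdd
    rw [hpp] at h4
    exact (hqv y).trans ((hκ' y hgd).symm.trans h4)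

end H48.MG
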