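import Pool.Agent.H48.MG.Cz
import Pool.Agent.H48.MF.Cqe

/-!
# [H48 MG XBV] the group XB and its values at the inertia generators, 110-160 lines. File Pool/Agent/H48/MG/Xbv.lean

* `xb_one`, `xb_mul`, `xb_inv`: `twz_one`, `twz_mul`, `cq_twz`, `cq_trans`, `cq_symm` (Cqe.lean), `chb_ft_mul` etc. (H63/MC/CHb.lean). E.g. `twz (χ χ') φ₁ = twz χ (twz χ' φ₁) ~ twz χ φ₁ ~ φ₁`; `φ₁ = twz χ⁻¹ (twz χ φ₁) ~ twz χ⁻¹ φ₁`.
* `xb_teq`: if `χ ∈ XB` and `χ'` of finite type is `1` on `dec (P v)`, `v ∈ S0`, then `χ * χ' ∈ XB` (`cq_twz_teq`).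
* `cvl_fin`: `H63.BU.uinr_fin` (the set of the `v ∉ S0` with `χ ≠ 1` on `inr L v` is finite; see its use in MF/Esp.lean; `L.t v ∈ inr L v`, `esc_tin`-type: `inr` and `LDs.t` by `dif_pos`, `(L.ld v hv).ht`). For `v ∈ S0`: `L.t v = 1` (`LDs.t`, `dif_neg`), so `cvl = 0`.
* `cvl_mul`, `cvl_inv`: `toAdd_mul`.
* `tt_zero`, `tt_add`, `tt_neg`: `tx_add` with `cvl_mul`.
* `xb_val`: `←`: let `tx x = tx (cvl χ')`, `χ' ∈ XB`. `cz` for `x - cvl χ'` (zero on `S0`) gives `χ''` with values `x - cvl χ'` and trivial at `S0` (`tx_sub`), and `χ = χ' * χ'' ∈ XB` (`xb_teq`). `→`: `tx x = tx (cvl χ)` by `tx_congr` (`D'.q v = 0` for `v ∈ D'.S = S0`: `q_zero`).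
-/

set_option autoImplicit false
set_option linter.dupNamespace false

open scoped NumberField
open IsDedekindDomain Filter Topology
open scoped Classical

noncomputable section

namespace H48.MG

open H63.MA H38.BB H38.BG H38.AS H57.PC H57.BRA H89.BRG H1.AR H48.MF

variable {p u w N : ℕ} {G R Q : Type} [Group G] [Group R] [Group Q]
  {K : Type} [Field K] [NumberField K] {Ω : Type} [Field Ω] [Algebra K Ω] {ζ : K}
  (Gm : GM p u w N G R Q) (X : AD Gm.M K Ω ζ) (φ₁ : Gal(Ω/K) →* G)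

theorem xb_one : (1 : Gal(Ω/K) →* Wg p w) ∈ XB Gm X φ₁ := by
  refine ⟨chb_ft_one, ?_⟩
  rw [twz_one]
  exact cq_refl _ _ _ _

theorem xb_mul {χ χ' : Gal(Ω/K) →* Wg p w} (h : χ ∈ XB Gm X φ₁) (h' : χ' ∈ XB Gm X φ₁) :
    χ * χ' ∈ XB Gm X φ₁ := by
  refine ⟨chb_ft_mul h.1 h'.1, ?_⟩
  rw [twz_mul]
  exact cq_trans (cq_twz Gm Gm.T h'.2 χ) h.2

theorem xb_inv {χ : Gal(Ω/K) →* Wg p w} (h : χ ∈ XB Gm X φ₁) : χ⁻¹ ∈ XB Gm X φ₁ := by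
  refine ⟨chb_ft_inv h.1, ?_⟩
  have h1 := cq_twz Gm Gm.T h.2 χ⁻¹
  rw [← twz_mul, inv_mul_cancel, twz_one] at h1
  exact cq_symm h1

theorem xb_teq {χ χ' : Gal(Ω/K) →* Wg p w} (h : χ ∈ XB Gm X φ₁) (h' : H38.ML.FT χ')
    (h1 : ∀ v ∈ X.D.S0, ∀ σ ∈ dec (K := K) (X.P.P v), χ' σ = 1) : χ * χ' ∈ XB Gm X φ₁ := by
  refine ⟨chb_ft_mul h.1 h', ?_⟩
  have h2 : Teq X.D.S0 X.P (χ * χ') χ := by
    intro v hv σ hσ
    rw [MonoidHom.mul_apply, h1 v hv σ hσ, mul_one]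
  exact cq_trans (cq_twz_teq Gm Gm.T h2 φ₁) h.2


theorem cvl_mul {D : RD0 K p ζ} (L : LDs D Ω) (χ χ' : Gal(Ω/K) →* Wg p w) (v : Pl K) :
    cvl L (χ * χ') v = cvl L χ v + cvl L χ' v := by
  unfold cvl
  rw [MonoidHom.mul_apply, toAdd_mul]

theorem cvl_inv {D : RD0 K p ζ} (L : LDs D Ω) (χ : Gal(Ω/K) →* Wg p w) (v : Pl K) :
    cvl L χ⁻¹ v = -cvl L χ v := by
  unfold cvl
  rw [MonoidHom.inv_apply, toAdd_inv]

private theorem xbv_t {D : RD0 K p ζ} (L : LDs D Ω) (v : Pl K) (hv : v ∉ D.S0) :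
    L.t v ∈ inr L v := by
  unfold LDs.t inr
  rw [dif_pos hv, dif_pos hv]
  exact (L.ld v hv).ht

private theorem xbv_s {D : RD0 K p ζ} (L : LDs D Ω) (χ : Gal(Ω/K) →* Wg p w) (v : Pl K)
    (hv : v ∈ D.S0) : cvl L χ v = 0 := by
  unfold cvl LDs.t
  rw [dif_neg (not_not.2 hv), map_one, toAdd_one]

theorem cvl_fin [IsAlgClosure K Ω] {D : RD0 K p ζ} (L : LDs D Ω) {χ : Gal(Ω/K) →* Wg p w}
    (h : H38.ML.FT χ) : {v | cvl L χ v ≠ 0}.Finite := by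
  refine (H63.BU.uinr_fin L χ h).subset fun v hv => ?_
  have hv0 : v ∉ D.S0 := fun h0 => hv (xbv_s L χ v h0)
  refine ⟨hv0, L.t v, xbv_t L v hv0, fun h1 => hv ?_⟩
  unfold cvl
  rw [h1, toAdd_one]

theorem tt_zero (D' : RM K p ζ) : (0 : Fin D'.r → Fin w → ZMod p) ∈ TT Gm X D' φ₁ := by
  refine ⟨1, xb_one Gm X φ₁, ?_⟩
  funext i k
  refine (finsum_congr fun v => ?_).trans finsum_zero
  have h1 : cvl X.L (1 : Gal(Ω/K) →* Wg p w) v = 0 := by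
    unfold cvl
    rw [MonoidHom.one_apply, toAdd_one]
  rw [h1, Pi.zero_apply, mul_zero]

theorem tt_add [IsAlgClosure K Ω] (D' : RM K p ζ) {x y : Fin D'.r → Fin w → ZMod p}
    (hx : x ∈ TT Gm X D' φ₁) (hy : y ∈ TT Gm X D' φ₁) : x + y ∈ TT Gm X D' φ₁ := by
  obtain ⟨χ, hχ, rfl⟩ := hx
  obtain ⟨χ', hχ', rfl⟩ := hy
  refine ⟨χ * χ', xb_mul Gm X φ₁ hχ hχ', ?_⟩
  have h1 := tx_add D'.q (cvl X.L χ) (cvl X.L χ') (cvl_fin X.L hχ.1) (cvl_fin X.L hχ'.1)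
  refine Eq.trans ?_ h1
  exact congrArg (tx D'.q) (funext fun v => cvl_mul X.L χ χ' v)

theorem tt_neg (D' : RM K p ζ) {x : Fin D'.r → Fin w → ZMod p} (hx : x ∈ TT Gm X D' φ₁) :
    -x ∈ TT Gm X D' φ₁ := by
  obtain ⟨χ, hχ, rfl⟩ := hx
  refine ⟨χ⁻¹, xb_inv Gm X φ₁ hχ, ?_⟩
  funext i k
  refine Eq.trans (finsum_congr fun v => ?_) (finsum_neg_distrib _)
  rw [cvl_inv, Pi.neg_apply, mul_neg]

theorem xb_val [IsAlgClosure K Ω] (hp : p.Prime) (hp2 : MOne p K) (hζ : IsPrimitiveRoot ζ p)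
    (D' : RM K p ζ) (hS : D'.S = X.D.S0) (x : Pl K → Fin w → ZMod p)
    (hx : {v | x v ≠ 0}.Finite) (h0 : ∀ v ∈ X.D.S0, x v = 0) :
    (∃ χ ∈ XB Gm X φ₁, ∀ v, v ∉ X.D.S0 → cvl X.L χ v = x v) ↔ tx D'.q x ∈ TT Gm X D' φ₁ := by
  constructor
  · rintro ⟨χ, hχ, h1⟩
    refine ⟨χ, hχ, tx_congr D'.q _ _ fun v hv => h1 v fun h2 => hv ?_⟩
    exact D'.q_zero v (hS ▸ h2)
  · rintro ⟨χ', hχ', h1⟩
    have h1' : tx D'.q (cvl X.L χ') = tx D'.q x := h1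
    have hf := cvl_fin X.L hχ'.1
    have hd : {v | x v - cvl X.L χ' v ≠ 0}.Finite := by
      refine (hx.union hf).subset fun v hv => ?_
      by_contra hc
      rw [Set.mem_union, not_or] at hc
      apply hv
      have h2 : x v = 0 := not_not.1 hc.1
      have h3 : cvl X.L χ' v = 0 := not_not.1 hc.2
      rw [h2, h3, sub_zero]
    obtain ⟨χ, c1, c2, c3⟩ := cz hp hp2 hζ X.L X.P D' hS (fun v => x v - cvl X.L χ' v) hd
      fun v hv => by rw [h0 v hv, xbv_s X.L χ' v hv, sub_zero]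
    refine ⟨χ' * χ, xb_teq Gm X φ₁ hχ' c1 (c3 ?_), fun v hv => ?_⟩
    · rw [tx_sub D'.q x (cvl X.L χ') hx hf, h1', sub_self]
    · rw [cvl_mul, c2 v hv, add_sub_cancel]

end H48.MG
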